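import Pool.Agent.Run7.h3.GT.Lin

set_option autoImplicit false
set_option linter.unusedSectionVars false
set_option linter.unusedVariables false

/-! The archimedean places: a semistable position of the columns, up to bounded factors. -/

namespace Run7.h3.GT

open Finset Module Submodule

section

variable {k : ℕ} {ι s : Type} [Fintype ι] [DecidableEq ι]
  [Fintype s] [DecidableEq s] {β : ι → s} {d : s → ℕ}

theorem continuous_mnr (f : Fin k → ι) : Continuous fun V : Matrix (Fin k) ι ℂ => mnr V f := by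
  unfold mnr
  exact Continuous.matrix_det (by fun_prop)

theorem continuous_mono (m : Mon k β d) : Continuous fun V : Matrix (Fin k) ι ℂ => mono V m := by
  unfold mono
  exact continuous_finsetProd _ fun f _ => (continuous_mnr f).pow _

/-- the compact set -/
def KK (β : ι → s) (d : s → ℕ) (N : ℕ) (δ : ℝ) : Set (Matrix (Fin k) ι ℂ) :=
  {X | (∀ j i, ‖X j i‖ ≤ 1) ∧ ∀ A : Finset s, ∃ f : Fin k → ι,
    δ ≤ ‖mnr X f‖ ∧ ∑ b ∈ A, d b ≤ N * dA β f A}

theorem isCompact_KK (N : ℕ) (δ : ℝ) : IsCompact (KK (k := k) β d N δ) := by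
  have h1 : IsCompact {X : Matrix (Fin k) ι ℂ | ∀ j i, ‖X j i‖ ≤ 1} := by
    have : {X : Matrix (Fin k) ι ℂ | ∀ j i, ‖X j i‖ ≤ 1} =
        Set.univ.pi fun _ : Fin k => Set.univ.pi fun _ : ι => Metric.closedBall (0 : ℂ) 1 := by
      ext X
      change _ ↔ ∀ j ∈ Set.univ, ∀ i ∈ Set.univ, X j i ∈ Metric.closedBall (0 : ℂ) 1
      simp
    rw [this]
    exact isCompact_univ_pi fun _ => isCompact_univ_pi fun _ => isCompact_closedBall _ _
  have h2 : IsClosed {X : Matrix (Fin k) ι ℂ | ∀ A : Finset s, ∃ f : Fin k → ι,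
      δ ≤ ‖mnr X f‖ ∧ ∑ b ∈ A, d b ≤ N * dA β f A} := by
    have : {X : Matrix (Fin k) ι ℂ | ∀ A : Finset s, ∃ f : Fin k → ι,
        δ ≤ ‖mnr X f‖ ∧ ∑ b ∈ A, d b ≤ N * dA β f A} = ⋂ A : Finset s, ⋃ f : Fin k → ι,
        {X | δ ≤ ‖mnr X f‖ ∧ ∑ b ∈ A, d b ≤ N * dA β f A} := by
      ext X
      simp
    rw [this]
    refine isClosed_iInter fun A => isClosed_iUnion_of_finite fun f => ?_
    by_cases h : ∑ b ∈ A, d b ≤ N * dA β f A
    · simp only [h, and_true]
      exact isClosed_le continuous_const (continuous_mnr f).norm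
    · simp only [h, and_false]
      exact isClosed_empty
  exact h1.inter_right h2

theorem KK_mono {N : ℕ} (hk : 0 < k) (hd : ∑ b, d b = k * N) {δ : ℝ} (hδ : 0 < δ) :
    ∃ c : ℝ, 0 < c ∧ ∀ X ∈ KK (k := k) β d N δ, ∃ m : Mon k β d, c ≤ ‖mono X m‖ := by
  classical
  have := mon_finite (k := k) (β := β) (d := d) hk
  have := Fintype.ofFinite (Mon k β d)
  set F : Matrix (Fin k) ι ℂ → ℝ := fun X => ∑ m : Mon k β d, ‖mono X m‖ with hF
  have hFc : Continuous F := continuous_finsetSum _ fun m _ => (continuous_mono m).norm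
  have hpos : ∀ X ∈ KK (k := k) β d N δ, 0 < F X := by
    intro X hX
    obtain ⟨m, hm⟩ := rado_mono (β := β) hk hd X fun A => by
      obtain ⟨f, hf1, hf2⟩ := hX.2 A
      have hne : mnr X f ≠ 0 := by
        intro h
        rw [h, norm_zero] at hf1
        linarith
      exact hf2.trans (Nat.mul_le_mul_left _ (dA_le_rank X f hne A))
    have h1 : ‖mono X m‖ ≤ F X := single_le_sum (f := fun m : Mon k β d => ‖mono X m‖)
      (fun _ _ => norm_nonneg _) (mem_univ m)
    exact lt_of_lt_of_le (norm_pos_iff.2 hm) h1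
  rcases (KK (k := k) β d N δ).eq_empty_or_nonempty with h0 | h0
  · refine ⟨1, one_pos, fun X hX => ?_⟩
    rw [h0] at hX
    exact hX.elim
  · obtain ⟨X₀, hX₀, hmin⟩ := (isCompact_KK N δ).exists_isMinOn h0 hFc.continuousOn
    have hc0 := hpos X₀ hX₀
    refine ⟨F X₀ / (Fintype.card (Mon k β d) + 1), by positivity, fun X hX => ?_⟩
    by_contra hcon
    push Not at hcon
    have h1 : F X ≤ ∑ m : Mon k β d, F X₀ / (Fintype.card (Mon k β d) + 1) :=
      sum_le_sum fun m _ => (hcon m).le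
    rw [sum_const, card_univ, nsmul_eq_mul] at h1
    have h2 : F X₀ ≤ F X := hmin hX
    have h3 : (Fintype.card (Mon k β d) : ℝ) * (F X₀ / (Fintype.card (Mon k β d) + 1)) < F X₀ := by
      rw [mul_div_assoc', div_lt_iff₀ (by positivity)]
      nlinarith
    linarith

/-- the weights of a function of the columns, additively -/
def wa (β : ι → s) (y : s → ℝ) (f : Fin k → ι) : ℝ := ∑ l, y (β (f l))

theorem wa_eq (y : s → ℝ) (f : Fin k → ι) : wa β y f = ∑ b, dg β f b * y b := by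
  unfold wa dg
  rw [← sum_fiberwise_of_maps_to (s := univ) (t := univ) (g := fun l => β (f l))
    (fun _ _ => mem_univ _)]
  refine sum_congr rfl fun b _ => ?_
  rw [sum_congr rfl (g := fun _ => y b) fun l hl => by rw [(mem_filter.1 hl).2], sum_const,
    nsmul_eq_mul]

theorem exp_wa (y : s → ℝ) (f : Fin k → ι) :
    wt β (fun b => Real.exp (y b)) f = Real.exp (wa β y f) := by
  unfold wt wa
  rw [Real.exp_sum]

theorem sum_wa (y : s → ℝ) (m : Mon k β d) : ∑ f, (m.1 f : ℝ) * wa β y f = ∑ b, d b * y b := by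
  have h1 : ∀ f, (m.1 f : ℝ) * wa β y f = ∑ b, ((m.1 f * dg β f b : ℕ) : ℝ) * y b := by
    intro f
    rw [wa_eq, mul_sum]
    refine sum_congr rfl fun b _ => ?_
    push_cast
    ring
  rw [sum_congr rfl fun f _ => h1 f, sum_comm]
  refine sum_congr rfl fun b _ => ?_
  rw [← sum_mul, ← Nat.cast_sum, m.2 b]

theorem wa_indicator (y : s → ℝ) (A : Finset s) (f : Fin k → ι) :
    wa β (fun b => y b - if b ∈ A then 1 else 0) f = wa β y f - dA β f A := by
  unfold wa
  rw [sum_sub_distrib, dA_eq]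
  congr 1
  rw [sum_ite, sum_const_zero, add_zero, sum_const, nsmul_eq_mul, mul_one]

/-- near minimisers of a piecewise linear function -/
theorem near_min {N : ℕ} (hk : 0 < k) (hN : 0 < N) (hki : k ≤ Fintype.card ι)
    (hd : ∑ b, d b = k * N) (w : (Fin k → ι) → ℝ)
    (hm : ∃ m : Mon k β d, ∀ f, m.1 f ≠ 0 → Function.Injective f) :
    ∃ (y : s → ℝ) (f₀ : Fin k → ι), Function.Injective f₀ ∧
      (∀ f, Function.Injective f → w f - wa β y f ≤ w f₀ - wa β y f₀) ∧
      ∀ A : Finset s, ∃ f, Function.Injective f ∧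
        (w f₀ - wa β y f₀) - (k + 1) ≤ w f - wa β y f ∧ ∑ b ∈ A, d b ≤ N * dA β f A := by
  classical
  set I : Finset (Fin k → ι) := univ.filter fun f => Function.Injective f with hI
  have hIne : I.Nonempty := by
    obtain ⟨e⟩ := Function.Embedding.nonempty_of_card_le (α := Fin k) (β := ι) (by simpa using hki)
    exact ⟨e, mem_filter.2 ⟨mem_univ _, e.injective⟩⟩
  set M : (s → ℝ) → ℝ := fun y => I.sup' hIne fun f => w f - wa β y f with hM
  have hMle : ∀ y, ∀ f, Function.Injective f → w f - wa β y f ≤ M y := fun y f hf =>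
    le_sup' (fun f => w f - wa β y f) (mem_filter.2 ⟨mem_univ _, hf⟩)
  have hMex : ∀ y, ∃ f, Function.Injective f ∧ M y = w f - wa β y f := by
    intro y
    obtain ⟨f, hf1, hf2⟩ := exists_mem_eq_sup' hIne fun f => w f - wa β y f
    exact ⟨f, (mem_filter.1 hf1).2, hf2⟩
  set G : (s → ℝ) → ℝ := fun y => ∑ b, d b * y b + N * M y with hG
  have hbdd : BddBelow (Set.range G) := by
    obtain ⟨m, hm⟩ := hm
    refine ⟨∑ f, m.1 f * w f, ?_⟩
    rintro _ ⟨y, rfl⟩
    have h1 : ∑ f, (m.1 f : ℝ) * w f = ∑ b, d b * y b + ∑ f, (m.1 f : ℝ) * (w f - wa β y f) := by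
      rw [← sum_wa y m, ← sum_add_distrib]
      refine sum_congr rfl fun f _ => ?_
      ring
    have h2 : ∑ f, (m.1 f : ℝ) * (w f - wa β y f) ≤ ∑ f, (m.1 f : ℝ) * M y := by
      refine sum_le_sum fun f _ => ?_
      by_cases h : m.1 f = 0
      · rw [h]
        simp
      · exact mul_le_mul_of_nonneg_left (hMle y f (hm f h)) (Nat.cast_nonneg _)
    rw [← sum_mul, ← Nat.cast_sum, sum_mon hk hd m] at h2
    simp only [hG]
    linarith
  obtain ⟨_, ⟨y, rfl⟩, hy⟩ := exists_lt_of_csInf_lt (Set.range_nonempty G)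
    (show sInf (Set.range G) < sInf (Set.range G) + 1 / 2 by linarith)
  have hy2 : ∀ y', G y - 1 / 2 < G y' := fun y' => by
    have := csInf_le hbdd ⟨y', rfl⟩
    linarith
  obtain ⟨f₀, hf₀, hMf⟩ := hMex y
  refine ⟨y, f₀, hf₀, fun f hf => by rw [← hMf]; exact hMle y f hf, fun A => ?_⟩
  have h1 := hy2 (fun b => y b - if b ∈ A then 1 else 0)
  obtain ⟨f, hf, hf2⟩ := hMex (fun b => y b - if b ∈ A then 1 else 0)
  have h2 : G (fun b => y b - if b ∈ A then 1 else 0) = ∑ b, d b * y b - ∑ b ∈ A, d b +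
      N * (w f - wa β y f + dA β f A) := by
    simp only [hG]
    rw [hf2, wa_indicator]
    have : ∑ b, (d b : ℝ) * (y b - if b ∈ A then 1 else 0) = ∑ b, d b * y b - ∑ b ∈ A, d b := by
      have h3 : ∀ b, (d b : ℝ) * (y b - if b ∈ A then 1 else 0) =
          d b * y b - if b ∈ A then (d b : ℝ) else 0 := by
        intro b
        split_ifs <;> ring
      rw [sum_congr rfl fun b _ => h3 b, sum_sub_distrib, sum_ite_mem, univ_inter]
      push_cast
      rfl
    rw [this]
    ring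
  rw [h2] at h1
  have h3 : G y = ∑ b, d b * y b + N * (w f₀ - wa β y f₀) := by
    simp only [hG]
    rw [hMf]
  rw [h3] at h1
  have h4 : w f - wa β y f ≤ w f₀ - wa β y f₀ := by
    rw [← hMf]
    exact hMle y f hf
  have hNR : (1 : ℝ) ≤ N := by exact_mod_cast hN
  push_cast at h1
  have h4N : (N : ℝ) * (w f - wa β y f) ≤ N * (w f₀ - wa β y f₀) :=
    mul_le_mul_of_nonneg_left h4 (by linarith)
  have h5 : ((∑ b ∈ A, d b : ℕ) : ℝ) - 1 / 2 < N * dA β f A := by
    push_cast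
    linarith
  refine ⟨f, hf, ?_, ?_⟩
  · have h6 : (dA β f A : ℝ) ≤ k := by exact_mod_cast dA_le f A
    have h7 : (0 : ℝ) ≤ ∑ b ∈ A, (d b : ℝ) := by positivity
    have h8 : (N : ℝ) * ((w f₀ - wa β y f₀) - (k + 1)) ≤ N * (w f - wa β y f) := by nlinarith
    exact le_of_mul_le_mul_left h8 (by linarith)
  · by_contra hcon
    push Not at hcon
    have h6 : ((N * dA β f A + 1 : ℕ) : ℝ) ≤ ((∑ b ∈ A, d b : ℕ) : ℝ) := by exact_mod_cast hcon
    push_cast at h6 h5
    linarith

/-- the archimedean lemma -/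
theorem arch {N : ℕ} (hk : 0 < k) (hN : 0 < N) (hki : k ≤ Fintype.card ι)
    (hd : ∑ b, d b = k * N) (hn : ∀ b, d b ≤ (univ.filter fun i => β i = b).card * N) :
    ∃ C : ℝ, 0 < C ∧ ∀ V : Matrix (Fin k) ι ℂ, Gen V → ∃ (Λ : s → ℝ) (γ : ℝ), (∀ b, 0 < Λ b) ∧
      0 < γ ∧ (∀ f, ‖mnr V f‖ ≤ γ * wt β Λ f) ∧
      ∃ m : Mon k β d, γ ^ N * ∏ b, Λ b ^ d b ≤ C * ‖mono V m‖ := by
  obtain ⟨c, hc, hKK⟩ := KK_mono (k := k) (β := β) hk hd (Real.exp_pos (-((k : ℝ) + 1)))
  refine ⟨c⁻¹, inv_pos.2 hc, fun V hV => ?_⟩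
  obtain ⟨y, f₀, hf₀, hmax, hA⟩ := near_min (β := β) hk hN hki hd
    (fun f => Real.log ‖mnr V f‖) (by
      obtain ⟨m, hm⟩ := gen_mono hk hki hd hn V hV
      refine ⟨m, fun f hf => ?_⟩
      by_contra hinj
      apply hm
      unfold mono
      refine prod_eq_zero (mem_univ f) ?_
      rw [mnr_zero V f hinj, zero_pow hf])
  have hv0 : mnr V f₀ ≠ 0 := hV f₀ hf₀
  have hn0 : 0 < ‖mnr V f₀‖ := norm_pos_iff.2 hv0
  set τ : s → ℂ := fun b => ((Real.exp (-(y b)) : ℝ) : ℂ) with hτ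
  set g : Matrix (Fin k) (Fin k) ℂ :=
    Matrix.diagonal (fun j => ((Real.exp (y (β (f₀ j))) : ℝ) : ℂ)) with hg
  set X : Matrix (Fin k) ι ℂ := Matrix.of fun j i => (g * nf V f₀) j i * τ (β i) with hX
  set ρ : ℝ := Real.exp (wa β y f₀) / ‖mnr V f₀‖ with hρ
  have hρ0 : 0 < ρ := by positivity
  have hgd : g.det = ((Real.exp (wa β y f₀) : ℝ) : ℂ) := by
    rw [hg, Matrix.det_diagonal, ← exp_wa]
    unfold wt
    push_cast
    rfl
  have hXm : ∀ f, ‖mnr X f‖ = ρ * (‖mnr V f‖ * Real.exp (-(wa β y f))) := by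
    intro f
    have h1 : mnr X f = (∏ l, τ (β (f l))) * mnr (g * nf V f₀) f :=
      mnr_scale (g * nf V f₀) (fun i => τ (β i)) f
    have h2 : ∏ l, τ (β (f l)) = ((Real.exp (-(wa β y f)) : ℝ) : ℂ) := by
      rw [hτ]
      simp only
      rw [← Complex.ofReal_prod, ← Real.exp_sum]
      unfold wa
      rw [sum_neg_distrib]
    rw [h1, h2, mnr_mul, hgd, mnr_nf, norm_mul, norm_mul, norm_div, Complex.norm_real,
      Complex.norm_real, Real.norm_of_nonneg (Real.exp_pos _).le,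
      Real.norm_of_nonneg (Real.exp_pos _).le, hρ]
    ring
  have hXe : ∀ f, Function.Injective f → ‖mnr X f‖ =
      Real.exp ((Real.log ‖mnr V f‖ - wa β y f) - (Real.log ‖mnr V f₀‖ - wa β y f₀)) := by
    intro f hf
    have h1 : 0 < ‖mnr V f‖ := norm_pos_iff.2 (hV f hf)
    rw [hXm, hρ]
    have h2 : (Real.log ‖mnr V f‖ - wa β y f) - (Real.log ‖mnr V f₀‖ - wa β y f₀) =
        Real.log ‖mnr V f‖ + -(wa β y f) + wa β y f₀ + -Real.log ‖mnr V f₀‖ := by ring
    rw [h2, Real.exp_add, Real.exp_add, Real.exp_add, Real.exp_neg (Real.log _),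
      Real.exp_log h1, Real.exp_log hn0]
    field_simp
  have hX1 : ∀ f, ‖mnr X f‖ ≤ 1 := by
    intro f
    by_cases hf : Function.Injective f
    · rw [hXe f hf, ← Real.exp_zero]
      refine Real.exp_le_exp.2 ?_
      have := hmax f hf
      linarith
    · rw [mnr_zero X f hf, norm_zero]
      exact zero_le_one
  -- the entries of X
  have hXn : X.submatrix id f₀ = 1 := by
    have h1 : (nf V f₀).submatrix id f₀ = 1 := by
      have : IsUnit (V.submatrix id f₀).det := isUnit_iff_ne_zero.2 hv0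
      have h2 : (nf V f₀).submatrix id f₀ = (V.submatrix id f₀)⁻¹ * V.submatrix id f₀ := rfl
      rw [h2, Matrix.nonsing_inv_mul _ this]
    ext j l
    have h3 : X.submatrix id f₀ j l = g j j * (nf V f₀).submatrix id f₀ j l * τ (β (f₀ l)) := by
      simp only [hX, hg, Matrix.submatrix_apply, Matrix.of_apply, id, Matrix.diagonal_mul,
        Matrix.diagonal_apply_eq]
    rw [h3, h1]
    by_cases hjl : j = l
    · subst hjl
      rw [Matrix.one_apply_eq, hg, Matrix.diagonal_apply_eq, hτ]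
      simp only
      rw [mul_one, ← Complex.ofReal_mul, ← Real.exp_add]
      simp
    · rw [Matrix.one_apply_ne hjl]
      ring
  have hent : ∀ j i, X j i = mnr X (Function.update f₀ j i) := by
    intro j i
    have h1 : mnr X f₀ = 1 := by
      unfold mnr
      rw [hXn, Matrix.det_one]
    have h2 := nf_apply X f₀ (by rw [h1]; exact one_ne_zero) j i
    rw [h1, div_one] at h2
    rw [← h2]
    have h3 : nf X f₀ = X := by
      rw [nf, hXn, inv_one, Matrix.one_mul]
    rw [h3]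
  have hXK : X ∈ KK (k := k) β d N (Real.exp (-((k : ℝ) + 1))) := by
    refine ⟨fun j i => by rw [hent]; exact hX1 _, fun A => ?_⟩
    obtain ⟨f, hf, h1, h2⟩ := hA A
    refine ⟨f, ?_, h2⟩
    rw [hXe f hf]
    exact Real.exp_le_exp.2 (by linarith)
  obtain ⟨m, hm⟩ := hKK X hXK
  refine ⟨fun b => Real.exp (y b), ρ⁻¹, fun b => Real.exp_pos _, inv_pos.2 hρ0, fun f => ?_, m, ?_⟩
  · have h1 := hX1 f
    rw [hXm, Real.exp_neg] at h1
    rw [exp_wa]
    have h3 := Real.exp_pos (wa β y f)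
    have h4 : ‖mnr V f‖ = ρ⁻¹ * Real.exp (wa β y f) *
        (ρ * (‖mnr V f‖ * (Real.exp (wa β y f))⁻¹)) := by field_simp
    rw [h4]
    exact mul_le_of_le_one_right (by positivity) h1
  · have h1 : mono X m = (∏ b, τ b ^ d b) * (g.det ^ N * mono (nf V f₀) m) := by
      rw [hX, mono_scale, mono_mul g hk hd]
    have h2 : mono (nf V f₀) m = mono V m / mnr V f₀ ^ N := by
      unfold mono
      rw [← sum_mon hk hd m, ← prod_pow_eq_pow_sum, ← prod_div_distrib]
      refine prod_congr rfl fun f _ => ?_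
      rw [mnr_nf, div_pow]
    have h3 : ‖∏ b, τ b ^ d b‖ = (∏ b, Real.exp (y b) ^ d b)⁻¹ := by
      rw [norm_prod, ← prod_inv_distrib]
      refine prod_congr rfl fun b _ => ?_
      rw [norm_pow, hτ]
      simp only
      rw [Complex.norm_real, Real.norm_of_nonneg (Real.exp_pos _).le, Real.exp_neg, inv_pow]
    have h4 : ‖mono X m‖ = (∏ b, Real.exp (y b) ^ d b)⁻¹ * (ρ ^ N * ‖mono V m‖) := by
      rw [h1, norm_mul, h3, norm_mul, h2, norm_pow, hgd, Complex.norm_real,
        Real.norm_of_nonneg (Real.exp_pos _).le, norm_div, norm_pow, hρ, div_pow]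
      ring
    rw [h4] at hm
    have h5 : 0 < ∏ b, Real.exp (y b) ^ d b := prod_pos fun b _ => by positivity
    rw [inv_pow, inv_mul_eq_div, inv_mul_eq_div, div_le_div_iff₀ (by positivity) hc]
    rw [inv_mul_eq_div, le_div_iff₀ h5] at hm
    linarith

end

end Run7.h3.GT
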