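import Pool.Agent.Run7.h3.GT.NF

set_option autoImplicit false
set_option linter.unusedSectionVars false
set_option linter.unusedVariables false

/-! The number of algebraic integers in a box. -/

namespace Run7.h3.GT

open Finset Module NumberField

section

variable (F : Type) [Field F] [NumberField F]

/-- the algebraic integers of size at most `X` -/
def bxs (X : ℝ) : Set (𝓞 F) := {x | ∀ w : InfinitePlace F, w (x : F) ≤ X}

/-- integer vectors in a box -/
theorem icube {α : Type} [Fintype α] [DecidableEq α] (R : ℝ) (hR : 0 ≤ R) :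
    {a : α → ℤ | ∀ i, |(a i : ℝ)| ≤ R} =
      ((Fintype.piFinset fun _ : α => Icc (-(⌊R⌋₊ : ℤ)) ⌊R⌋₊ : Finset (α → ℤ)) : Set (α → ℤ)) := by
  ext a
  simp only [mem_coe, Fintype.mem_piFinset, mem_Icc]
  refine forall_congr' fun i => ?_
  rw [← abs_le]
  constructor
  · intro h
    have h2 : ((a i).natAbs : ℝ) ≤ R := by
      rw [Nat.cast_natAbs]
      push_cast
      exact h
    have h3 := Nat.le_floor h2
    rw [Int.abs_eq_natAbs]
    exact_mod_cast h3
  · intro h
    have h1 : ((|a i| : ℤ) : ℝ) ≤ ((⌊R⌋₊ : ℤ) : ℝ) := by exact_mod_cast h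
    push_cast at h1
    exact h1.trans (Nat.floor_le hR)

theorem icube_card {α : Type} [Fintype α] [DecidableEq α] (R : ℝ) (hR : 0 ≤ R) :
    {a : α → ℤ | ∀ i, |(a i : ℝ)| ≤ R}.Finite ∧
      {a : α → ℤ | ∀ i, |(a i : ℝ)| ≤ R}.ncard = (2 * ⌊R⌋₊ + 1) ^ Fintype.card α := by
  rw [icube R hR]
  refine ⟨Finset.finite_toSet _, ?_⟩
  rw [Set.ncard_coe_finset, Fintype.card_piFinset]
  rw [prod_congr rfl fun _ _ => Int.card_Icc _ _, prod_const, card_univ]
  congr 1
  omega

/-- coordinates are bounded by the size -/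
theorem coord_bound : ∃ K : ℝ, 0 < K ∧ ∀ (x : 𝓞 F) (X : ℝ), x ∈ bxs F X →
    ∀ i, |((RingOfIntegers.basis F).repr x i : ℝ)| ≤ K * X := by
  classical
  set L := (mixedEmbedding.latticeBasis F).equivFunL.toContinuousLinearMap with hL
  refine ⟨‖L‖ + 1, by positivity, fun x X hx i => ?_⟩
  have h1 : ‖mixedEmbedding F (x : F)‖ ≤ X := by
    rw [mixedEmbedding.norm_eq_sup'_normAtPlace]
    refine sup'_le _ _ fun w _ => ?_
    rw [mixedEmbedding.normAtPlace_apply]
    exact hx w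
  have h2 : ‖L (mixedEmbedding F (x : F))‖ ≤ ‖L‖ * ‖mixedEmbedding F (x : F)‖ := L.le_opNorm _
  have h3 : ‖L (mixedEmbedding F (x : F)) i‖ ≤ ‖L (mixedEmbedding F (x : F))‖ :=
    norm_le_pi_norm _ i
  have h4 : L (mixedEmbedding F (x : F)) i = ((RingOfIntegers.basis F).repr x i : ℝ) := by
    have e1 : L (mixedEmbedding F (x : F)) i =
        (mixedEmbedding.latticeBasis F).repr (mixedEmbedding F (x : F)) i := rfl
    rw [e1, mixedEmbedding.latticeBasis_repr_apply]
    have e2 : (integralBasis F).repr (x : F) i = ((RingOfIntegers.basis F).repr x i : ℚ) :=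
      integralBasis_repr_apply F x i
    rw [e2]
    push_cast
    rfl
  rw [h4, Real.norm_eq_abs] at h3
  have hX : 0 ≤ X := (norm_nonneg _).trans h1
  have h5 : ‖L‖ * ‖mixedEmbedding F (x : F)‖ ≤ ‖L‖ * X :=
    mul_le_mul_of_nonneg_left h1 (norm_nonneg _)
  linarith

theorem card_basis : Fintype.card (Free.ChooseBasisIndex ℤ (𝓞 F)) = finrank ℚ F := by
  rw [← RingOfIntegers.rank, finrank_eq_card_chooseBasisIndex]

theorem bxs_upper : ∃ C : ℝ, 1 ≤ C ∧ ∀ X : ℝ, 0 ≤ X → (bxs F X).Finite ∧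
    ((bxs F X).ncard : ℝ) ≤ C * (max 1 X) ^ finrank ℚ F := by
  classical
  obtain ⟨K, hK, hb⟩ := coord_bound F
  refine ⟨(2 * K + 1) ^ finrank ℚ F, one_le_pow₀ (by linarith), fun X hX => ?_⟩
  set b := RingOfIntegers.basis F with hbdef
  set φ : 𝓞 F → (Free.ChooseBasisIndex ℤ (𝓞 F) → ℤ) := fun x i => b.repr x i with hφ
  have hinj : Function.Injective φ := by
    intro x y h
    apply b.repr.injective
    ext i
    exact congrFun h i
  obtain ⟨hfin, hcard⟩ := icube_card (α := Free.ChooseBasisIndex ℤ (𝓞 F)) (K * X) (by positivity)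
  have hmaps : Set.MapsTo φ (bxs F X)
      {a : Free.ChooseBasisIndex ℤ (𝓞 F) → ℤ | ∀ i, |(a i : ℝ)| ≤ K * X} :=
    fun x hx i => hb x X hx i
  refine ⟨Set.Finite.of_injOn hmaps hinj.injOn hfin, ?_⟩
  have h1 := Set.ncard_le_ncard_of_injOn φ hmaps hinj.injOn hfin
  rw [hcard, card_basis] at h1
  have h2 : ((bxs F X).ncard : ℝ) ≤ (2 * (⌊K * X⌋₊ : ℝ) + 1) ^ finrank ℚ F := by
    exact_mod_cast h1
  refine h2.trans ?_
  rw [← mul_pow]
  refine pow_le_pow_left₀ (by positivity) ?_ _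
  have h3 := Nat.floor_le (show 0 ≤ K * X by positivity)
  have h4 : 1 ≤ max 1 X := le_max_left _ _
  have h5 : X ≤ max 1 X := le_max_right _ _
  nlinarith

theorem bxs_lower : ∃ c : ℝ, 0 < c ∧ ∀ X : ℝ, 1 ≤ X →
    c * X ^ finrank ℚ F ≤ ((bxs F X).ncard : ℝ) := by
  classical
  set b := RingOfIntegers.basis F with hbdef
  set B : ℝ := 1 + ∑ w : InfinitePlace F, ∑ i, w (b i : F) with hB
  have hB0 : 0 < B := by
    have : 0 ≤ ∑ w : InfinitePlace F, ∑ i, w (b i : F) :=
      sum_nonneg fun w _ => sum_nonneg fun i _ => apply_nonneg w _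
    linarith
  have hBw : ∀ w : InfinitePlace F, ∑ i, w (b i : F) ≤ B := by
    intro w
    have := single_le_sum (f := fun w : InfinitePlace F => ∑ i, w (b i : F))
      (fun w _ => sum_nonneg fun i _ => apply_nonneg w _) (mem_univ w)
    linarith
  obtain ⟨C, hC, hup⟩ := bxs_upper F
  refine ⟨B⁻¹ ^ finrank ℚ F, by positivity, fun X hX => ?_⟩
  have hX0 : 0 ≤ X := by linarith
  set ψ : (Free.ChooseBasisIndex ℤ (𝓞 F) → ℤ) → 𝓞 F := fun a => ∑ i, a i • b i with hψ
  have hinj : Function.Injective ψ := by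
    intro x y h
    funext i
    have h1 : ∀ a : Free.ChooseBasisIndex ℤ (𝓞 F) → ℤ, b.repr (ψ a) i = a i := by
      intro a
      rw [hψ]
      simp only
      rw [b.repr_sum_self]
    rw [← h1 x, h, h1 y]
  obtain ⟨hfin, hcard⟩ := icube_card (α := Free.ChooseBasisIndex ℤ (𝓞 F)) (X / B) (by positivity)
  have hmaps : Set.MapsTo ψ {a : Free.ChooseBasisIndex ℤ (𝓞 F) → ℤ | ∀ i, |(a i : ℝ)| ≤ X / B}
      (bxs F X) := by
    intro a ha w
    have h1 : ((ψ a : 𝓞 F) : F) = ∑ i, ((a i : ℤ) : F) * (b i : F) := by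
      rw [hψ]
      simp only [map_sum, zsmul_eq_mul, map_mul, map_intCast]
    rw [h1]
    refine (place_sum_le w _ _).trans ?_
    have h2 : ∀ i ∈ (univ : Finset (Free.ChooseBasisIndex ℤ (𝓞 F))),
        w (((a i : ℤ) : F) * (b i : F)) ≤ X / B * w (b i : F) := by
      intro i _
      rw [map_mul]
      refine mul_le_mul_of_nonneg_right ?_ (apply_nonneg w _)
      have h3 := place_rat w ((a i : ℤ) : ℚ)
      push_cast at h3
      rw [h3]
      exact ha i
    refine (sum_le_sum h2).trans ?_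
    rw [← mul_sum]
    calc X / B * ∑ i, w (b i : F) ≤ X / B * B := mul_le_mul_of_nonneg_left (hBw w) (by positivity)
      _ = X := by field_simp
  have h1 := Set.ncard_le_ncard_of_injOn ψ hmaps hinj.injOn (hup X hX0).1
  rw [hcard, card_basis] at h1
  have h2 : (2 * (⌊X / B⌋₊ : ℝ) + 1) ^ finrank ℚ F ≤ ((bxs F X).ncard : ℝ) := by
    exact_mod_cast h1
  refine le_trans ?_ h2
  rw [← mul_pow]
  refine pow_le_pow_left₀ (by positivity) ?_ _
  have h3 := Nat.lt_floor_add_one (X / B)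
  have h4 : B⁻¹ * X = X / B := by rw [div_eq_inv_mul]
  rw [h4]
  have h5 : (0 : ℝ) ≤ ⌊X / B⌋₊ := Nat.cast_nonneg _
  linarith

end

end Run7.h3.GT
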