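import Mathlib

set_option autoImplicit false
set_option linter.unusedSectionVars false
set_option linter.unusedVariables false

/-! Summation over the cells. -/

namespace Run7.h3.GT

open Finset

section

variable {ι s : Type} [Fintype ι] [DecidableEq ι] [Fintype s] [DecidableEq s]

/-- a linear form with bounded coefficients is minimal at an indicator -/
theorem hyp_min {k : ℕ} (hk : 0 < k) (hki : k ≤ Fintype.card ι) (v z : ι → ℝ) {Z A : ℝ}
    (hz0 : ∀ i, 0 ≤ z i) (hz1 : ∀ i, z i ≤ Z) (hz : ∑ i, z i = k * Z)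
    (hv : ∀ f : Fin k → ι, Function.Injective f → -A ≤ ∑ l, v (f l)) :
    -(Z * A) ≤ ∑ i, z i * v i := by
  classical
  have hιne : Nonempty ι := Fintype.card_pos_iff.1 (lt_of_lt_of_le hk hki)
  have hZ0 : 0 ≤ Z := (hz0 hιne.some).trans (hz1 _)
  have hne : Nonempty {f : Fin k → ι // Function.Injective f} := by
    have h1 : Fintype.card (Fin k) ≤ Fintype.card ι := by rwa [Fintype.card_fin]
    obtain ⟨f⟩ := Function.Embedding.nonempty_of_card_le h1
    exact ⟨⟨f, f.injective⟩⟩
  obtain ⟨⟨f, hf⟩, hmin⟩ := Finite.exists_min fun f : {f : Fin k → ι // Function.Injective f} =>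
    ∑ l, v (f.1 l)
  simp only [Subtype.forall] at hmin
  have hk' : Nonempty (Fin k) := ⟨⟨0, hk⟩⟩
  obtain ⟨l₀, hl₀⟩ := Finite.exists_max fun l => v (f l)
  set τ := v (f l₀) with hτ
  -- the exchange
  have hex : ∀ i, i ∉ univ.image f → τ ≤ v i := by
    intro i hi
    have hinj : Function.Injective (Function.update f l₀ i) := by
      intro a b hab
      by_cases ha : a = l₀
      · by_cases hb : b = l₀
        · rw [ha, hb]
        · exfalso
          rw [ha, Function.update_self, Function.update_of_ne hb] at hab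
          exact hi (mem_image.2 ⟨b, mem_univ _, hab.symm⟩)
      · by_cases hb : b = l₀
        · exfalso
          rw [hb, Function.update_self, Function.update_of_ne ha] at hab
          exact hi (mem_image.2 ⟨a, mem_univ _, hab⟩)
        · rw [Function.update_of_ne ha, Function.update_of_ne hb] at hab
          exact hf hab
    have h1 := hmin _ hinj
    rw [← add_sum_erase univ _ (mem_univ l₀), ← add_sum_erase univ (fun l => v (Function.update f l₀ i l))
      (mem_univ l₀), Function.update_self] at h1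
    have h2 : ∑ l ∈ univ.erase l₀, v (Function.update f l₀ i l) = ∑ l ∈ univ.erase l₀, v (f l) :=
      sum_congr rfl fun l hl => by rw [Function.update_of_ne (ne_of_mem_erase hl)]
    rw [h2] at h1
    linarith
  set S := univ.image f with hS
  have hcard : S.card = k := by
    rw [hS, card_image_of_injective _ hf, card_univ, Fintype.card_fin]
  have h1 : ∀ i, (if i ∈ S then Z * v i else 0) + (z i - if i ∈ S then Z else 0) * τ ≤ z i * v i := by
    intro i
    by_cases hi : i ∈ S
    · rw [if_pos hi, if_pos hi]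
      obtain ⟨l, _, rfl⟩ := mem_image.1 hi
      have h2 := hl₀ l
      have h3 := hz1 (f l)
      nlinarith
    · rw [if_neg hi, if_neg hi]
      have h2 := hex i hi
      have h3 := hz0 i
      nlinarith
  have h2 := sum_le_sum fun i (_ : i ∈ (univ : Finset ι)) => h1 i
  rw [sum_add_distrib, ← sum_mul, sum_sub_distrib, hz, sum_ite_mem, univ_inter, sum_ite_mem,
    univ_inter, sum_const, hcard, nsmul_eq_mul, sub_self, zero_mul, add_zero, ← mul_sum] at h2
  have h3 : ∑ i ∈ S, v i = ∑ l, v (f l) := by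
    rw [hS, sum_image fun a _ b _ h => hf h]
  rw [h3] at h2
  have h4 := hv f hf
  nlinarith

/-- the cone of effective classes -/
def EffC (k : ℕ) (β : ι → s) (x : s → ℝ) : Prop :=
  ∀ b, 0 ≤ x b ∧ k * x b ≤ ((univ.filter fun i => β i = b).card : ℝ) * ∑ c, x c

variable {β : ι → s}

theorem sum_block (hβ : Function.Surjective β) (x : s → ℝ) (y : s → ℝ) :
    ∑ i, (x (β i) / ((univ.filter fun j => β j = β i).card : ℝ)) * y (β i) = ∑ b, x b * y b := by
  rw [← sum_fiberwise_of_maps_to (s := univ) (t := univ) (g := β) (fun _ _ => mem_univ _)]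
  refine sum_congr rfl fun b _ => ?_
  rw [sum_congr rfl (g := fun _ => x b / ((univ.filter fun j => β j = b).card : ℝ) * y b)
    fun i hi => by rw [(mem_filter.1 hi).2], sum_const, nsmul_eq_mul]
  have h1 : ((univ.filter fun j => β j = b).card : ℝ) ≠ 0 := by
    obtain ⟨i, hi⟩ := hβ b
    have : 0 < (univ.filter fun j => β j = b).card :=
      card_pos.2 ⟨i, mem_filter.2 ⟨mem_univ _, hi⟩⟩
    positivity
  field_simp

/-- the linear forms of effective classes are bounded below on the cone of the cells -/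
theorem base_ineq {k : ℕ} (hk : 0 < k) (hki : k ≤ Fintype.card ι) (hβ : Function.Surjective β)
    {x : s → ℝ} (hx : EffC k β x) {y : s → ℝ} {A : ℝ}
    (hy : ∀ f : Fin k → ι, Function.Injective f → -A ≤ ∑ l, y (β (f l))) :
    -((∑ c, x c) / k * A) ≤ ∑ b, x b * y b := by
  have hk' : (0 : ℝ) < k := by exact_mod_cast hk
  have hn : ∀ b, (0 : ℝ) < ((univ.filter fun j => β j = b).card : ℝ) := by
    intro b
    obtain ⟨i, hi⟩ := hβ b
    have : 0 < (univ.filter fun j => β j = b).card :=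
      card_pos.2 ⟨i, mem_filter.2 ⟨mem_univ _, hi⟩⟩
    positivity
  rw [← sum_block hβ x y]
  refine hyp_min hk hki (fun i => y (β i)) _ (fun i => div_nonneg (hx _).1 (hn _).le) (fun i => ?_)
    ?_ hy
  · rw [div_le_div_iff₀ (hn _) hk']
    have := (hx (β i)).2
    linarith
  · have h1 := sum_block hβ x fun _ => 1
    simp only [mul_one] at h1
    rw [h1]
    field_simp

/-- the cells are bounded -/
theorem coercive {k : ℕ} (hk : 0 < k) (hki : k ≤ Fintype.card ι) (hβ : Function.Surjective β)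
    {d : s → ℕ} (hd0 : ∀ b, 0 < d b)
    (hd : ∀ b, k * d b < (univ.filter fun i => β i = b).card * ∑ c, d c) {y : s → ℝ} {A L : ℝ}
    (hA : 0 ≤ A) (hy : ∀ f : Fin k → ι, Function.Injective f → -A ≤ ∑ l, y (β (f l)))
    (hL : ∑ b, (d b : ℝ) * y b ≤ L) (b : s) :
    |y b| ≤ (k + Fintype.card ι) * (L + ((∑ c, (d c : ℝ)) + 1) * A) := by
  have hk' : (1 : ℝ) ≤ k := by exact_mod_cast hk
  set n : ℝ := ((Fintype.card ι : ℕ) : ℝ) with hn
  have hn0 : 0 ≤ n := Nat.cast_nonneg _
  set η : ℝ := 1 / (k + n) with hη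
  have hkn : (0 : ℝ) < k + n := by linarith
  have hη0 : 0 < η := by positivity
  have hηk : η * k ≤ 1 := by
    rw [hη, one_div, inv_mul_le_iff₀ hkn]
    linarith
  have hηn : η * n ≤ 1 := by
    rw [hη, one_div, inv_mul_le_iff₀ hkn]
    linarith
  have hη1 : η ≤ 1 := by nlinarith
  set D : ℝ := ∑ c, (d c : ℝ) with hD
  have hD0 : 0 ≤ D := sum_nonneg fun _ _ => Nat.cast_nonneg _
  have hcn : ∀ c : s, ((univ.filter fun i => β i = c).card : ℝ) ≤ n := by
    intro c
    rw [hn]
    exact_mod_cast card_le_univ _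
  have hd' : ∀ c, (k : ℝ) * d c + 1 ≤ ((univ.filter fun i => β i = c).card : ℝ) * D := by
    intro c
    have h1 : k * d c + 1 ≤ (univ.filter fun i => β i = c).card * ∑ c, d c := hd c
    have h2 : ((k * d c + 1 : ℕ) : ℝ) ≤ (((univ.filter fun i => β i = c).card * ∑ c, d c : ℕ) : ℝ) := by
      exact_mod_cast h1
    push_cast at h2
    exact h2
  have hsum : ∀ ε : ℝ, ∑ c, ((d c : ℝ) + if c = b then ε else 0) = D + ε := by
    intro ε
    rw [sum_add_distrib, sum_ite_eq' univ b, if_pos (mem_univ _)]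
  have hpair : ∀ ε : ℝ, ∑ c, ((d c : ℝ) + if c = b then ε else 0) * y c =
      ∑ c, (d c : ℝ) * y c + ε * y b := by
    intro ε
    rw [← sum_ite_eq' univ b (fun c => ε * y c) |>.trans (if_pos (mem_univ b)), ← sum_add_distrib]
    refine sum_congr rfl fun c _ => ?_
    split_ifs <;> ring
  have heff : ∀ ε : ℝ, |ε| ≤ η → EffC k β fun c => (d c : ℝ) + if c = b then ε else 0 := by
    intro ε hε c
    rw [abs_le] at hε
    have h1 : (1 : ℝ) ≤ d c := by exact_mod_cast hd0 c
    refine ⟨?_, ?_⟩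
    · simp only
      split_ifs
      · linarith
      · linarith
    · rw [hsum]
      have h2 := hd' c
      have h3 := hcn c
      have h4 : (0 : ℝ) ≤ ((univ.filter fun i => β i = c).card : ℝ) := Nat.cast_nonneg _
      rcases le_total 0 ε with h | h
      · have h5 : (0 : ℝ) ≤ ((univ.filter fun i => β i = c).card : ℝ) * ε := mul_nonneg h4 h
        have h6 : (k : ℝ) * ε ≤ 1 := by nlinarith
        simp only
        split_ifs
        · nlinarith
        · nlinarith
      · have h5 : -1 ≤ ((univ.filter fun i => β i = c).card : ℝ) * ε := by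
          have h6 : ((univ.filter fun i => β i = c).card : ℝ) * (-ε) ≤ n * η :=
            mul_le_mul h3 (by linarith) (by linarith) hn0
          nlinarith
        have h6 : (k : ℝ) * ε ≤ 0 := mul_nonpos_of_nonneg_of_nonpos (by linarith) h
        simp only
        split_ifs
        · nlinarith
        · nlinarith
  have hXk : ∀ ε : ℝ, |ε| ≤ η → (D + ε) / k * A ≤ (D + 1) * A := by
    intro ε hε
    rw [abs_le] at hε
    refine mul_le_mul_of_nonneg_right ?_ hA
    rw [div_le_iff₀ (by linarith)]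
    have h1 : D + 1 ≤ (D + 1) * k := le_mul_of_one_le_right (by linarith) hk'
    linarith
  have hb : ∀ ε : ℝ, |ε| ≤ η → -(L + (D + 1) * A) ≤ ε * y b := by
    intro ε hε
    have h1 := base_ineq hk hki hβ (heff ε hε) hy
    rw [hsum, hpair] at h1
    have h2 := hXk ε hε
    linarith
  have h1 := hb η (by rw [abs_of_pos hη0])
  have h2 := hb (-η) (by rw [abs_neg, abs_of_pos hη0])
  have h3 : |η * y b| ≤ L + (D + 1) * A := by
    rw [abs_le]
    constructor <;> linarith
  rw [abs_mul, abs_of_pos hη0, hη, one_div, inv_mul_le_iff₀ hkn] at h3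
  exact h3

/-- the integer value of the height -/
def hZ (d : s → ℕ) (y : s → ℤ) : ℤ := ∑ b, (d b : ℤ) * y b

theorem hZ_cast (d : s → ℕ) (y : s → ℤ) : ((hZ d y : ℤ) : ℝ) = ∑ b, (d b : ℝ) * y b := by
  unfold hZ
  push_cast
  rfl

theorem hZ_inj {d : s → ℕ} (hd : ∀ b, 0 < d b) (b₀ : s) {y y' : s → ℤ}
    (h1 : Function.update y b₀ 0 = Function.update y' b₀ 0) (h2 : hZ d y = hZ d y') : y = y' := by
  have h3 : ∀ i, i ≠ b₀ → y i = y' i := by
    intro i hi
    have := congrFun h1 i
    rwa [Function.update_of_ne hi, Function.update_of_ne hi] at this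
  have h4 : ∑ i ∈ univ.erase b₀, (d i : ℤ) * y i = ∑ i ∈ univ.erase b₀, (d i : ℤ) * y' i :=
    sum_congr rfl fun i hi => by rw [h3 i (ne_of_mem_erase hi)]
  unfold hZ at h2
  rw [← add_sum_erase univ _ (mem_univ b₀), ← add_sum_erase univ _ (mem_univ b₀), h4] at h2
  have h5 := add_right_cancel h2
  have h6 : (d b₀ : ℤ) ≠ 0 := by
    have := hd b₀
    positivity
  have h7 := mul_left_cancel₀ h6 h5
  funext i
  by_cases hi : i = b₀
  · rw [hi]; exact h7
  · exact h3 i hi

/-- the sum of the exponentials of the height -/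
theorem sum_le {d : s → ℕ} (hd : ∀ b, 0 < d b) (b₀ : s)
    {t L : ℝ} (ht : 0 < t) (N : ℕ) (Z : Finset (s → ℤ))
    (hZ1 : ∀ y ∈ Z, (hZ d y : ℝ) ≤ L) (hZ2 : ∀ y ∈ Z, ∀ i, -(N : ℤ) ≤ y i ∧ y i ≤ N) :
    ∑ y ∈ Z, Real.exp (t * (hZ d y : ℝ)) ≤
      (2 * (N : ℝ) + 1) ^ (Fintype.card s - 1) * (Real.exp (t * L) * (1 - Real.exp (-t))⁻¹) := by
  set b : ℤ := ⌊L⌋ with hb
  set q : ℝ := Real.exp (-t) with hq
  have hq0 : 0 < q := Real.exp_pos _
  have hq1 : q < 1 := (by rw [← Real.exp_zero]; exact Real.exp_lt_exp.2 (by linarith))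
  have hyb : ∀ y ∈ Z, hZ d y ≤ b := fun y hy => Int.le_floor.2 (hZ1 y hy)
  set Φ : (s → ℤ) → (s → ℤ) × ℕ := fun y => (Function.update y b₀ 0, (b - hZ d y).toNat)
    with hΦ
  have hinj : Set.InjOn Φ (Z : Set (s → ℤ)) := by
    intro y hy y' hy' h
    simp only [hΦ, Prod.mk.injEq] at h
    refine hZ_inj hd b₀ h.1 ?_
    have a1 := hyb y hy
    have a2 := hyb y' hy'
    have a3 := h.2
    omega
  set U : Finset (s → ℤ) := Fintype.piFinset fun i => if i = b₀ then {0} else Icc (-(N : ℤ)) N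
    with hU
  set R : ℕ := Z.sup (fun y => (b - hZ d y).toNat) + 1 with hR
  have hsub : Z.image Φ ⊆ U ×ˢ range R := by
    intro p hp
    obtain ⟨y, hy, rfl⟩ := mem_image.1 hp
    rw [mem_product]
    constructor
    · rw [hU, Fintype.mem_piFinset]
      intro i
      simp only [hΦ]
      by_cases hi : i = b₀
      · rw [if_pos hi, hi, Function.update_self, mem_singleton]
      · rw [if_neg hi, Function.update_of_ne hi, mem_Icc]
        exact hZ2 y hy i
    · rw [mem_range, hR]
      exact Nat.lt_succ_of_le (le_sup (f := fun y => (b - hZ d y).toNat) hy)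
  have hval : ∀ y ∈ Z, Real.exp (t * (hZ d y : ℝ)) =
      Real.exp (t * b) * q ^ (Φ y).2 := by
    intro y hy
    have a1 := hyb y hy
    rw [hq, ← Real.exp_nat_mul, ← Real.exp_add]
    congr 1
    simp only [hΦ]
    have a2 : (((b - hZ d y).toNat : ℕ) : ℝ) = (b : ℝ) - (hZ d y : ℝ) := by
      have a3 : (((b - hZ d y).toNat : ℕ) : ℤ) = b - hZ d y :=
        Int.toNat_of_nonneg (by omega)
      have a4 := congrArg (fun z : ℤ => (z : ℝ)) a3
      push_cast at a4
      exact_mod_cast a4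
    rw [a2]
    ring
  have hcard : (U.card : ℝ) = (2 * (N : ℝ) + 1) ^ (Fintype.card s - 1) := by
    have c1 : U.card = (2 * N + 1) ^ (Fintype.card s - 1) := by
      rw [hU, Fintype.card_piFinset]
      have c2 : ∀ i : s, (if i = b₀ then ({0} : Finset ℤ) else Icc (-(N : ℤ)) N).card =
          if i = b₀ then 1 else 2 * N + 1 := by
        intro i
        split_ifs
        · rfl
        · rw [Int.card_Icc]
          omega
      rw [prod_congr rfl fun i _ => c2 i, prod_ite, prod_const_one, one_mul, prod_const]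
      congr 1
      rw [filter_not, card_sdiff_of_subset (filter_subset _ _), card_univ]
      congr 1
      rw [filter_eq', if_pos (mem_univ _), card_singleton]
    rw [c1]
    push_cast
    rfl
  have hgeo : ∑ l ∈ range R, q ^ l ≤ (1 - q)⁻¹ := by
    rw [← tsum_geometric_of_lt_one hq0.le hq1]
    exact (summable_geometric_of_lt_one hq0.le hq1).sum_le_tsum _ (fun _ _ => by positivity)
  have hbL : Real.exp (t * b) ≤ Real.exp (t * L) :=
    Real.exp_le_exp.2 (mul_le_mul_of_nonneg_left (Int.floor_le L) ht.le)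
  calc ∑ y ∈ Z, Real.exp (t * (hZ d y : ℝ)) = ∑ y ∈ Z, Real.exp (t * b) * q ^ (Φ y).2 :=
        sum_congr rfl hval
    _ = ∑ p ∈ Z.image Φ, Real.exp (t * b) * q ^ p.2 :=
        (sum_image (f := fun p : (s → ℤ) × ℕ => Real.exp (t * b) * q ^ p.2) hinj).symm
    _ ≤ ∑ p ∈ U ×ˢ range R, Real.exp (t * b) * q ^ p.2 :=
        sum_le_sum_of_subset_of_nonneg hsub fun _ _ _ => by positivity
    _ = U.card * (Real.exp (t * b) * ∑ l ∈ range R, q ^ l) := by
        rw [sum_product, sum_congr rfl fun u _ => (mul_sum (range R) (fun l => q ^ l)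
          (Real.exp (t * b))).symm, sum_const, nsmul_eq_mul]
    _ ≤ (2 * (N : ℝ) + 1) ^ (Fintype.card s - 1) * (Real.exp (t * L) * (1 - q)⁻¹) := by
        rw [hcard]
        have : 0 < 1 - q := by linarith
        gcongr

/-- the sum over all cells -/
theorem cells {k : ℕ} (hk : 0 < k) (hki : k ≤ Fintype.card ι) (hβ : Function.Surjective β)
    {d : s → ℕ} (hd0 : ∀ b, 0 < d b)
    (hd : ∀ b, k * d b < (univ.filter fun i => β i = b).card * ∑ c, d c) {a A A' : ℝ} (ha : 0 < a)
    (hA : 0 ≤ A) (hA' : 0 ≤ A')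
    (hE : EffC k β fun b => a * d b - k * ((univ.filter fun i => β i = b).card : ℝ)) :
    ∃ C : ℝ, 0 < C ∧ ∀ L : ℝ, 0 ≤ L → ∃ Z : Finset (s → ℤ),
      (∀ y : s → ℤ, y ∈ Z ↔ (∀ f : Fin k → ι, Function.Injective f → -A ≤ ∑ l, (y (β (f l)) : ℝ)) ∧
        ∑ b, (d b : ℝ) * y b ≤ L + A') ∧
      ∑ y ∈ Z, Real.exp (k * ∑ b, ((univ.filter fun i => β i = b).card : ℝ) * y b) ≤
        C * Real.exp (a * L) * (1 + L) ^ (Fintype.card s - 1) := by
  classical
  have hιne : Nonempty ι := Fintype.card_pos_iff.1 (lt_of_lt_of_le hk hki)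
  obtain ⟨i₀⟩ := hιne
  set b₀ := β i₀ with hb₀
  set n : ℝ := ((Fintype.card ι : ℕ) : ℝ) with hn
  have hn0 : 0 ≤ n := Nat.cast_nonneg _
  set D : ℝ := ∑ c, (d c : ℝ) with hD
  have hD0 : 0 ≤ D := sum_nonneg fun _ _ => Nat.cast_nonneg _
  set X : ℝ := ∑ b, (a * d b - k * ((univ.filter fun i => β i = b).card : ℝ)) with hX
  set C₁ : ℝ := (k + n) * (A' + 1 + (D + 1) * A) with hC₁
  have hC₁0 : 0 ≤ C₁ := by positivity
  have hq1 : Real.exp (-a) < 1 := (by rw [← Real.exp_zero]; exact Real.exp_lt_exp.2 (by linarith))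
  have hq2 : 0 < 1 - Real.exp (-a) := by linarith
  refine ⟨Real.exp (X / k * A) * ((2 * C₁ + 3) ^ (Fintype.card s - 1) *
    (Real.exp (a * A') * (1 - Real.exp (-a))⁻¹)), by positivity, fun L hL => ?_⟩
  set P : (s → ℤ) → Prop := fun y =>
    (∀ f : Fin k → ι, Function.Injective f → -A ≤ ∑ l, (y (β (f l)) : ℝ)) ∧
      ∑ b, (d b : ℝ) * y b ≤ L + A' with hP
  have hbound : ∀ y, P y → ∀ b, |(y b : ℝ)| ≤ C₁ * (1 + L) := by
    intro y hy b
    have h1 := coercive hk hki hβ hd0 hd (y := fun b => (y b : ℝ)) hA hy.1 hy.2 b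
    refine h1.trans ?_
    rw [hC₁, mul_assoc]
    refine mul_le_mul_of_nonneg_left ?_ (by positivity)
    have h2 : 0 ≤ (D + 1) * A := by positivity
    nlinarith
  set N : ℕ := ⌈C₁ * (1 + L)⌉₊ with hN
  have hNle : (N : ℝ) ≤ C₁ * (1 + L) + 1 := (Nat.ceil_lt_add_one (by positivity)).le
  have hbN : ∀ y, P y → ∀ b, -(N : ℤ) ≤ y b ∧ y b ≤ N := by
    intro y hy b
    have h1 := hbound y hy b
    have h2 : C₁ * (1 + L) ≤ N := Nat.le_ceil _
    have h3 : |(y b : ℝ)| ≤ N := h1.trans h2
    rw [abs_le] at h3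
    constructor
    · exact_mod_cast h3.1
    · exact_mod_cast h3.2
  set Z : Finset (s → ℤ) := (Fintype.piFinset fun _ : s => Icc (-(N : ℤ)) N).filter P with hZdef
  have hmem : ∀ y, y ∈ Z ↔ P y := by
    intro y
    rw [hZdef, mem_filter, Fintype.mem_piFinset]
    refine ⟨fun h => h.2, fun h => ⟨fun b => ?_, h⟩⟩
    rw [mem_Icc]
    exact hbN y h b
  refine ⟨Z, hmem, ?_⟩
  have h1 : ∀ y ∈ Z, Real.exp (k * ∑ b, ((univ.filter fun i => β i = b).card : ℝ) * y b) ≤
      Real.exp (X / k * A) * Real.exp (a * (hZ d y : ℝ)) := by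
    intro y hy
    have hy' := (hmem y).1 hy
    have h2 := base_ineq hk hki hβ hE (y := fun b => (y b : ℝ)) hy'.1
    rw [← Real.exp_add]
    refine Real.exp_le_exp.2 ?_
    rw [hZ_cast]
    have h3 : ∑ b, (a * d b - k * ((univ.filter fun i => β i = b).card : ℝ)) * (y b : ℝ) =
        a * ∑ b, (d b : ℝ) * y b - k * ∑ b, ((univ.filter fun i => β i = b).card : ℝ) * y b := by
      rw [mul_sum, mul_sum, ← sum_sub_distrib]
      exact sum_congr rfl fun b _ => by ring
    rw [h3] at h2
    linarith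
  calc ∑ y ∈ Z, Real.exp (k * ∑ b, ((univ.filter fun i => β i = b).card : ℝ) * y b)
      ≤ ∑ y ∈ Z, Real.exp (X / k * A) * Real.exp (a * (hZ d y : ℝ)) := sum_le_sum h1
    _ = Real.exp (X / k * A) * ∑ y ∈ Z, Real.exp (a * (hZ d y : ℝ)) := (mul_sum _ _ _).symm
    _ ≤ Real.exp (X / k * A) * ((2 * (N : ℝ) + 1) ^ (Fintype.card s - 1) *
        (Real.exp (a * (L + A')) * (1 - Real.exp (-a))⁻¹)) := by
        refine mul_le_mul_of_nonneg_left (sum_le hd0 b₀ ha N Z (fun y hy => ?_) fun y hy =>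
          hbN y ((hmem y).1 hy)) (Real.exp_pos _).le
        rw [hZ_cast]
        exact ((hmem y).1 hy).2
    _ ≤ Real.exp (X / k * A) * (((2 * C₁ + 3) * (1 + L)) ^ (Fintype.card s - 1) *
        (Real.exp (a * (L + A')) * (1 - Real.exp (-a))⁻¹)) := by
        have h4 : 2 * (N : ℝ) + 1 ≤ (2 * C₁ + 3) * (1 + L) := by nlinarith
        gcongr
    _ = _ := by
        rw [mul_pow, mul_add, Real.exp_add]
        ring

end

end Run7.h3.GT
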