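import Pool.Agent.Run7.h3.GT.Fnt

set_option autoImplicit false
set_option linter.unusedSectionVars false
set_option linter.unusedVariables false

/-! The optimal ideals, and nearly generating systems. -/

namespace Run7.h3.GT

open Finset Module NumberField FractionalIdeal
open scoped nonZeroDivisors

section

variable {F : Type} [Field F] [NumberField F] {k : ℕ} {ι s : Type} [Fintype ι] [DecidableEq ι]
  [Fintype s] [DecidableEq s] {β : ι → s} {d : s → ℕ}

theorem le_one_pow {P : Ideal (𝓞 F)} (n : ℕ) : (P : FI F) ^ n ≤ 1 := by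
  rw [← coeIdeal_pow]
  exact coeIdeal_le_one

theorem cnt_ne_zero {V : Matrix (Fin k) ι F} {a : s → FI F} (ha : ∀ b, a b ≠ 0) {f : Fin k → ι}
    (hf : mnr V f ≠ 0) : cnt β V a ≠ 0 := by
  intro h
  have h1 := le_cnt (β := β) V ha f
  rw [h, zero_mul, FractionalIdeal.le_zero_iff] at h1
  exact sp_ne_zero hf h1

theorem ff_ne_zero {N : ℕ} {V : Matrix (Fin k) ι F} {a : s → FI F} (ha : ∀ b, a b ≠ 0)
    {f : Fin k → ι} (hf : mnr V f ≠ 0) : ff β d N V a ≠ 0 :=
  mul_ne_zero (pow_ne_zero _ (cnt_ne_zero ha hf)) (prod_ne_zero_iff.2 fun b _ => pow_ne_zero _ (ha b))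

theorem hh_ne_zero [Fintype (Mon k β d)] {V : Matrix (Fin k) ι F} {m : Mon k β d}
    (hm : mono V m ≠ 0) : hh (β := β) (d := d) V ≠ 0 := by
  intro h
  have h1 : sp (mono V m) ≤ hh (β := β) (d := d) V :=
    le_sum_FI univ (A := fun m : Mon k β d => sp (mono V m)) (mem_univ m)
  rw [h, FractionalIdeal.le_zero_iff] at h1
  exact sp_ne_zero hm h1

theorem exists_opt [Fintype (Mon k β d)] {N : ℕ} (hk : 0 < k) (hki : k ≤ Fintype.card ι)
    (hd : ∑ b, d b = k * N) (V : Matrix (Fin k) ι F) (hV : Gen V)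
    (hm : ∃ m : Mon k β d, mono V m ≠ 0) :
    ∃ a : s → FI F, (∀ b, a b ≠ 0) ∧ hh (β := β) (d := d) V = ff β d N V a := by
  classical
  obtain ⟨m, hm⟩ := hm
  obtain ⟨e⟩ := Function.Embedding.nonempty_of_card_le (α := Fin k) (β := ι) (by simpa using hki)
  have hV1 : mnr V e ≠ 0 := hV _ e.injective
  have hh0 : hh (β := β) (d := d) V ≠ 0 := hh_ne_zero hm
  set T : Set ℕ := {n | ∃ a : s → FI F, (∀ b, a b ≠ 0) ∧ ∃ g : Ideal (𝓞 F),
    hh (β := β) (d := d) V = (g : FI F) * ff β d N V a ∧ Ideal.absNorm g = n} with hT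
  have hex : ∀ a : s → FI F, (∀ b, a b ≠ 0) → ∃ g : Ideal (𝓞 F),
      hh (β := β) (d := d) V = (g : FI F) * ff β d N V a := by
    intro a ha
    have h0 := ff_ne_zero (β := β) (d := d) (N := N) ha hV1
    have h1 : hh (β := β) (d := d) V * (ff β d N V a)⁻¹ ≤ 1 := by
      have := mul_le_mul' (hh_le (β := β) hk hd V ha) (le_refl (ff β d N V a)⁻¹)
      rwa [mul_inv_cancel₀ h0] at this
    obtain ⟨g, hg⟩ := le_one_iff_exists_coeIdeal.1 h1
    refine ⟨g, ?_⟩
    rw [hg, mul_assoc, inv_mul_cancel₀ h0, mul_one]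
  have hTne : T.Nonempty := by
    obtain ⟨g, hg⟩ := hex (fun _ => 1) fun _ => one_ne_zero
    exact ⟨_, fun _ => 1, fun _ => one_ne_zero, g, hg, rfl⟩
  obtain ⟨a, ha, g, hg, hgn⟩ := Nat.sInf_mem hTne
  refine ⟨a, ha, ?_⟩
  have hg0 : g ≠ ⊥ := by
    rintro rfl
    rw [coeIdeal_bot, zero_mul] at hg
    exact hh0 hg
  by_cases hgt : g = ⊤
  · rw [hg, hgt, coeIdeal_top, one_mul]
  exfalso
  obtain ⟨P, hPm, hgP⟩ := Ideal.exists_le_maximal g hgt
  have hP : P ≠ ⊥ := by
    rintro rfl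
    exact hg0 (le_bot_iff.1 hgP)
  have hP0 : (P : FI F) ≠ 0 := coeIdeal_ne_zero.2 hP
  have hle : hh (β := β) (d := d) V ≤ (P : FI F) * ff β d N V a := by
    rw [hg]
    exact mul_le_mul' ((coeIdeal_le_coeIdeal F).2 hgP) le_rfl
  obtain ⟨A, r, hAr, hbound⟩ := g2 (β := β) hk hki hd hP V hV ha hle
  set a' : s → FI F := fun b => (if b ∈ A then (P : FI F) else 1) * a b with ha'
  have ha'0 : ∀ b, a' b ≠ 0 := by
    intro b
    simp only [ha']
    split_ifs
    · exact mul_ne_zero hP0 (ha b)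
    · rw [one_mul]
      exact ha b
  have hwt : ∀ f : Fin k → ι, wt β a' f = (P : FI F) ^ dA β f A * wt β a f := by
    intro f
    rw [ha', wt_mul]
    congr 1
    unfold wt
    rw [dA_eq, prod_ite, prod_const_one, mul_one, prod_const]
  have hcnt : (P : FI F) ^ r * cnt β V a' ≤ cnt β V a := by
    unfold cnt
    rw [mul_sum]
    refine sum_le_FI _ fun f _ => ?_
    rw [hwt]
    have h1 := hbound f
    have hw0 := wt_ne_zero (β := β) ha f
    have hPd : (P : FI F) ^ dA β f A ≠ 0 := pow_ne_zero _ hP0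
    have h2 := mul_le_mul' (le_refl ((P : FI F) ^ r))
      (mul_le_mul' h1 (le_refl ((P : FI F) ^ dA β f A * wt β a f)⁻¹))
    refine h2.trans ?_
    have h3 : (P : FI F) ^ r * ((P : FI F) ^ (dA β f A - r) * (cnt β V a * wt β a f) *
        ((P : FI F) ^ dA β f A * wt β a f)⁻¹) =
        ((P : FI F) ^ (r + (dA β f A - r)) * ((P : FI F) ^ dA β f A)⁻¹) * cnt β V a := by
      rw [pow_add]
      field_simp
    rw [h3]
    have h4 : (P : FI F) ^ (r + (dA β f A - r)) ≤ (P : FI F) ^ dA β f A := by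
      have h5 : dA β f A ≤ r + (dA β f A - r) := by omega
      obtain ⟨c, hc⟩ := Nat.exists_eq_add_of_le h5
      rw [hc, pow_add]
      exact (mul_le_mul' le_rfl (le_one_pow c)).trans (by rw [mul_one])
    have h6 := mul_le_mul' h4 (le_refl ((P : FI F) ^ dA β f A)⁻¹)
    rw [mul_inv_cancel₀ hPd] at h6
    exact (mul_le_mul' h6 le_rfl).trans (by rw [one_mul]; exact le_rfl)
  have hff : ff β d N V a' ≤ (P : FI F) * ff β d N V a := by
    unfold ff
    have h1 : ∏ b, a' b ^ d b = (P : FI F) ^ (∑ b ∈ A, d b) * ∏ b, a b ^ d b := by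
      simp only [ha', mul_pow]
      rw [prod_mul_distrib]
      congr 1
      have h2 : ∀ b, (if b ∈ A then (P : FI F) else 1) ^ d b =
          if b ∈ A then (P : FI F) ^ d b else 1 := by
        intro b
        split_ifs
        · rfl
        · rw [one_pow]
      rw [prod_congr rfl fun b _ => h2 b, prod_ite_mem, univ_inter, prod_pow_eq_pow_sum]
    rw [h1]
    obtain ⟨c, hc⟩ := Nat.exists_eq_add_of_lt hAr
    rw [hc]
    have h2 : ((P : FI F) ^ r * cnt β V a') ^ N ≤ cnt β V a ^ N := pow_le_pow_left' hcnt N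
    calc cnt β V a' ^ N * ((P : FI F) ^ (N * r + c + 1) * ∏ b, a b ^ d b)
        = (P : FI F) * (((P : FI F) ^ r * cnt β V a') ^ N * ((P : FI F) ^ c * ∏ b, a b ^ d b)) := by
          rw [mul_pow, ← pow_mul, pow_add, pow_add, pow_one, mul_comm r N]
          ring
      _ ≤ (P : FI F) * (cnt β V a ^ N * (1 * ∏ b, a b ^ d b)) :=
          mul_le_mul' le_rfl (mul_le_mul' h2 (mul_le_mul' (le_one_pow c) le_rfl))
      _ = _ := by rw [one_mul]
  obtain ⟨g', hg'⟩ := hex a' ha'0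
  have hff0 := ff_ne_zero (β := β) (d := d) (N := N) ha hV1
  -- the factor
  have h1 : ff β d N V a' * ((P : FI F) * ff β d N V a)⁻¹ ≤ 1 := by
    have h2 := mul_le_mul' hff (le_refl ((P : FI F) * ff β d N V a)⁻¹)
    rwa [mul_inv_cancel₀ (mul_ne_zero hP0 hff0)] at h2
  obtain ⟨q, hq⟩ := le_one_iff_exists_coeIdeal.1 h1
  have h2 : ff β d N V a' = (q : FI F) * ((P : FI F) * ff β d N V a) := by
    rw [hq, mul_assoc, inv_mul_cancel₀ (mul_ne_zero hP0 hff0), mul_one]
  have h3 : g = g' * (q * P) := by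
    have h4 : (g : FI F) * ff β d N V a = ((g' * (q * P) : Ideal (𝓞 F)) : FI F) * ff β d N V a := by
      rw [← hg, hg', h2, coeIdeal_mul, coeIdeal_mul]
      ring
    exact coeIdeal_injective (mul_right_cancel₀ hff0 h4)
  have h4 : Ideal.absNorm g' < Ideal.absNorm g := by
    rw [h3, map_mul, map_mul]
    have e1 : Ideal.absNorm g' ≠ 0 := by
      rw [Ne, Ideal.absNorm_eq_zero_iff]
      rintro rfl
      rw [coeIdeal_bot, zero_mul] at hg'
      exact hh0 hg'
    have e2 : Ideal.absNorm q ≠ 0 := by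
      rw [Ne, Ideal.absNorm_eq_zero_iff]
      rintro rfl
      rw [coeIdeal_bot, zero_mul] at h2
      exact ff_ne_zero (β := β) (d := d) (N := N) ha'0 hV1 h2
    have e3 : 1 < Ideal.absNorm P := by
      have h5 : Ideal.absNorm P ≠ 0 := by
        rw [Ne, Ideal.absNorm_eq_zero_iff]
        exact hP
      have h6 : Ideal.absNorm P ≠ 1 := by
        rw [Ne, Ideal.absNorm_eq_one_iff]
        exact hPm.ne_top
      omega
    have e4 : 1 < Ideal.absNorm q * Ideal.absNorm P := by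
      have : 1 ≤ Ideal.absNorm q := Nat.one_le_iff_ne_zero.2 e2
      nlinarith
    have e5 : 1 ≤ Ideal.absNorm g' := Nat.one_le_iff_ne_zero.2 e1
    nlinarith
  have h5 : sInf T ≤ Ideal.absNorm g' := Nat.sInf_le ⟨a', ha'0, g', hg', rfl⟩
  omega

/-- nearly generating systems have bounded content -/
theorem g3 (hki : k ≤ Fintype.card ι) (B : Matrix (Fin k) ι F) (hB : Gen B) {a : s → FI F}
    (ha : ∀ b, a b ≠ 0) (D : ℕ) (hD : 0 < D)
    (hgen : ∀ x : ι → F, (∀ i, x i ∈ a (β i)) → (∃ c : Fin k → F, x = ∑ j, c j • B j) →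
      ∃ c : Fin k → 𝓞 F, (D : F) • x = ∑ j, (c j : F) • B j) :
    sp ((D : F) ^ k) ≤ cnt β B a := by
  classical
  refine le_of_LL fun P hPm => ?_
  have hP : P ≠ ⊥ := Ring.ne_bot_of_isMaximal_of_not_isField hPm (RingOfIntegers.not_isField F)
  obtain ⟨τ, hτ0, hτ1, hτ2, f₀, hf₀, hmax⟩ := xlem (β := β) hP hki B ha
  have hB0 : mnr B f₀ ≠ 0 := hB f₀ hf₀
  have hw : wt β τ f₀ ≠ 0 := prod_ne_zero_iff.2 fun _ _ => hτ0 _
  set y : F := mnr B f₀ / wt β τ f₀ with hy
  -- a common multiplier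
  obtain ⟨r, hr, hru⟩ := common (P := P) (α := Fin k × ι)
    (p := fun p r => (r : F) * (τ (β (f₀ p.1)) * nf B f₀ p.1 p.2) ∈ a (β p.2))
    (fun p => by
      have h1 := (x3 hτ0 hB0 hmax p.1 p.2).mul (hτ1 (β p.2))
      rw [one_mul, ← sp_mul, div_mul_cancel₀ _ (hτ0 _)] at h1
      obtain ⟨r, hr, h2⟩ := h1
      exact ⟨r, hr, by rw [← sp_le, sp_mul]; exact h2⟩) (fun p r t hu => by
      rw [cmul]
      have h1 : (r : F) * t * (τ (β (f₀ p.1)) * nf B f₀ p.1 p.2) =
        (t : F) * ((r : F) * (τ (β (f₀ p.1)) * nf B f₀ p.1 p.2)) := by ring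
      rw [h1]
      have h2 := (a (β p.2) : Submodule (𝓞 F) F).smul_mem t hu
      rwa [csmul] at h2)
  have hx : ∀ j : Fin k, ∃ c : Fin k → 𝓞 F,
      (D : F) • (fun i => (r : F) * (τ (β (f₀ j)) * nf B f₀ j i)) = ∑ l, (c l : F) • B l := by
    intro j
    refine hgen _ (fun i => hru (j, i)) ⟨fun l => (r : F) * τ (β (f₀ j)) *
      (B.submatrix id f₀)⁻¹ j l, ?_⟩
    funext i
    rw [Finset.sum_apply]
    simp only [Pi.smul_apply, smul_eq_mul, nf, Matrix.mul_apply, mul_sum]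
    refine sum_congr rfl fun l _ => ?_
    ring
  choose C hC using hx
  set g : Matrix (Fin k) (Fin k) F := Matrix.diagonal fun j => (D : F) * ((r : F) * τ (β (f₀ j)))
    with hg
  have hmat : g = (Matrix.of C).map (algebraMap (𝓞 F) F) * B.submatrix id f₀ := by
    ext j l
    have h1 := congrFun (hC j) (f₀ l)
    rw [Finset.sum_apply] at h1
    simp only [Pi.smul_apply, smul_eq_mul] at h1
    have h2 : nf B f₀ j (f₀ l) = (1 : Matrix (Fin k) (Fin k) F) j l := by
      have h3 : (nf B f₀).submatrix id f₀ = 1 := by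
        have h4 : (nf B f₀).submatrix id f₀ = (B.submatrix id f₀)⁻¹ * B.submatrix id f₀ := rfl
        rw [h4, Matrix.nonsing_inv_mul _ (isUnit_iff_ne_zero.2 hB0)]
      rw [← h3]
      rfl
    rw [h2] at h1
    rw [Matrix.mul_apply]
    simp only [Matrix.map_apply, Matrix.of_apply, Matrix.submatrix_apply, id]
    rw [← h1, hg]
    by_cases hjl : j = l
    · subst hjl
      rw [Matrix.diagonal_apply_eq, Matrix.one_apply_eq]
      ring
    · rw [Matrix.diagonal_apply_ne _ hjl, Matrix.one_apply_ne hjl]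
      ring
  have hdet := congrArg Matrix.det hmat
  rw [Matrix.det_mul, hg, Matrix.det_diagonal] at hdet
  have h1 : ∏ j : Fin k, (D : F) * ((r : F) * τ (β (f₀ j))) =
      ((r : F) ^ k * (D : F) ^ k) * wt β τ f₀ := by
    rw [prod_mul_distrib, prod_mul_distrib, prod_const, prod_const, card_univ, Fintype.card_fin]
    unfold wt
    ring
  have h2 : ((Matrix.of C).map (algebraMap (𝓞 F) F)).det = ((Matrix.of C).det : F) :=
    (RingHom.map_det (algebraMap (𝓞 F) F) (Matrix.of C)).symm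
  rw [h1, h2] at hdet
  have h3 : (r : F) ^ k * (D : F) ^ k = ((Matrix.of C).det : F) * y := by
    rw [hy]
    have h4 : (B.submatrix id f₀).det = mnr B f₀ := rfl
    rw [h4] at hdet
    field_simp
    linear_combination hdet
  have h4 : LL P (sp ((D : F) ^ k)) (sp y) := by
    refine ⟨r ^ k, fun hcon => hr (hPm.isPrime.mem_of_pow_mem k hcon), ?_⟩
    have h5 : ((r ^ k : 𝓞 F) : F) = (r : F) ^ k := map_pow (algebraMap (𝓞 F) F) r _
    rw [h5, ← sp_mul, h3, sp_mul]
    exact (mul_le_mul' (sp_int_le _) le_rfl).trans (by rw [one_mul])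
  exact h4.trans (x2 (β := β) (V := B) ha hτ0 hτ2 f₀)

end

end Run7.h3.GT
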