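import Pool.Agent.Run7.h3.GT.Plk

set_option autoImplicit false
set_option linter.unusedSectionVars false
set_option linter.unusedVariables false

/-! Reduction theory: short, nearly generating systems of vectors. -/

namespace Run7.h3.GT

open Finset Module NumberField Submodule

section

/-- rows are independent if a maximal minor is nonzero -/
theorem rows_indep {K : Type} [Field K] {k : ℕ} {ι : Type} [Fintype ι] (V : Matrix (Fin k) ι K)
    (f : Fin k → ι) (h : mnr V f ≠ 0) : LinearIndependent K (fun j => V j) := by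
  have h2 : IsUnit (V.submatrix id f) :=
    (Matrix.isUnit_iff_isUnit_det _).2 (isUnit_iff_ne_zero.2 h)
  have h3 : LinearIndependent K (V.submatrix id f).row :=
    Matrix.linearIndependent_rows_iff_isUnit.2 h2
  exact LinearIndependent.of_comp (LinearMap.funLeft K K f) h3

theorem red (F : Type) [Field F] [NumberField F] (k : ℕ) : ∃ C : ℝ, 0 < C ∧ ∃ D : ℕ, 0 < D ∧
    ∀ (ι : Type) [Fintype ι] [Nonempty ι] (θ : ι → ℝ), (∀ i, 0 < θ i) →
    ∀ (M : Submodule (𝓞 F) (ι → F)), (∃ c : ℝ, 0 < c ∧ ∀ x ∈ M, x ≠ 0 → c ≤ nrm θ x) →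
    finrank F (span F (M : Set (ι → F))) = k →
    ∃ B : Matrix (Fin k) ι F, (∀ j, B j ∈ M) ∧ (∃ f, mnr B f ≠ 0) ∧
      (∀ x ∈ M, ∃ a : Fin k → 𝓞 F, (D : F) • x = ∑ j, (a j : F) • B j) ∧
      ∏ j, nrm θ (B j) ^ finrank ℚ F ≤ C * ∏ w, Pl θ B w ^ w.mult := by
  classical
  obtain ⟨C₁, hC₁, h1⟩ := exists_seq F k
  obtain ⟨D, hD, h2⟩ := near_gen F k
  obtain ⟨C₂, hC₂, h3⟩ := plk F k
  refine ⟨(∏ i : Fin k, C₁ ^ finrank ℚ F) * C₂, by positivity, D, hD, ?_⟩
  intro ι _ _ θ hθ M hM hfin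
  obtain ⟨b, hG, hb⟩ := h1 ι θ hθ M hM hfin.ge
  obtain ⟨⟨f, hf⟩, hprod⟩ := h3 ι θ hθ M b hG
  refine ⟨rows b k, fun j => (hG j j.2).1, ⟨f, hf⟩, ?_, ?_⟩
  · have hle : Sb b k ≤ span F (M : Set (ι → F)) := by
      refine span_le.2 ?_
      rintro _ ⟨i, hi, rfl⟩
      exact subset_span (hG i hi).1
    have hind := rows_indep (rows b k) f hf
    have hspan : span F (Set.range fun j => rows b k j) = Sb b k := by
      unfold Sb
      congr 1
      ext x
      constructor
      · rintro ⟨j, rfl⟩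
        exact ⟨j, j.2, rfl⟩
      · rintro ⟨i, hi, rfl⟩
        exact ⟨⟨i, hi⟩, rfl⟩
    have hcard : finrank F (Sb b k) = k := by
      rw [← hspan, finrank_span_eq_card hind, Fintype.card_fin]
    have heq : Sb b k = span F (M : Set (ι → F)) :=
      Submodule.eq_of_le_of_finrank_eq hle (by rw [hcard, hfin])
    intro x hx
    obtain ⟨a, ha⟩ := h2 ι θ hθ M b hG x hx (by rw [heq]; exact subset_span hx)
    refine ⟨fun j => a j, ?_⟩
    rw [ha, Finset.sum_range]
    rfl
  · have h4 : ∏ j : Fin k, nrm θ (rows b k j) ^ finrank ℚ F ≤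
        ∏ j : Fin k, (C₁ ^ finrank ℚ F * qn θ (Sb b j) (b j) ^ finrank ℚ F) := by
      refine prod_le_prod (fun j _ => pow_nonneg (nrm_nonneg hθ _) _) fun j _ => ?_
      rw [← mul_pow]
      exact pow_le_pow_left₀ (nrm_nonneg hθ _) (hb j j.2) _
    refine h4.trans ?_
    rw [prod_mul_distrib, mul_assoc]
    refine mul_le_mul_of_nonneg_left ?_ (by positivity)
    rw [Finset.prod_range] at hprod
    exact hprod

end

end Run7.h3.GT
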