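import Pool.Agent.Run7.h3.GT.Ht
import Pool.Agent.Run7.h3.GT.Opt
import Pool.Agent.Run7.h3.GT.Red
import Pool.Agent.Run7.h3.GT.Arch

set_option autoImplicit false
set_option linter.unusedSectionVars false
set_option linter.unusedVariables false

/-! Balancing by elements of an ideal; lattices in the row space. -/

namespace Run7.h3.GT

open Finset Module NumberField FractionalIdeal
open scoped nonZeroDivisors

section

/-- balancing -/
theorem tlem (F : Type) [Field F] [NumberField F] : ∃ C : ℝ, 1 ≤ C ∧ ∃ D : ℕ, 0 < D ∧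
    ∀ (I : FI F), I ≠ 0 → ∀ (Λ : InfinitePlace F → ℝ) (lam : ℝ), (∀ w, 0 < Λ w) → 0 < lam →
    lam ^ finrank ℚ F = (∏ w, Λ w ^ w.mult) / nm I →
    ∃ t : F, t ≠ 0 ∧ (∀ w : InfinitePlace F, w t ≤ C * (Λ w / lam) ∧ Λ w / lam ≤ C * w t) ∧
      sp t ≤ I ∧ ∀ x ∈ I * (sp t)⁻¹, ∃ y : 𝓞 F, (D : F) * x = (y : F) := by
  classical
  obtain ⟨C₀, hC₀, hm⟩ := mink F
  set n := finrank ℚ F with hn
  set C₁ : ℝ := max C₀ 1 with hC₁
  have hC₁1 : 1 ≤ C₁ := le_max_right _ _
  have hC₀₁ : C₀ ≤ C₁ := le_max_left _ _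
  refine ⟨C₁ ^ (n + 1), one_le_pow₀ hC₁1, (⌊C₁ ^ n⌋₊).factorial, Nat.factorial_pos _, ?_⟩
  intro I hI Λ lam hΛ hlam hlamI
  have hnI : 0 < nm I := nm_pos hI
  obtain ⟨t, htI, ht0, htw⟩ := hm (Units.mk0 I hI) (fun w => Λ w / lam)
    (fun w => div_pos (hΛ w) hlam) (by
      simp only [div_pow]
      rw [prod_div_distrib, prod_pow_eq_pow_sum, InfinitePlace.sum_mult_eq, ← hn, hlamI]
      have h1 : 0 < ∏ w, Λ w ^ w.mult := prod_pos fun w _ => pow_pos (hΛ w) _
      rw [div_div_cancel₀ h1.ne']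
      rfl)
  rw [Units.val_mk0] at htI
  have hspt : sp t ≤ I := sp_le.2 htI
  have hspt0 := sp_ne_zero ht0
  -- the ratios
  set r : InfinitePlace F → ℝ := fun w => w t / (Λ w / lam) with hr
  have hL : ∀ w, 0 < Λ w / lam := fun w => div_pos (hΛ w) hlam
  have hr0 : ∀ w, 0 < r w := fun w => div_pos (w.pos_iff.2 ht0) (hL w)
  have hrC : ∀ w, r w ≤ C₁ := fun w => by
    rw [hr]
    simp only
    rw [div_le_iff₀ (hL w)]
    exact (htw w).trans (mul_le_mul_of_nonneg_right hC₀₁ (hL w).le)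
  have hprodL : ∏ w, (Λ w / lam) ^ w.mult = nm I := by
    simp only [div_pow]
    rw [prod_div_distrib, prod_pow_eq_pow_sum, InfinitePlace.sum_mult_eq, ← hn, hlamI]
    have h1 : 0 < ∏ w, Λ w ^ w.mult := prod_pos fun w _ => pow_pos (hΛ w) _
    rw [div_div_cancel₀ h1.ne']
  have hprodr : ∏ w, r w ^ w.mult = nm (sp t) / nm I := by
    rw [nm_sp, ← hprodL, ← prod_div_distrib]
    refine prod_congr rfl fun w _ => ?_
    rw [hr, div_pow]
  have hge : 1 ≤ ∏ w, r w ^ w.mult := by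
    rw [hprodr, one_le_div hnI]
    exact nm_le hspt0 hspt
  have hlow : ∀ w, 1 ≤ C₁ ^ n * r w := by
    intro w
    by_contra hcon
    push Not at hcon
    have h1 : r w ≤ 1 := by
      have h2 : (1 : ℝ) ≤ C₁ ^ n := one_le_pow₀ hC₁1
      have := hr0 w
      nlinarith
    have h2 : r w ^ w.mult ≤ r w := by
      have := InfinitePlace.mult_ne_zero (w := w)
      exact pow_le_of_le_one (hr0 w).le h1 this
    have h3 : ∏ v ∈ univ.erase w, r v ^ v.mult ≤ C₁ ^ n := by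
      calc ∏ v ∈ univ.erase w, r v ^ v.mult ≤ ∏ v ∈ univ.erase w, C₁ ^ v.mult :=
            prod_le_prod (fun v _ => pow_nonneg (hr0 v).le _)
              fun v _ => pow_le_pow_left₀ (hr0 v).le (hrC v) _
        _ = C₁ ^ (∑ v ∈ univ.erase w, v.mult) := prod_pow_eq_pow_sum _ _ _
        _ ≤ C₁ ^ n := by
            refine pow_le_pow_right₀ hC₁1 ?_
            rw [hn, ← InfinitePlace.sum_mult_eq]
            exact sum_le_sum_of_subset (erase_subset _ _)
    rw [← mul_prod_erase univ _ (mem_univ w)] at hge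
    have h4 : 0 < r w ^ w.mult := pow_pos (hr0 w) _
    have h5 : r w ^ w.mult * ∏ v ∈ univ.erase w, r v ^ v.mult ≤ r w * C₁ ^ n :=
      mul_le_mul h2 h3 (prod_nonneg fun v _ => pow_nonneg (hr0 v).le _) (hr0 w).le
    linarith
  refine ⟨t, ht0, fun w => ⟨?_, ?_⟩, hspt, ?_⟩
  · refine (htw w).trans (mul_le_mul_of_nonneg_right ?_ (hL w).le)
    exact hC₀₁.trans (le_self_pow₀ hC₁1 (Nat.succ_ne_zero n))
  · have h1 := hlow w
    have h2 : Λ w / lam ≤ C₁ ^ n * r w * (Λ w / lam) := le_mul_of_one_le_left (hL w).le h1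
    have h3 : C₁ ^ n * r w * (Λ w / lam) = C₁ ^ n * w t := by
      rw [hr]
      simp only
      rw [mul_assoc, div_mul_cancel₀ _ (hL w).ne']
    rw [h3] at h2
    refine h2.trans (mul_le_mul_of_nonneg_right ?_ (apply_nonneg w _))
    exact pow_le_pow_right₀ hC₁1 (Nat.le_succ n)
  · -- the integral ideal
    have h1 : sp t * I⁻¹ ≤ 1 := by
      have := mul_le_mul' hspt (le_refl I⁻¹)
      rwa [mul_inv_cancel₀ hI] at this
    obtain ⟨q, hq⟩ := le_one_iff_exists_coeIdeal.1 h1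
    have hqn : (Ideal.absNorm q : ℝ) ≤ C₁ ^ n := by
      rw [← nm_coe, hq, nm_mul]
      have h2 : nm (sp t) * nm I⁻¹ = nm (sp t) / nm I := by
        have h3 : nm I⁻¹ = (nm I)⁻¹ := by
          have h4 : nm I * nm I⁻¹ = 1 := by rw [← nm_mul, mul_inv_cancel₀ hI, nm_one]
          exact eq_inv_of_mul_eq_one_right h4
        rw [h3, div_eq_mul_inv]
      rw [h2, ← hprodr]
      calc ∏ v, r v ^ v.mult ≤ ∏ v : InfinitePlace F, C₁ ^ v.mult :=
            prod_le_prod (fun v _ => pow_nonneg (hr0 v).le _)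
              fun v _ => pow_le_pow_left₀ (hr0 v).le (hrC v) _
        _ = C₁ ^ n := by rw [prod_pow_eq_pow_sum, InfinitePlace.sum_mult_eq]
    have hq0 : Ideal.absNorm q ≠ 0 := by
      rw [Ne, Ideal.absNorm_eq_zero_iff]
      rintro rfl
      rw [coeIdeal_bot] at hq
      exact mul_ne_zero hspt0 (inv_ne_zero hI) hq.symm
    have hdvd : Ideal.absNorm q ∣ (⌊C₁ ^ n⌋₊).factorial :=
      Nat.dvd_factorial (Nat.pos_of_ne_zero hq0) (Nat.le_floor hqn)
    have hmem : (((⌊C₁ ^ n⌋₊).factorial : ℕ) : 𝓞 F) ∈ q := by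
      obtain ⟨c, hc⟩ := hdvd
      rw [hc]
      push_cast
      exact q.mul_mem_right _ (Ideal.absNorm_mem q)
    intro x hx
    have h2 : sp ((((⌊C₁ ^ n⌋₊).factorial : ℕ) : 𝓞 F) : F) * sp x ≤ 1 := by
      have h3 : sp ((((⌊C₁ ^ n⌋₊).factorial : ℕ) : 𝓞 F) : F) ≤ (q : FI F) := by
        rw [sp_int, coeIdeal_le_coeIdeal, Ideal.span_singleton_le_iff_mem]
        exact hmem
      have h4 := mul_le_mul' h3 (sp_le.2 hx)
      rw [hq] at h4
      have h5 : sp t * I⁻¹ * (I * (sp t)⁻¹) = 1 := by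
        field_simp
      rwa [h5] at h4
    rw [← sp_mul, sp_le, mem_one_iff] at h2
    obtain ⟨y, hy⟩ := h2
    refine ⟨y, ?_⟩
    have h6 : ((((⌊C₁ ^ n⌋₊).factorial : ℕ) : 𝓞 F) : F) = (((⌊C₁ ^ n⌋₊).factorial : ℕ) : F) :=
      map_natCast (algebraMap (𝓞 F) F) _
    rw [h6] at hy
    exact hy.symm

variable {F : Type} [Field F] [NumberField F] {k : ℕ} {ι s : Type} [Fintype ι] [DecidableEq ι]
  [Fintype s] [DecidableEq s] {β : ι → s} {d : s → ℕ}

/-- nonzero algebraic integers are large at some place -/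
theorem exists_one_le (y : 𝓞 F) (hy : y ≠ 0) : ∃ w : InfinitePlace F, 1 ≤ w (y : F) := by
  by_contra hcon
  push Not at hcon
  have hy' : (y : F) ≠ 0 := fun h => hy (RingOfIntegers.ext h)
  have h1 : ∏ w : InfinitePlace F, w (y : F) ^ w.mult < 1 := by
    obtain ⟨w₀⟩ : Nonempty (InfinitePlace F) := inferInstance
    have h2 : ∏ w : InfinitePlace F, w (y : F) ^ w.mult < ∏ w : InfinitePlace F, (1 : ℝ) :=
      prod_lt_prod_of_nonempty (fun w _ => pow_pos (w.pos_iff.2 hy') _)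
        (fun w _ => pow_lt_one₀ (apply_nonneg w _) (hcon w) InfinitePlace.mult_ne_zero)
        ⟨w₀, mem_univ _⟩
    rwa [prod_const_one] at h2
  have h2 : 1 ≤ nm (sp (y : F)) := by
    rw [sp_int, nm_coe]
    have : Ideal.absNorm (Ideal.span {y}) ≠ 0 := by
      rw [Ne, Ideal.absNorm_eq_zero_iff, Ideal.span_singleton_eq_bot]
      exact hy
    exact_mod_cast Nat.one_le_iff_ne_zero.2 this
  rw [nm_sp] at h2
  linarith

theorem smO (a : 𝓞 F) (x : ι → F) : a • x = (a : F) • x := (algebraMap_smul F a x).symm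

/-- the lattice of the vectors of the row space with entries in given ideals -/
def lat (V : Matrix (Fin k) ι F) (a : ι → FI F) : Submodule (𝓞 F) (ι → F) where
  carrier := {x | (∀ i, x i ∈ a i) ∧ ∃ c : Fin k → F, x = ∑ j, c j • V j}
  add_mem' := by
    rintro x y ⟨hx, c, rfl⟩ ⟨hy, c', rfl⟩
    refine ⟨fun i => (a i : Submodule (𝓞 F) F).add_mem (hx i) (hy i), c + c', ?_⟩
    simp only [Pi.add_apply, add_smul, sum_add_distrib]
  zero_mem' := ⟨fun i => (a i : Submodule (𝓞 F) F).zero_mem, 0, by simp⟩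
  smul_mem' := by
    rintro r x ⟨hx, c, rfl⟩
    refine ⟨fun i => (a i : Submodule (𝓞 F) F).smul_mem r (hx i), (r : F) • c, ?_⟩
    rw [smO, smul_sum]
    refine sum_congr rfl fun j _ => ?_
    rw [smul_smul]
    rfl

theorem mem_lat {V : Matrix (Fin k) ι F} {a : ι → FI F} {x : ι → F} :
    x ∈ lat V a ↔ (∀ i, x i ∈ a i) ∧ ∃ c : Fin k → F, x = ∑ j, c j • V j := Iff.rfl

theorem lat_low [Nonempty ι] {V : Matrix (Fin k) ι F} {a : ι → FI F} {D : ℕ} (hD : 0 < D)
    (ha : ∀ i, ∀ x ∈ a i, ∃ y : 𝓞 F, (D : F) * x = (y : F)) {θ : ι → ℝ} (hθ : ∀ i, 0 < θ i) :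
    ∃ c : ℝ, 0 < c ∧ ∀ x ∈ lat V a, x ≠ 0 → c ≤ nrm θ x := by
  have hD0 : (0 : ℝ) < D := by exact_mod_cast hD
  have hS : 0 < ∑ i, θ i := sum_pos (fun i _ => hθ i) univ_nonempty
  refine ⟨1 / (D * ∑ i, θ i), by positivity, fun x hx hx0 => ?_⟩
  obtain ⟨i, hi⟩ := Function.ne_iff.1 hx0
  obtain ⟨y, hy⟩ := ha i (x i) (hx.1 i)
  have hDF : (D : F) ≠ 0 := by exact_mod_cast hD.ne'
  have hy0 : y ≠ 0 := by
    rintro rfl
    rw [czero] at hy
    exact (mul_ne_zero hDF hi) hy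
  obtain ⟨w, hw⟩ := exists_one_le y hy0
  rw [← hy, map_mul] at hw
  have h1 := place_rat w (D : ℚ)
  push_cast at h1
  rw [h1, abs_of_nonneg (Nat.cast_nonneg _)] at hw
  have h2 := le_nrm hθ x w i
  have h3 : θ i ≤ ∑ i, θ i := single_le_sum (fun i _ => (hθ i).le) (mem_univ i)
  have h4 := nrm_nonneg hθ x
  rw [div_le_iff₀ (by positivity)]
  calc (1 : ℝ) ≤ D * w (x i) := hw
    _ ≤ D * (nrm θ x * θ i) := mul_le_mul_of_nonneg_left h2 hD0.le
    _ ≤ D * (nrm θ x * ∑ i, θ i) :=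
        mul_le_mul_of_nonneg_left (mul_le_mul_of_nonneg_left h3 h4) hD0.le
    _ = _ := by ring

theorem lat_rank {V : Matrix (Fin k) ι F} {f : Fin k → ι} (hf : mnr V f ≠ 0) {a : ι → FI F}
    (ha : ∀ i, 1 ≤ a i) : finrank F (Submodule.span F (lat V a : Set (ι → F))) = k := by
  have hind := rows_indep V f hf
  have heq : Submodule.span F (lat V a : Set (ι → F)) =
      Submodule.span F (Set.range fun j => V j) := by
    apply le_antisymm
    · refine Submodule.span_le.2 ?_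
      rintro x ⟨-, c, rfl⟩
      exact Submodule.sum_mem _ fun j _ => Submodule.smul_mem _ _ (Submodule.subset_span ⟨j, rfl⟩)
    · refine Submodule.span_le.2 ?_
      rintro _ ⟨j, rfl⟩
      obtain ⟨b, hb⟩ := IsLocalization.exist_integer_multiples_of_finite (𝓞 F)⁰ (V j)
      have hb0 : algebraMap (𝓞 F) F b ≠ 0 :=
        (map_ne_zero_iff _ (IsFractionRing.injective (𝓞 F) F)).2 (nonZeroDivisors.coe_ne_zero b)
      have h1 : (b : 𝓞 F) • V j ∈ lat V a := by
        refine ⟨fun i => ?_, Pi.single j (algebraMap (𝓞 F) F b), ?_⟩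
        · obtain ⟨y, hy⟩ := hb i
          have h2 : ((b : 𝓞 F) • V j) i ∈ (1 : FI F) := by
            rw [mem_one_iff]
            exact ⟨y, hy⟩
          exact ha i h2
        · rw [smO, Finset.sum_eq_single j]
          · rw [Pi.single_eq_same]
          · intro l _ hl
            rw [Pi.single_eq_of_ne hl, zero_smul]
          · intro h
            exact absurd (mem_univ j) h
      have h2 : V j = (algebraMap (𝓞 F) F b)⁻¹ • ((b : 𝓞 F) • V j) := by
        rw [smO, smul_smul, inv_mul_cancel₀ hb0, one_smul]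
      change V j ∈ Submodule.span F (lat V a : Set (ι → F))
      rw [h2]
      exact Submodule.smul_mem _ _ (Submodule.subset_span h1)
  rw [heq, finrank_span_eq_card hind, Fintype.card_fin]

end

end Run7.h3.GT
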