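import Pool.Agent.Run7.h3.GT.Box
import Pool.Agent.Run7.h3.GT.Key1

set_option autoImplicit false
set_option linter.unusedSectionVars false
set_option linter.unusedVariables false

/-! Counting row spaces: the number of spaces with a basis of given size. -/

namespace Run7.h3.GT

open Finset Module NumberField

section

variable {F : Type} [Field F] [NumberField F] {k : ℕ} {ι : Type} [Fintype ι] [DecidableEq ι]

/-- the integral points of a box, as a finite set -/
noncomputable def bx (F : Type) [Field F] [NumberField F] (X : ℝ) : Finset (𝓞 F) :=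
  by classical exact if h : (bxs F X).Finite then h.toFinset else ∅

theorem mem_bx {X : ℝ} (hX : 0 ≤ X) {x : 𝓞 F} : x ∈ bx F X ↔ ∀ w : InfinitePlace F, w (x : F) ≤ X := by
  obtain ⟨C, _, h⟩ := bxs_upper F
  unfold bx
  rw [dif_pos (h X hX).1, Set.Finite.mem_toFinset]
  rfl

theorem card_bx {X : ℝ} (hX : 0 ≤ X) : ((bx F X).card : ℝ) = ((bxs F X).ncard : ℝ) := by
  obtain ⟨C, _, h⟩ := bxs_upper F
  unfold bx
  rw [dif_pos (h X hX).1, ← Set.ncard_eq_toFinset_card _ (h X hX).1]

/-- the space spanned by the rows of an integral matrix -/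
def rsp (B : Matrix (Fin k) ι (𝓞 F)) : Submodule F (ι → F) :=
  Submodule.span F (Set.range fun j => (B.map (algebraMap (𝓞 F) F)) j)

/-- spaces with a basis of the given size -/
def WW (k : ℕ) (θ : ι → ℝ) (μ : Fin k → ℝ) : Set (Submodule F (ι → F)) :=
  {W | ∃ B : Matrix (Fin k) ι (𝓞 F), Gen B ∧ W = rsp B ∧
    ∀ j i, ∀ w : InfinitePlace F, w ((B j i : 𝓞 F) : F) ≤ μ j * θ i}

theorem gen_map {B : Matrix (Fin k) ι (𝓞 F)} {f : Fin k → ι} (h : mnr B f ≠ 0) :
    mnr (B.map (algebraMap (𝓞 F) F)) f ≠ 0 := by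
  rw [← mnr_map]
  intro h1
  exact h (RingOfIntegers.ext h1)

theorem rsp_mul (U : Matrix (Fin k) (Fin k) (𝓞 F)) (hU : U.det = 1) (B : Matrix (Fin k) ι (𝓞 F)) :
    rsp (U * B) = rsp B := by
  have hle : ∀ (U : Matrix (Fin k) (Fin k) (𝓞 F)) (B : Matrix (Fin k) ι (𝓞 F)),
      rsp (U * B) ≤ rsp B := by
    intro U B
    refine Submodule.span_le.2 ?_
    rintro _ ⟨j, rfl⟩
    have h1 : ((U * B).map (algebraMap (𝓞 F) F)) j =
        ∑ l, (U j l : F) • (B.map (algebraMap (𝓞 F) F)) l := by
      funext i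
      rw [Finset.sum_apply, Matrix.map_apply, Matrix.mul_apply, map_sum]
      refine sum_congr rfl fun l _ => ?_
      rw [map_mul]
      rfl
    change ((U * B).map (algebraMap (𝓞 F) F)) j ∈ rsp B
    rw [h1]
    exact Submodule.sum_mem _ fun l _ => Submodule.smul_mem _ _ (Submodule.subset_span ⟨l, rfl⟩)
  refine le_antisymm (hle U B) ?_
  have h1 : U⁻¹ * (U * B) = B := by
    rw [← Matrix.mul_assoc, Matrix.nonsing_inv_mul _ (by rw [hU]; exact isUnit_one), Matrix.one_mul]
  conv_lhs => rw [← h1]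
  exact hle _ _

/-- double counting -/
theorem WW_count (hki : k ≤ Fintype.card ι) {θ : ι → ℝ} (hθ : ∀ i, 0 < θ i) {μ : Fin k → ℝ}
    (hμ : ∀ j, 0 < μ j) :
    (WW (F := F) k θ μ).Finite ∧ (WW (F := F) k θ μ).ncard *
      ∏ j : Fin k, ∏ l : Fin k, (if l < j then (bx F (μ j / μ l)).card else 1) ≤
      ∏ j : Fin k, ∏ i, (bx F (k * (μ j * θ i))).card := by
  classical
  obtain ⟨e⟩ := Function.Embedding.nonempty_of_card_le (α := Fin k) (β := ι) (by simpa using hki)
  set A : Finset (Fin k → Fin k → 𝓞 F) := Fintype.piFinset fun j => Fintype.piFinset fun l =>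
    if l < j then bx F (μ j / μ l) else {0} with hA
  set T : Finset (Fin k → ι → 𝓞 F) := Fintype.piFinset fun j => Fintype.piFinset fun i =>
    bx F (k * (μ j * θ i)) with hT
  have hex : ∀ W : WW (F := F) k θ μ, ∃ B : Matrix (Fin k) ι (𝓞 F), Gen B ∧ W.1 = rsp B ∧
    ∀ j i, ∀ w : InfinitePlace F, w ((B j i : 𝓞 F) : F) ≤ μ j * θ i := fun W => W.2
  choose Bf hB1 hB2 hB3 using hex
  set U : (Fin k → Fin k → 𝓞 F) → Matrix (Fin k) (Fin k) (𝓞 F) := fun a => 1 + Matrix.of a with hU
  have hUdet : ∀ a ∈ A, (U a).det = 1 := by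
    intro a ha
    have h1 : ∀ j l, ¬ l < j → a j l = 0 := by
      intro j l hl
      have := Fintype.mem_piFinset.1 (Fintype.mem_piFinset.1 ha j) l
      rw [if_neg hl, mem_singleton] at this
      exact this
    have h2 : (U a).BlockTriangular OrderDual.toDual := by
      intro j l hjl
      have hjl' : j < l := hjl
      simp only [hU, Matrix.add_apply, Matrix.of_apply]
      rw [Matrix.one_apply_ne hjl'.ne, h1 j l (not_lt.2 hjl'.le), add_zero]
    rw [Matrix.det_of_isLowerTriangular _ h2]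
    refine prod_eq_one fun j _ => ?_
    simp only [hU, Matrix.add_apply, Matrix.of_apply]
    rw [Matrix.one_apply_eq, h1 j j (lt_irrefl j), add_zero]
  set Φ : (WW (F := F) k θ μ) × (Fin k → Fin k → 𝓞 F) → (Fin k → ι → 𝓞 F) :=
    fun p => U p.2 * Bf p.1 with hΦ
  have hmem : ∀ W : WW (F := F) k θ μ, ∀ a ∈ A, Φ (W, a) ∈ T := by
    intro W a ha
    rw [hT, Fintype.mem_piFinset]
    intro j
    rw [Fintype.mem_piFinset]
    intro i
    have hpos : 0 < μ j * θ i := mul_pos (hμ j) (hθ i)
    rw [mem_bx (by positivity)]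
    intro w
    have h1 : ((Φ (W, a) j i : 𝓞 F) : F) = ∑ l, ((U a j l : 𝓞 F) : F) * ((Bf W l i : 𝓞 F) : F) := by
      have : Φ (W, a) j i = ∑ l, U a j l * Bf W l i := Matrix.mul_apply
      rw [this]
      exact (map_sum (algebraMap (𝓞 F) F) _ _).trans
        (sum_congr rfl fun l _ => map_mul (algebraMap (𝓞 F) F) _ _)
    rw [h1]
    refine (place_sum_le w _ _).trans ?_
    have h2 : ∀ l ∈ (univ : Finset (Fin k)),
        w (((U a j l : 𝓞 F) : F) * ((Bf W l i : 𝓞 F) : F)) ≤ μ j * θ i := by
      intro l _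
      rw [map_mul]
      have hB := hB3 W l i w
      have hw0 : 0 ≤ w ((Bf W l i : 𝓞 F) : F) := apply_nonneg w _
      have hal := Fintype.mem_piFinset.1 (Fintype.mem_piFinset.1 ha j) l
      rcases lt_trichotomy l j with h | h | h
      · rw [if_pos h, mem_bx (div_pos (hμ j) (hμ l)).le] at hal
        have h3 : U a j l = a j l := by
          simp only [hU, Matrix.add_apply, Matrix.of_apply]
          rw [Matrix.one_apply_ne h.ne', zero_add]
        rw [h3]
        calc w ((a j l : 𝓞 F) : F) * w ((Bf W l i : 𝓞 F) : F) ≤ μ j / μ l * (μ l * θ i) :=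
              mul_le_mul (hal w) hB hw0 (div_pos (hμ j) (hμ l)).le
          _ = μ j * θ i := by
              have := (hμ l).ne'
              field_simp
      · subst h
        rw [if_neg (lt_irrefl l), mem_singleton] at hal
        have h3 : U a l l = 1 := by
          simp only [hU, Matrix.add_apply, Matrix.of_apply]
          rw [Matrix.one_apply_eq, hal, add_zero]
        rw [h3, cone, map_one, one_mul]
        exact hB
      · rw [if_neg (not_lt.2 h.le), mem_singleton] at hal
        have h3 : U a j l = 0 := by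
          simp only [hU, Matrix.add_apply, Matrix.of_apply]
          rw [Matrix.one_apply_ne h.ne, hal, add_zero]
        rw [h3, czero, map_zero, zero_mul]
        exact hpos.le
    refine (sum_le_sum h2).trans ?_
    rw [sum_const, card_univ, Fintype.card_fin, nsmul_eq_mul]
  have hinj : ∀ W W' : WW (F := F) k θ μ, ∀ a ∈ A, ∀ a' ∈ A, Φ (W, a) = Φ (W', a') →
      W = W' ∧ a = a' := by
    intro W W' a ha a' ha' h
    have h1 : rsp (U a * Bf W) = rsp (U a' * Bf W') := congrArg rsp h
    rw [rsp_mul _ (hUdet a ha), rsp_mul _ (hUdet a' ha'), ← hB2, ← hB2] at h1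
    have hW : W = W' := Subtype.ext h1
    subst hW
    refine ⟨rfl, ?_⟩
    have h2 : U a * Bf W = U a' * Bf W := h
    have h3 : (U a * (Bf W).submatrix id e) = U a' * (Bf W).submatrix id e := by
      have h4 := congrArg (fun M : Matrix (Fin k) ι (𝓞 F) => M.submatrix id e) h2
      exact h4
    have h5 : (Bf W).submatrix id e * ((Bf W).submatrix id e).adjugate =
        mnr (Bf W) e • (1 : Matrix (Fin k) (Fin k) (𝓞 F)) := Matrix.mul_adjugate _
    have h6 : mnr (Bf W) e • U a = mnr (Bf W) e • U a' := by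
      have h7 := congrArg (fun M => M * ((Bf W).submatrix id e).adjugate) h3
      simp only [Matrix.mul_assoc, h5] at h7
      simpa using h7
    have h7 : U a = U a' := by
      ext j l
      have h8 := congrFun (congrFun h6 j) l
      have h9 : mnr (Bf W) e * U a j l = mnr (Bf W) e * U a' j l := h8
      exact congrArg _ (mul_left_cancel₀ (hB1 W e e.injective) h9)
    have h8 : (Matrix.of a : Matrix (Fin k) (Fin k) (𝓞 F)) = Matrix.of a' := add_left_cancel h7
    exact h8
  -- finiteness
  have h0A : (0 : Fin k → Fin k → 𝓞 F) ∈ A := by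
    rw [hA, Fintype.mem_piFinset]
    intro j
    rw [Fintype.mem_piFinset]
    intro l
    split_ifs with h
    · rw [mem_bx (div_pos (hμ j) (hμ l)).le]
      intro w
      have : (((0 : Fin k → Fin k → 𝓞 F) j l : 𝓞 F) : F) = 0 := map_zero _
      rw [this, map_zero]
      exact (div_pos (hμ j) (hμ l)).le
    · exact mem_singleton_self _
  have hfin : Finite (WW (F := F) k θ μ) := by
    refine Finite.of_injective (β := T) (fun W => ⟨Φ (W, 0), hmem W 0 h0A⟩) fun W W' h => ?_
    exact (hinj W W' 0 h0A 0 h0A (congrArg Subtype.val h)).1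
  have hft := Fintype.ofFinite (WW (F := F) k θ μ)
  refine ⟨Set.toFinite _, ?_⟩
  have hcard : ((univ : Finset (WW (F := F) k θ μ)) ×ˢ A).card ≤ T.card := by
    refine card_le_card_of_injOn Φ ?_ ?_
    · rintro ⟨W, a⟩ hp
      exact hmem W a (mem_product.1 hp).2
    · rintro ⟨W, a⟩ hp ⟨W', a'⟩ hp' h
      obtain ⟨e1, e2⟩ := hinj W W' a (mem_product.1 hp).2 a' (mem_product.1 hp').2 h
      rw [e1, e2]
  rw [card_product, card_univ, hA, hT, Fintype.card_piFinset, Fintype.card_piFinset] at hcard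
  simp only [Fintype.card_piFinset] at hcard
  have hn : (WW (F := F) k θ μ).ncard = Fintype.card (WW (F := F) k θ μ) := by
    rw [← Nat.card_coe_set_eq, Nat.card_eq_fintype_card]
  rw [hn]
  have hA' : ∏ j : Fin k, ∏ l : Fin k, (if l < j then (bx F (μ j / μ l)).card else 1) =
      ∏ j : Fin k, ∏ l : Fin k, (if l < j then bx F (μ j / μ l) else ({0} : Finset (𝓞 F))).card := by
    refine prod_congr rfl fun j _ => prod_congr rfl fun l _ => ?_
    split_ifs
    · rfl
    · rw [card_singleton]
  rw [hA']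
  exact hcard

/-- a large block of zeros kills the determinant -/
theorem det_zero_block {R : Type} [CommRing R] (Z : Matrix (Fin k) (Fin k) R) (J I : Finset (Fin k))
    (h : k < J.card + I.card) (hZ : ∀ j ∈ J, ∀ i ∈ I, Z j i = 0) : Z.det = 0 := by
  classical
  rw [Matrix.det_apply]
  refine sum_eq_zero fun σ _ => ?_
  have h1 : ∃ i ∈ I, σ i ∈ J := by
    by_contra hcon
    push Not at hcon
    have h2 : Disjoint (I.image σ) J := by
      rw [disjoint_left]
      intro x hx hxJ
      obtain ⟨i, hi, rfl⟩ := mem_image.1 hx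
      exact hcon i hi hxJ
    have h3 := card_le_card (subset_univ (I.image σ ∪ J))
    rw [card_union_of_disjoint h2, card_image_of_injective _ σ.injective, card_univ,
      Fintype.card_fin] at h3
    omega
  obtain ⟨i, hi, hiJ⟩ := h1
  have h4 : ∏ i, Z (σ i) i = 0 := prod_eq_zero (f := fun i => Z (σ i) i) (mem_univ i) (hZ _ hiJ i hi)
  rw [h4, smul_zero]

theorem WW_nonempty {n : ℕ} (hkn : k ≤ n) (e : Fin n ≃ ι) {θ : ι → ℝ} (hθ : ∀ i, 0 < θ i)
    (hmono : Monotone fun a => θ (e a)) {μ : Fin k → ℝ} (hμ : ∀ j, 0 < μ j) (hμm : Monotone μ)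
    (hne : (WW (F := F) k θ μ).Nonempty) (i : Fin k) :
    1 ≤ μ (Fin.rev i) * θ (e (Fin.castLE hkn i)) := by
  by_contra hcon
  push Not at hcon
  obtain ⟨W, B, hB, -, hB3⟩ := hne
  have hf : Function.Injective fun a : Fin k => e (Fin.castLE hkn a) :=
    e.injective.comp (Fin.castLE_injective hkn)
  apply hB _ hf
  refine det_zero_block _ (univ.filter fun j => j ≤ Fin.rev i) (univ.filter fun a => a ≤ i) ?_ ?_
  · have h1 : (univ.filter fun j : Fin k => j ≤ Fin.rev i) = Iic (Fin.rev i) := by
      ext j; simp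
    have h2 : (univ.filter fun j : Fin k => j ≤ i) = Iic i := by
      ext j; simp
    rw [h1, h2, Fin.card_Iic, Fin.card_Iic, Fin.val_rev]
    have := i.2
    omega
  · intro j hj a ha
    by_contra h0
    obtain ⟨w, hw⟩ := exists_one_le (F := F) (B j (e (Fin.castLE hkn a))) h0
    have h1 := hB3 j (e (Fin.castLE hkn a)) w
    have h2 : μ j * θ (e (Fin.castLE hkn a)) ≤ μ (Fin.rev i) * θ (e (Fin.castLE hkn i)) := by
      refine mul_le_mul (hμm (mem_filter.1 hj).2) ?_ (hθ _).le (hμ _).le
      exact hmono (show Fin.castLE hkn a ≤ Fin.castLE hkn i from (mem_filter.1 ha).2)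
    linarith

end

end Run7.h3.GT
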