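import Mathlib

set_option autoImplicit false
set_option linter.unusedSectionVars false
set_option linter.unusedVariables false

/-! Geometric sums, and an inequality for the successive sizes. -/

namespace Run7.h3.GT

open Finset

theorem geo_inc {a : ℤ → ℝ} (ha : ∀ m, 0 < a m) (hs : ∀ m, a m * (4 / 3) ≤ a (m + 1)) {c : ℝ}
    (hc : 0 ≤ c) (S : Finset ℤ) : ∑ m ∈ S with a m ≤ c, a m ≤ 4 * c := by
  classical
  set T := S.filter fun m => a m ≤ c with hT
  rcases T.eq_empty_or_nonempty with h | h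
  · rw [h, sum_empty]
    linarith
  set M := T.max' h with hM
  have hMT : M ∈ T := max'_mem T h
  have hMc : a M ≤ c := (mem_filter.1 hMT).2
  have hpow : ∀ (n : ℕ) (m : ℤ), a m * (4 / 3) ^ n ≤ a (m + n) := by
    intro n
    induction n with
    | zero => intro m; simp
    | succ n ih =>
      intro m
      have h1 := ih m
      have h2 := hs (m + n)
      push_cast
      rw [pow_succ, ← add_assoc]
      nlinarith
  have hle : ∀ m ∈ T, a m ≤ c * (3 / 4) ^ (M - m).toNat := by
    intro m hm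
    have h1 : m ≤ M := le_max' T m hm
    have h2 := hpow (M - m).toNat m
    have h3 : m + ((M - m).toNat : ℤ) = M := by omega
    rw [h3] at h2
    have h4 : (0 : ℝ) < (4 / 3) ^ (M - m).toNat := by positivity
    have h5 : (3 / 4 : ℝ) ^ (M - m).toNat = ((4 / 3) ^ (M - m).toNat)⁻¹ := by
      rw [← inv_pow]
      norm_num
    rw [h5, ← div_eq_mul_inv, le_div_iff₀ h4]
    linarith
  calc ∑ m ∈ T, a m ≤ ∑ m ∈ T, c * (3 / 4) ^ (M - m).toNat := sum_le_sum hle
    _ = c * ∑ m ∈ T, (3 / 4 : ℝ) ^ (M - m).toNat := (mul_sum _ _ _).symm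
    _ = c * ∑ i ∈ T.image (fun m => (M - m).toNat), (3 / 4 : ℝ) ^ i := by
        rw [sum_image]
        intro x hx y hy hxy
        have h1 : x ≤ M := le_max' T x hx
        have h2 : y ≤ M := le_max' T y hy
        simp only at hxy
        omega
    _ ≤ c * (1 - 3 / 4)⁻¹ := by
        refine mul_le_mul_of_nonneg_left ?_ hc
        rw [← tsum_geometric_of_lt_one (by norm_num) (by norm_num)]
        exact (summable_geometric_of_lt_one (by norm_num) (by norm_num)).sum_le_tsum _
          fun _ _ => by positivity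
    _ = 4 * c := by norm_num; ring

theorem geo_dec {a : ℤ → ℝ} (ha : ∀ m, 0 < a m) (hs : ∀ m, a (m + 1) * (4 / 3) ≤ a m) {c : ℝ}
    (hc : 0 ≤ c) (S : Finset ℤ) : ∑ m ∈ S with a m ≤ c, a m ≤ 4 * c := by
  classical
  have h := geo_inc (a := fun m => a (-m)) (fun m => ha _) (fun m => by
    have := hs (-(m + 1))
    have e : -(m + 1) + 1 = -m := by ring
    rw [e] at this
    exact this) hc (S.image Neg.neg)
  refine le_trans (le_of_eq ?_) h
  refine sum_nbij' (fun m => -m) (fun m => -m) ?_ ?_ ?_ ?_ ?_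
  · intro m hm
    rw [mem_filter] at hm ⊢
    refine ⟨mem_image_of_mem _ hm.1, ?_⟩
    rw [neg_neg]
    exact hm.2
  · intro m hm
    rw [mem_filter] at hm ⊢
    obtain ⟨x, hx, rfl⟩ := mem_image.1 hm.1
    rw [neg_neg]
    refine ⟨hx, ?_⟩
    have := hm.2
    rwa [neg_neg] at this
  · intro m _; exact neg_neg m
  · intro m _; exact neg_neg m
  · intro m _; rw [neg_neg]

/-- the inequality for the sizes -/
theorem size_ineq {k n : ℕ} (hk : 0 < k) (hkn : k ≤ n) {θ : Fin n → ℝ} (hθ : ∀ i, 0 < θ i)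
    (hθm : Monotone θ) {μ : Fin k → ℝ} (hμ : ∀ j, 0 < μ j) (hμm : Monotone μ)
    (H : ∀ i : Fin k, 1 ≤ μ (Fin.rev i) * θ (Fin.castLE hkn i)) :
    ∏ j, ∏ i, max 1 (μ j * θ i) ≤ (∏ i, θ i) ^ k * (∏ j, μ j) ^ n *
      (∏ j, ∏ l, (if l < j then μ j / μ l else 1)) *
      ∏ l : Fin k, (if (⟨0, hk⟩ : Fin k) < l then
        max (μ ⟨0, hk⟩) (1 / θ (Fin.castLE hkn (Fin.rev l))) / μ l else 1) := by
  classical
  set z : Fin k → Fin n → ℝ := fun j i => max 1 (1 / (μ j * θ i)) with hz
  have hz1 : ∀ j i, 1 ≤ z j i := fun j i => le_max_left _ _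
  have hmul : ∀ j i, max 1 (μ j * θ i) = μ j * θ i * z j i := by
    intro j i
    have h1 : 0 < μ j * θ i := mul_pos (hμ j) (hθ i)
    rw [hz]
    simp only
    rw [mul_max_of_nonneg _ _ h1.le, mul_one, mul_one_div_cancel h1.ne', max_comm]
  have hprod : ∏ j, ∏ i, max 1 (μ j * θ i) = (∏ i, θ i) ^ k * (∏ j, μ j) ^ n *
      ∏ j, ∏ i, z j i := by
    simp only [hmul]
    simp only [prod_mul_distrib, prod_const, card_univ, Fintype.card_fin]
    rw [prod_pow]
    ring
  rw [hprod, mul_assoc ((∏ i, θ i) ^ k * (∏ j, μ j) ^ n)]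
  refine mul_le_mul_of_nonneg_left ?_ (mul_nonneg
    (pow_nonneg (prod_nonneg fun i _ => (hθ i).le) _)
    (pow_nonneg (prod_nonneg fun j _ => (hμ j).le) _))
  -- only the first `k` columns count
  have hbig : ∀ i : Fin n, k ≤ (i : ℕ) → ∀ j, z j i = 1 := by
    intro i hi j
    rw [hz]
    simp only
    rw [max_eq_left]
    rw [div_le_one (mul_pos (hμ j) (hθ i))]
    have h1 := H ⟨k - 1, by omega⟩
    have h2 : μ (Fin.rev ⟨k - 1, by omega⟩) ≤ μ j := hμm (by
      rw [Fin.le_def, Fin.val_rev]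
      simp only
      omega)
    have h3 : θ (Fin.castLE hkn ⟨k - 1, by omega⟩) ≤ θ i := hθm (by
      rw [Fin.le_def]
      simp only [Fin.val_castLE]
      omega)
    exact h1.trans (mul_le_mul h2 h3 (hθ _).le (hμ _).le)
  have hswap : ∏ j, ∏ i, z j i = ∏ l : Fin k, ∏ j, z j (Fin.castLE hkn (Fin.rev l)) := by
    rw [prod_comm]
    have h1 : ∏ i : Fin n, ∏ j, z j i = ∏ i ∈ (univ : Finset (Fin k)).image (Fin.castLE hkn),
        ∏ j, z j i := by
      symm
      refine prod_subset (subset_univ _) fun i _ hi => ?_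
      refine prod_eq_one fun j _ => hbig i ?_ j
      by_contra hcon
      push Not at hcon
      apply hi
      rw [mem_image]
      exact ⟨⟨i, hcon⟩, mem_univ _, by ext; rfl⟩
    rw [h1, prod_image fun x _ y _ h => Fin.castLE_injective hkn h]
    exact (Equiv.prod_comp Fin.revPerm fun i => ∏ j, z j (Fin.castLE hkn i)).symm
  rw [hswap, ← prod_mul_distrib]
  refine prod_le_prod (fun l _ => prod_nonneg fun j _ => zero_le_one.trans (hz1 _ _)) fun l _ => ?_
  set ϑ := θ (Fin.castLE hkn (Fin.rev l)) with hϑ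
  have hϑ0 : 0 < ϑ := hθ _
  have hH : 1 ≤ μ l * ϑ := by
    have := H (Fin.rev l)
    rwa [Fin.rev_rev] at this
  have hϑl : 1 / ϑ ≤ μ l := by
    rw [div_le_iff₀ hϑ0]
    exact hH
  -- the factors
  have hfac : ∀ j, z j (Fin.castLE hkn (Fin.rev l)) ≤ (if j < l then μ l / μ j else 1) *
      (if j < l then max (μ j) (1 / ϑ) / μ l else 1) := by
    intro j
    split_ifs with h
    · have h1 : z j (Fin.castLE hkn (Fin.rev l)) = μ l / μ j * (max (μ j) (1 / ϑ) / μ l) := by
        rw [hz]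
        simp only
        rw [← hϑ]
        have e1 := (hμ j).ne'
        have e2 := (hμ l).ne'
        have h2 : μ l / μ j * (max (μ j) (1 / ϑ) / μ l) = max (μ j) (1 / ϑ) * (1 / μ j) := by
          field_simp
        rw [h2, max_mul_of_nonneg _ _ (by have := hμ j; positivity), mul_one_div_cancel e1]
        congr 1
        field_simp
      exact h1.le
    · rw [one_mul, hz]
      simp only
      rw [max_eq_left]
      rw [div_le_one (mul_pos (hμ j) (hθ _)), ← hϑ]
      exact hH.trans (mul_le_mul_of_nonneg_right (hμm (not_lt.1 h)) hϑ0.le)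
  refine (prod_le_prod (fun j _ => zero_le_one.trans (hz1 _ _)) fun j _ => hfac j).trans ?_
  rw [prod_mul_distrib]
  refine mul_le_mul_of_nonneg_left ?_ (prod_nonneg fun j _ => by
    split_ifs
    · exact div_nonneg (hμ _).le (hμ _).le
    · exact zero_le_one)
  rw [← mul_prod_erase univ _ (mem_univ (⟨0, hk⟩ : Fin k))]
  have h1 : ∏ j ∈ univ.erase (⟨0, hk⟩ : Fin k), (if j < l then max (μ j) (1 / ϑ) / μ l else 1)
      ≤ 1 := by
    refine prod_le_one (fun j _ => ?_) fun j _ => ?_
    · split_ifs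
      · exact div_nonneg ((hμ j).le.trans (le_max_left _ _)) (hμ l).le
      · exact zero_le_one
    · split_ifs with h
      · rw [div_le_one (hμ l)]
        exact max_le (hμm h.le) hϑl
      · exact le_rfl
  refine mul_le_of_le_one_right ?_ h1
  split_ifs
  · exact div_nonneg ((hμ _).le.trans (le_max_left _ _)) (hμ l).le
  · exact zero_le_one

end Run7.h3.GT
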