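import Pool.Agent.Run7.h3.GT.Cnt1
import Pool.Agent.Run7.h3.GT.Geo

set_option autoImplicit false
set_option linter.unusedSectionVars false
set_option linter.unusedVariables false

/-! Counting row spaces: summation over the sizes. -/

namespace Run7.h3.GT

open Finset Module NumberField

theorem ncard_biUnion_le {α β : Type} (t : Finset α) (S : α → Set β) (h : ∀ a ∈ t, (S a).Finite) :
    (⋃ a ∈ t, S a).Finite ∧ (⋃ a ∈ t, S a).ncard ≤ ∑ a ∈ t, (S a).ncard := by
  classical
  induction t using Finset.induction_on with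
  | empty => simp
  | insert a t ha ih =>
    obtain ⟨h1, h2⟩ := ih fun b hb => h b (mem_insert_of_mem hb)
    rw [Finset.set_biUnion_insert, sum_insert ha]
    refine ⟨(h a (mem_insert_self _ _)).union h1, ?_⟩
    exact (Set.ncard_union_le _ _).trans (Nat.add_le_add_left h2 _)

section

variable (F : Type) [Field F] [NumberField F]

/-- bound for one vector of sizes -/
theorem WW_bound (k : ℕ) (hk : 0 < k) (n : ℕ) : ∃ K : ℝ, 0 < K ∧
    ∀ (ι : Type) [Fintype ι] [DecidableEq ι] (hkn : k ≤ n) (e : Fin n ≃ ι) (θ : ι → ℝ),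
    (∀ i, 0 < θ i) → (Monotone fun a => θ (e a)) → ∀ μ : Fin k → ℝ, (∀ j, 0 < μ j) → Monotone μ →
    (WW (F := F) k θ μ).Nonempty →
    ((WW (F := F) k θ μ).ncard : ℝ) ≤ K * ((∏ i, θ i) ^ k * (∏ j, μ j) ^ n *
      ∏ l : Fin k, (if (⟨0, hk⟩ : Fin k) < l then
        max (μ ⟨0, hk⟩) (1 / θ (e (Fin.castLE hkn (Fin.rev l)))) / μ l else 1)) ^ finrank ℚ F := by
  classical
  obtain ⟨Cu, hCu, hup⟩ := bxs_upper F
  obtain ⟨cl, hcl, hlow⟩ := bxs_lower F
  set d := finrank ℚ F with hd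
  set c' : ℝ := min cl 1 with hc'
  have hc'0 : 0 < c' := lt_min hcl one_pos
  have hc'1 : c' ≤ 1 := min_le_right _ _
  have hk1 : (1 : ℝ) ≤ k := by exact_mod_cast hk
  refine ⟨(Cu * (k : ℝ) ^ d) ^ (k * n) / c' ^ (k * k), by positivity, ?_⟩
  intro ι _ _ hkn e θ hθ hθm μ hμ hμm hne
  have hcard : Fintype.card ι = n := by
    rw [← Fintype.card_congr e, Fintype.card_fin]
  obtain ⟨-, hcount⟩ := WW_count (F := F) (k := k) (by rw [hcard]; exact hkn) hθ hμ
  -- lower bound
  have hL : c' ^ (k * k) * (∏ j : Fin k, ∏ l : Fin k, (if l < j then μ j / μ l else 1)) ^ d ≤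
      ∏ j : Fin k, ∏ l : Fin k, ((if l < j then (bx F (μ j / μ l)).card else 1 : ℕ) : ℝ) := by
    have e1 : c' ^ (k * k) = ∏ j : Fin k, ∏ l : Fin k, c' := by
      rw [prod_const, prod_const, card_univ, Fintype.card_fin, ← pow_mul]
    rw [e1, ← prod_pow, ← prod_mul_distrib]
    refine prod_le_prod (fun j _ => mul_nonneg (prod_nonneg fun l _ => hc'0.le)
      (pow_nonneg (prod_nonneg fun l _ => ?_) _)) fun j _ => ?_
    · split_ifs
      · exact (div_pos (hμ _) (hμ _)).le
      · exact zero_le_one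
    · rw [← prod_pow, ← prod_mul_distrib]
      refine prod_le_prod (fun l _ => mul_nonneg hc'0.le (pow_nonneg ?_ _)) fun l _ => ?_
      · split_ifs
        · exact (div_pos (hμ _) (hμ _)).le
        · exact zero_le_one
      · split_ifs with h
        · have h1 : 1 ≤ μ j / μ l := by
            rw [one_le_div (hμ l)]
            exact hμm h.le
          rw [card_bx (by linarith)]
          refine le_trans (mul_le_mul_of_nonneg_right (min_le_left _ _) (by positivity)) (hlow _ h1)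
        · rw [one_pow, mul_one]
          push_cast
          exact hc'1
  -- upper bound
  have hU : ∏ j : Fin k, ∏ i, ((bx F (k * (μ j * θ i))).card : ℝ) ≤
      (Cu * (k : ℝ) ^ d) ^ (k * n) * (∏ j : Fin k, ∏ i, max 1 (μ j * θ i)) ^ d := by
    have e1 : (Cu * (k : ℝ) ^ d) ^ (k * n) = ∏ j : Fin k, ∏ i : ι, (Cu * (k : ℝ) ^ d) := by
      rw [prod_const, prod_const, card_univ, card_univ, Fintype.card_fin, hcard, ← pow_mul,
        mul_comm n k]
    rw [e1, ← prod_pow, ← prod_mul_distrib]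
    refine prod_le_prod (fun j _ => prod_nonneg fun i _ => Nat.cast_nonneg _) fun j _ => ?_
    rw [← prod_pow, ← prod_mul_distrib]
    refine prod_le_prod (fun i _ => Nat.cast_nonneg _) fun i _ => ?_
    have hpos : 0 < μ j * θ i := mul_pos (hμ j) (hθ i)
    rw [card_bx (by positivity)]
    refine (hup _ (by positivity)).2.trans ?_
    rw [mul_assoc, ← mul_pow]
    refine mul_le_mul_of_nonneg_left (pow_le_pow_left₀ (by positivity) ?_ _) (by linarith)
    rw [mul_max_of_nonneg _ _ (by linarith)]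
    exact max_le_max (by linarith) le_rfl
  have hI := size_ineq hk hkn (θ := fun a => θ (e a)) (fun a => hθ _) hθm hμ hμm
    (fun i => WW_nonempty hkn e hθ hθm hμ hμm hne i)
  have e2 : ∀ j, ∏ i : Fin n, max 1 (μ j * θ (e i)) = ∏ i, max 1 (μ j * θ i) := fun j =>
    Equiv.prod_comp e fun i => max 1 (μ j * θ i)
  have e3 : ∏ i : Fin n, θ (e i) = ∏ i, θ i := Equiv.prod_comp e θ
  simp only [e2, e3] at hI
  set S : ℝ := ∏ l : Fin k, (if (⟨0, hk⟩ : Fin k) < l then
        max (μ ⟨0, hk⟩) (1 / θ (e (Fin.castLE hkn (Fin.rev l)))) / μ l else 1) with hS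
  set R : ℝ := ∏ j : Fin k, ∏ l : Fin k, (if l < j then μ j / μ l else 1) with hR
  have hR0 : 0 < R := prod_pos fun j _ => prod_pos fun l _ => by
    split_ifs
    · exact div_pos (hμ _) (hμ _)
    · exact one_pos
  have hcountR : ((WW (F := F) k θ μ).ncard : ℝ) *
      ∏ j : Fin k, ∏ l : Fin k, ((if l < j then (bx F (μ j / μ l)).card else 1 : ℕ) : ℝ) ≤
      ∏ j : Fin k, ∏ i, ((bx F (k * (μ j * θ i))).card : ℝ) := by
    exact_mod_cast hcount
  have h1 : ((WW (F := F) k θ μ).ncard : ℝ) * (c' ^ (k * k) * R ^ d) ≤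
      (Cu * (k : ℝ) ^ d) ^ (k * n) * ((∏ i, θ i) ^ k * (∏ j, μ j) ^ n * R * S) ^ d := by
    refine (mul_le_mul_of_nonneg_left hL (Nat.cast_nonneg _)).trans (hcountR.trans (hU.trans ?_))
    refine mul_le_mul_of_nonneg_left (pow_le_pow_left₀ ?_ hI _) (by positivity)
    exact prod_nonneg fun j _ => prod_nonneg fun i _ => zero_le_one.trans (le_max_left _ _)
  have h2 : ((∏ i, θ i) ^ k * (∏ j, μ j) ^ n * R * S) ^ d =
      ((∏ i, θ i) ^ k * (∏ j, μ j) ^ n * S) ^ d * R ^ d := by
    rw [← mul_pow]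
    congr 1
    ring
  rw [h2, ← mul_assoc, ← mul_assoc] at h1
  have h3 := le_of_mul_le_mul_right h1 (pow_pos hR0 d)
  rw [div_mul_eq_mul_div, le_div_iff₀ (by positivity)]
  exact h3

/-- the spaces with a basis of bounded covolume -/
def SW {ι : Type} [Fintype ι] [DecidableEq ι] (k : ℕ) (θ : ι → ℝ) (C : ℝ) :
    Set (Submodule F (ι → F)) :=
  {W | ∃ B : Matrix (Fin k) ι (𝓞 F), Gen B ∧ W = rsp B ∧
    ∏ j, nrm θ (fun i => ((B j i : 𝓞 F) : F)) ≤ C}

/-- sorting and rounding -/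
theorem SW_sub {k : ℕ} (hk : 0 < k) {ι : Type} [Fintype ι] [DecidableEq ι] [Nonempty ι]
    (hki : k ≤ Fintype.card ι) {θ : ι → ℝ} (hθ : ∀ i, 0 < θ i) {C : ℝ} {W : Submodule F (ι → F)}
    (hW : W ∈ SW F k θ C) : ∃ m : Fin k → ℤ, Monotone m ∧
      W ∈ WW (F := F) k θ (fun j => (2 : ℝ) ^ m j) ∧ ∏ j, (2 : ℝ) ^ m j ≤ 2 ^ k * C := by
  classical
  obtain ⟨B, hB, rfl, hC⟩ := hW
  obtain ⟨e⟩ := Function.Embedding.nonempty_of_card_le (α := Fin k) (β := ι) (by simpa using hki)
  set nr : Fin k → ℝ := fun j => nrm θ (fun i => ((B j i : 𝓞 F) : F)) with hnr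
  have hpos : ∀ j, 0 < nr j := by
    intro j
    refine nrm_pos hθ fun h => ?_
    apply hB e e.injective
    refine Matrix.det_eq_zero_of_row_eq_zero j fun l => ?_
    have := congrFun h (e l)
    exact RingOfIntegers.ext this
  set σ := Tuple.sort nr with hσ
  have hmono : Monotone (nr ∘ σ) := Tuple.monotone_sort nr
  refine ⟨fun j => Int.clog 2 (nr (σ j)), ?_, ?_, ?_⟩
  · intro a b hab
    exact Int.clog_mono_right (hpos _) (hmono hab)
  · refine ⟨B.submatrix σ id, ?_, ?_, ?_⟩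
    · intro f hf
      have h1 : mnr (B.submatrix σ id) f = Equiv.Perm.sign σ * mnr B f := by
        unfold mnr
        rw [← Matrix.det_permute]
        rfl
      rw [h1]
      refine mul_ne_zero ?_ (hB f hf)
      rcases Int.units_eq_one_or (Equiv.Perm.sign σ) with h | h <;> rw [h] <;> simp
    · unfold rsp
      congr 1
      ext x
      constructor
      · rintro ⟨j, rfl⟩
        refine ⟨σ.symm j, ?_⟩
        funext i
        simp
      · rintro ⟨j, rfl⟩
        exact ⟨σ j, rfl⟩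
    · intro j i w
      have h1 := le_nrm hθ (fun i => ((B (σ j) i : 𝓞 F) : F)) w i
      have h2 : nr (σ j) ≤ (2 : ℝ) ^ Int.clog 2 (nr (σ j)) := by
        have := Int.self_le_zpow_clog (b := 2) (by norm_num) (nr (σ j))
        exact_mod_cast this
      exact h1.trans (mul_le_mul_of_nonneg_right h2 (hθ i).le)
  · have h1 : ∀ j, (2 : ℝ) ^ Int.clog 2 (nr (σ j)) ≤ 2 * nr (σ j) := by
      intro j
      have h2 := Int.zpow_pred_clog_lt_self (b := 2) (by norm_num) (hpos (σ j))
      have h3 : ((2 : ℕ) : ℝ) ^ (Int.clog 2 (nr (σ j)) - 1) = (2 : ℝ) ^ Int.clog 2 (nr (σ j)) / 2 := by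
        push_cast
        rw [zpow_sub₀ (by norm_num), zpow_one]
      rw [h3] at h2
      linarith
    calc ∏ j, (2 : ℝ) ^ Int.clog 2 (nr (σ j)) ≤ ∏ j, 2 * nr (σ j) :=
          prod_le_prod (fun j _ => by positivity) fun j _ => h1 j
      _ = 2 ^ k * ∏ j, nr j := by
          rw [prod_mul_distrib, prod_const, card_univ, Fintype.card_fin]
          congr 1
          exact Equiv.prod_comp σ nr
      _ ≤ 2 ^ k * C := mul_le_mul_of_nonneg_left hC (by positivity)

end

end Run7.h3.GT
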