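import Pool.Agent.Run7.h3.GT.Cnt2

set_option autoImplicit false
set_option linter.unusedSectionVars false
set_option linter.unusedVariables false

/-! Counting row spaces: the final bound. -/

namespace Run7.h3.GT

open Finset Module NumberField

section

/-- the double geometric sum -/
theorem dyadic_sum (k : ℕ) (t : Fin k → ℝ) (ht : ∀ l, 0 < t l) (C : ℝ) (hC : 0 ≤ C) (R : Finset ℤ) :
    ∑ m ∈ (Fintype.piFinset fun _ : Fin (k + 1) => R) with
      ((2 : ℝ) ^ m 0 * ∏ l : Fin k, max ((2 : ℝ) ^ m 0) (t l) ≤ C ∧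
        ∀ l : Fin k, max ((2 : ℝ) ^ m 0) (t l) ≤ (2 : ℝ) ^ m l.succ),
      √((2 : ℝ) ^ m 0 * ∏ l : Fin k, max ((2 : ℝ) ^ m 0) (t l)) *
        ∏ l : Fin k, √(max ((2 : ℝ) ^ m 0) (t l) / (2 : ℝ) ^ m l.succ) ≤ 4 ^ (k + 1) * √C := by
  classical
  have h43 : (4 / 3 : ℝ) ≤ √2 := by
    rw [Real.le_sqrt (by norm_num) (by norm_num)]
    norm_num
  set g : ℤ → ℝ := fun a => (2 : ℝ) ^ a * ∏ l : Fin k, max ((2 : ℝ) ^ a) (t l) with hg
  have hg0 : ∀ a, 0 < g a := fun a =>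
    mul_pos (by positivity) (prod_pos fun l _ => lt_max_of_lt_right (ht l))
  have hgs : ∀ a, 2 * g a ≤ g (a + 1) := by
    intro a
    simp only [hg]
    have h1 : (2 : ℝ) ^ (a + 1) = 2 * 2 ^ a := by
      rw [zpow_add₀ (by norm_num), zpow_one, mul_comm]
    have h2 : ∏ l : Fin k, max ((2 : ℝ) ^ a) (t l) ≤ ∏ l : Fin k, max ((2 : ℝ) ^ (a + 1)) (t l) := by
      refine prod_le_prod (fun l _ => (ht l).le.trans (le_max_right _ _)) fun l _ => ?_
      refine max_le_max ?_ le_rfl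
      rw [h1]
      have : (0 : ℝ) < 2 ^ a := by positivity
      linarith
    calc 2 * ((2 : ℝ) ^ a * ∏ l : Fin k, max ((2 : ℝ) ^ a) (t l))
        = (2 : ℝ) ^ (a + 1) * ∏ l : Fin k, max ((2 : ℝ) ^ a) (t l) := by
          rw [show (2 : ℝ) ^ (a + 1) = 2 * 2 ^ a from h1, mul_assoc]
      _ ≤ _ := mul_le_mul_of_nonneg_left h2 (by positivity)
  have hν : ∀ (l : Fin k) (a : ℤ), 0 < max ((2 : ℝ) ^ a) (t l) := fun l a =>
    lt_max_of_lt_right (ht l)
  -- inner sums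
  have hinner : ∀ (ν : ℝ), 0 < ν →
      ∑ b ∈ R with √(ν / (2 : ℝ) ^ b) ≤ 1, √(ν / (2 : ℝ) ^ b) ≤ 4 := by
    intro ν hν
    have := geo_dec (a := fun b => √(ν / (2 : ℝ) ^ b)) (fun b => by positivity) (fun b => by
      have h1 : ν / (2 : ℝ) ^ b = 2 * (ν / (2 : ℝ) ^ (b + 1)) := by
        rw [zpow_add₀ (by norm_num), zpow_one]
        field_simp
      rw [h1, Real.sqrt_mul (by norm_num), mul_comm]
      exact mul_le_mul_of_nonneg_right h43 (by positivity)) zero_le_one R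
    linarith
  have houter : ∑ a ∈ R with √(g a) ≤ √C, √(g a) ≤ 4 * √C :=
    geo_inc (a := fun a => √(g a)) (fun a => Real.sqrt_pos.2 (hg0 a)) (fun a => by
      have h1 : √2 * √(g a) ≤ √(g (a + 1)) := by
        rw [← Real.sqrt_mul (by norm_num)]
        exact Real.sqrt_le_sqrt (hgs a)
      have h2 : 0 ≤ √(g a) := Real.sqrt_nonneg _
      nlinarith) (Real.sqrt_nonneg _) R
  -- the map
  set A : Finset ℤ := R.filter fun a => √(g a) ≤ √C with hA
  set Fn : ℤ → (Fin k → ℤ) → ℝ := fun a b => √(g a) *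
    ∏ l : Fin k, (if √(max ((2 : ℝ) ^ a) (t l) / (2 : ℝ) ^ b l) ≤ 1 then
      √(max ((2 : ℝ) ^ a) (t l) / (2 : ℝ) ^ b l) else 0) with hFn
  set Z := (Fintype.piFinset fun _ : Fin (k + 1) => R).filter fun m =>
    ((2 : ℝ) ^ m 0 * ∏ l : Fin k, max ((2 : ℝ) ^ m 0) (t l) ≤ C ∧
        ∀ l : Fin k, max ((2 : ℝ) ^ m 0) (t l) ≤ (2 : ℝ) ^ m l.succ) with hZ
  have hFn0 : ∀ a b, 0 ≤ Fn a b := by
    intro a b
    refine mul_nonneg (Real.sqrt_nonneg _) (prod_nonneg fun l _ => ?_)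
    split_ifs
    · exact Real.sqrt_nonneg _
    · exact le_rfl
  set φ : (Fin (k + 1) → ℤ) → ℤ × (Fin k → ℤ) := fun m => (m 0, fun l => m l.succ) with hφ
  have hφinj : Function.Injective φ := by
    intro m m' h
    funext l
    refine Fin.cases ?_ (fun l => ?_) l
    · exact (Prod.ext_iff.1 h).1
    · exact congrFun (Prod.ext_iff.1 h).2 l
  have hsub : Z.image φ ⊆ A ×ˢ Fintype.piFinset fun _ : Fin k => R := by
    intro p hp
    obtain ⟨m, hm, rfl⟩ := mem_image.1 hp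
    rw [hZ, mem_filter, Fintype.mem_piFinset] at hm
    rw [mem_product, Fintype.mem_piFinset, hA, mem_filter]
    exact ⟨⟨hm.1 0, Real.sqrt_le_sqrt hm.2.1⟩, fun l => hm.1 _⟩
  calc ∑ m ∈ Z, √((2 : ℝ) ^ m 0 * ∏ l : Fin k, max ((2 : ℝ) ^ m 0) (t l)) *
        ∏ l : Fin k, √(max ((2 : ℝ) ^ m 0) (t l) / (2 : ℝ) ^ m l.succ)
      = ∑ m ∈ Z, Fn (φ m).1 (φ m).2 := by
        refine sum_congr rfl fun m hm => ?_
        rw [hZ, mem_filter] at hm
        simp only [hFn, hφ]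
        congr 1
        refine prod_congr rfl fun l _ => ?_
        rw [if_pos]
        refine (Real.sqrt_le_sqrt (show max ((2 : ℝ) ^ m 0) (t l) / (2 : ℝ) ^ m l.succ ≤ 1 from ?_)).trans_eq
          Real.sqrt_one
        rw [div_le_one (by positivity)]
        exact hm.2.2 l
    _ = ∑ p ∈ Z.image φ, Fn p.1 p.2 := (sum_image (f := fun p : ℤ × (Fin k → ℤ) => Fn p.1 p.2)
        fun x _ y _ h => hφinj h).symm
    _ ≤ ∑ p ∈ A ×ˢ Fintype.piFinset fun _ : Fin k => R, Fn p.1 p.2 :=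
        sum_le_sum_of_subset_of_nonneg hsub fun _ _ _ => hFn0 _ _
    _ = ∑ a ∈ A, √(g a) * ∏ l : Fin k, ∑ b ∈ R,
          (if √(max ((2 : ℝ) ^ a) (t l) / (2 : ℝ) ^ b) ≤ 1 then
            √(max ((2 : ℝ) ^ a) (t l) / (2 : ℝ) ^ b) else 0) := by
        rw [sum_product]
        refine sum_congr rfl fun a _ => ?_
        simp only [hFn]
        rw [← mul_sum, prod_univ_sum]
    _ ≤ ∑ a ∈ A, √(g a) * 4 ^ k := by
        refine sum_le_sum fun a _ => mul_le_mul_of_nonneg_left ?_ (Real.sqrt_nonneg _)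
        have h1 : (4 : ℝ) ^ k = ∏ l : Fin k, (4 : ℝ) := by
          rw [prod_const, card_univ, Fintype.card_fin]
        rw [h1]
        refine prod_le_prod (fun l _ => sum_nonneg fun b _ => ?_) fun l _ => ?_
        · split_ifs
          · exact Real.sqrt_nonneg _
          · exact le_rfl
        · rw [← sum_filter]
          exact hinner _ (hν l a)
    _ = (∑ a ∈ A, √(g a)) * 4 ^ k := (sum_mul _ _ _).symm
    _ ≤ (4 * √C) * 4 ^ k := mul_le_mul_of_nonneg_right houter (by positivity)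
    _ = _ := by ring

variable (F : Type) [Field F] [NumberField F]

theorem count_aux (k' n : ℕ) (C₀ : ℝ) (hC₀ : 1 ≤ C₀) :
    ∃ C : ℝ, 0 < C ∧ ∀ (ι : Type) [Fintype ι] [DecidableEq ι] [Nonempty ι],
      Fintype.card ι = n → k' + 1 ≤ n → ∀ θ : ι → ℝ, (∀ i, 0 < θ i) →
      (SW F (k' + 1) θ C₀).Finite ∧ ((SW F (k' + 1) θ C₀).ncard : ℝ) ≤
        C * (∏ i, θ i) ^ ((k' + 1) * finrank ℚ F) := by
  classical
  obtain ⟨K, hK, hbound⟩ := WW_bound F (k' + 1) (Nat.succ_pos _) n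
  set d := finrank ℚ F with hd
  have hd0 : 0 < d := finrank_pos
  set C₁ : ℝ := 2 ^ (k' + 1) * C₀ with hC₁
  have hC₁1 : 1 ≤ C₁ := by
    have : (1 : ℝ) ≤ 2 ^ (k' + 1) := one_le_pow₀ (by norm_num)
    nlinarith
  refine ⟨K * C₁ ^ (n * d) * (4 ^ (k' + 1) * √C₁), by positivity, ?_⟩
  intro ι _ _ _ hcard hkn θ hθ
  -- sorting the columns
  obtain ⟨e₀⟩ : Nonempty (Fin n ≃ ι) := ⟨(Fintype.equivFinOfCardEq hcard).symm⟩
  set e : Fin n ≃ ι := (Tuple.sort (θ ∘ e₀)).trans e₀ with he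
  have hθm : Monotone fun a => θ (e a) := Tuple.monotone_sort (θ ∘ e₀)
  set t : Fin k' → ℝ := fun l => 1 / θ (e (Fin.castLE hkn (Fin.rev l.succ))) with ht
  have ht0 : ∀ l, 0 < t l := fun l => one_div_pos.2 (hθ _)
  -- the range of the sizes
  set a₀ : ℝ := min 1 (1 / θ (e (Fin.castLE hkn (Fin.last k')))) with ha₀
  have ha₀0 : 0 < a₀ := lt_min one_pos (one_div_pos.2 (hθ _))
  obtain ⟨R₁, hR₁⟩ := exists_pow_lt_of_lt_one ha₀0 (show (1 / 2 : ℝ) < 1 by norm_num)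
  obtain ⟨R₂, hR₂⟩ := pow_unbounded_of_one_lt (C₁ / a₀ ^ (k' + 1)) (show (1 : ℝ) < 2 by norm_num)
  set R : Finset ℤ := Icc (-(R₁ : ℤ)) R₂ with hR
  set Z := (Fintype.piFinset fun _ : Fin (k' + 1) => R).filter fun m =>
    ((2 : ℝ) ^ m 0 * ∏ l : Fin k', max ((2 : ℝ) ^ m 0) (t l) ≤ C₁ ∧
        ∀ l : Fin k', max ((2 : ℝ) ^ m 0) (t l) ≤ (2 : ℝ) ^ m l.succ) with hZ
  -- the sizes which occur
  have hocc : ∀ m : Fin (k' + 1) → ℤ, Monotone m →
      (WW (F := F) (k' + 1) θ fun j => (2 : ℝ) ^ m j).Nonempty →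
      ∏ j, (2 : ℝ) ^ m j ≤ C₁ → m ∈ Z ∧ ((WW (F := F) (k' + 1) θ fun j => (2 : ℝ) ^ m j).ncard : ℝ) ≤
        K * C₁ ^ (n * d) * (∏ i, θ i) ^ ((k' + 1) * d) *
        (√((2 : ℝ) ^ m 0 * ∏ l : Fin k', max ((2 : ℝ) ^ m 0) (t l)) *
        ∏ l : Fin k', √(max ((2 : ℝ) ^ m 0) (t l) / (2 : ℝ) ^ m l.succ)) := by
    intro m hm hne hprod
    have hμ : ∀ j, 0 < (fun j => (2 : ℝ) ^ m j) j := fun j => by positivity
    have hμm : Monotone fun j => (2 : ℝ) ^ m j := fun a b hab =>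
      zpow_le_zpow_right₀ (by norm_num) (hm hab)
    have hH := fun i => WW_nonempty hkn e hθ hθm hμ hμm hne i
    have hlow0 : a₀ ≤ (2 : ℝ) ^ m 0 := by
      have h1 := hH (Fin.last k')
      rw [Fin.rev_last] at h1
      refine (min_le_right _ _).trans ?_
      rw [div_le_iff₀ (hθ _)]
      exact h1
    have hlow : ∀ j, a₀ ≤ (2 : ℝ) ^ m j := fun j => hlow0.trans (hμm (Fin.zero_le j))
    have hcond : ∀ l : Fin k', max ((2 : ℝ) ^ m 0) (t l) ≤ (2 : ℝ) ^ m l.succ := by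
      intro l
      refine max_le (hμm (Fin.zero_le _)) ?_
      have h1 := hH (Fin.rev l.succ)
      rw [Fin.rev_rev] at h1
      rw [ht]
      simp only
      rw [div_le_iff₀ (hθ _)]
      exact h1
    have hg : (2 : ℝ) ^ m 0 * ∏ l : Fin k', max ((2 : ℝ) ^ m 0) (t l) ≤ ∏ j, (2 : ℝ) ^ m j := by
      rw [Fin.prod_univ_succ]
      refine mul_le_mul_of_nonneg_left ?_ (by positivity)
      exact prod_le_prod (fun l _ => (ht0 l).le.trans (le_max_right _ _)) fun l _ => hcond l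
    refine ⟨?_, ?_⟩
    · rw [hZ, mem_filter, Fintype.mem_piFinset]
      refine ⟨fun j => ?_, hg.trans hprod, hcond⟩
      rw [hR, mem_Icc]
      constructor
      · by_contra hcon
        push Not at hcon
        have h1 : (2 : ℝ) ^ m j ≤ (2 : ℝ) ^ (-(R₁ : ℤ)) :=
          zpow_le_zpow_right₀ (by norm_num) hcon.le
        have h2 : (2 : ℝ) ^ (-(R₁ : ℤ)) = (1 / 2) ^ R₁ := by
          rw [zpow_neg, zpow_natCast, one_div, inv_pow]
        have := hlow j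
        linarith
      · by_contra hcon
        push Not at hcon
        have h1 : (2 : ℝ) ^ (R₂ : ℤ) ≤ (2 : ℝ) ^ m j := zpow_le_zpow_right₀ (by norm_num) hcon.le
        rw [zpow_natCast] at h1
        rw [← mul_prod_erase univ _ (mem_univ j)] at hprod
        have h2 : a₀ ^ (k' + 1) ≤ ∏ l ∈ univ.erase j, (2 : ℝ) ^ m l := by
          calc a₀ ^ (k' + 1) ≤ a₀ ^ k' :=
                pow_le_pow_of_le_one ha₀0.le (min_le_left _ _) (Nat.le_succ _)
            _ = ∏ l ∈ univ.erase j, a₀ := by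
                rw [prod_const, card_erase_of_mem (mem_univ _), card_univ, Fintype.card_fin]
                rfl
            _ ≤ _ := prod_le_prod (fun l _ => ha₀0.le) fun l _ => hlow l
        have h3 : (2 : ℝ) ^ m j * a₀ ^ (k' + 1) ≤ C₁ :=
          (mul_le_mul_of_nonneg_left h2 (by positivity)).trans hprod
        rw [div_lt_iff₀ (by positivity)] at hR₂
        have h4 : (2 : ℝ) ^ R₂ * a₀ ^ (k' + 1) ≤ (2 : ℝ) ^ m j * a₀ ^ (k' + 1) :=
          mul_le_mul_of_nonneg_right h1 (by positivity)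
        linarith
    · have h1 := hbound ι hkn e θ hθ hθm (fun j => (2 : ℝ) ^ m j) hμ hμm hne
      have h0 : (⟨0, Nat.succ_pos k'⟩ : Fin (k' + 1)) = 0 := rfl
      rw [h0] at h1
      set P : ℝ := ∏ j, (2 : ℝ) ^ m j with hP
      have hP0 : 0 < P := prod_pos fun j _ => by positivity
      set S : ℝ := ∏ l : Fin k', max ((2 : ℝ) ^ m 0) (t l) / (2 : ℝ) ^ m l.succ with hS
      have hSeq : ∏ l : Fin (k' + 1), (if (0 : Fin (k' + 1)) < l then
          max ((2 : ℝ) ^ m 0) (1 / θ (e (Fin.castLE hkn (Fin.rev l)))) / (2 : ℝ) ^ m l else 1) = S := by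
        rw [Fin.prod_univ_succ, if_neg (lt_irrefl _), one_mul]
        refine prod_congr rfl fun l _ => ?_
        rw [if_pos (Fin.succ_pos l)]
      rw [hSeq] at h1
      have hS0 : 0 ≤ S := prod_nonneg fun l _ => div_nonneg ((ht0 l).le.trans (le_max_right _ _))
        (by positivity)
      have hS1 : S ≤ 1 := prod_le_one (fun l _ => div_nonneg ((ht0 l).le.trans (le_max_right _ _))
        (by positivity)) fun l _ => by
          rw [div_le_one (by positivity)]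
          exact hcond l
      have hPn : P ^ (n * d) ≤ C₁ ^ (n * d) * √P := by
        have hnd : n * d ≠ 0 := by
          have : 0 < n := by omega
          positivity
        rcases le_total P 1 with h | h
        · have h2 : P ^ (n * d) ≤ P := pow_le_of_le_one hP0.le h hnd
          have h3 : P ≤ √P := by
            rw [Real.le_sqrt hP0.le hP0.le]
            nlinarith
          have h4 : (1 : ℝ) ≤ C₁ ^ (n * d) := one_le_pow₀ hC₁1
          have h5 := Real.sqrt_nonneg P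
          nlinarith
        · have h2 : P ^ (n * d) ≤ C₁ ^ (n * d) := pow_le_pow_left₀ hP0.le hprod _
          have h3 : 1 ≤ √P := by
            rw [Real.one_le_sqrt]
            exact h
          have h4 : (0 : ℝ) ≤ C₁ ^ (n * d) := by positivity
          nlinarith
      have hSd : S ^ d ≤ S := pow_le_of_le_one hS0 hS1 hd0.ne'
      have hPS : P * S = (2 : ℝ) ^ m 0 * ∏ l : Fin k', max ((2 : ℝ) ^ m 0) (t l) := by
        rw [hP, hS, Fin.prod_univ_succ, prod_div_distrib]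
        have : ∏ l : Fin k', (2 : ℝ) ^ m l.succ ≠ 0 := (prod_pos fun l _ => by positivity).ne'
        field_simp
      have hsq : √P * S = √(P * S) * √S := by
        rw [Real.sqrt_mul hP0.le, mul_assoc, Real.mul_self_sqrt hS0]
      have hsqS : √S = ∏ l : Fin k', √(max ((2 : ℝ) ^ m 0) (t l) / (2 : ℝ) ^ m l.succ) := by
        rw [hS]
        exact Real.sqrt_prod _ fun l _ => div_nonneg ((ht0 l).le.trans (le_max_right _ _))
          (by positivity)
      refine h1.trans ?_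
      have hΘ : 0 ≤ (∏ i, θ i) ^ ((k' + 1) * d) := pow_nonneg (prod_nonneg fun i _ => (hθ i).le) _
      calc K * ((∏ i, θ i) ^ (k' + 1) * P ^ n * S) ^ d
          = K * (∏ i, θ i) ^ ((k' + 1) * d) * (P ^ (n * d) * S ^ d) := by
            rw [mul_pow, mul_pow, ← pow_mul, ← pow_mul]
            ring
        _ ≤ K * (∏ i, θ i) ^ ((k' + 1) * d) * (C₁ ^ (n * d) * √P * S) := by
            refine mul_le_mul_of_nonneg_left ?_ (mul_nonneg hK.le hΘ)
            exact mul_le_mul hPn hSd (by positivity) (by positivity)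
        _ = K * C₁ ^ (n * d) * (∏ i, θ i) ^ ((k' + 1) * d) * (√P * S) := by ring
        _ = _ := by rw [hsq, hPS, hsqS]
  -- covering
  have hcover : SW F (k' + 1) θ C₀ ⊆ ⋃ m ∈ Z.filter (fun m =>
      ((WW (F := F) (k' + 1) θ fun j => (2 : ℝ) ^ m j).ncard : ℝ) ≤
        K * C₁ ^ (n * d) * (∏ i, θ i) ^ ((k' + 1) * d) *
        (√((2 : ℝ) ^ m 0 * ∏ l : Fin k', max ((2 : ℝ) ^ m 0) (t l)) *
        ∏ l : Fin k', √(max ((2 : ℝ) ^ m 0) (t l) / (2 : ℝ) ^ m l.succ))),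
      WW (F := F) (k' + 1) θ fun j => (2 : ℝ) ^ m j := by
    intro W hW
    obtain ⟨m, hm1, hm2, hm3⟩ := SW_sub F (Nat.succ_pos k') (by rw [hcard]; exact hkn) hθ hW
    obtain ⟨h1, h2⟩ := hocc m hm1 ⟨W, hm2⟩ hm3
    rw [Set.mem_iUnion₂]
    exact ⟨m, mem_filter.2 ⟨h1, h2⟩, hm2⟩
  obtain ⟨hfin, hle⟩ := ncard_biUnion_le (Z.filter (fun m =>
      ((WW (F := F) (k' + 1) θ fun j => (2 : ℝ) ^ m j).ncard : ℝ) ≤
        K * C₁ ^ (n * d) * (∏ i, θ i) ^ ((k' + 1) * d) *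
        (√((2 : ℝ) ^ m 0 * ∏ l : Fin k', max ((2 : ℝ) ^ m 0) (t l)) *
        ∏ l : Fin k', √(max ((2 : ℝ) ^ m 0) (t l) / (2 : ℝ) ^ m l.succ))))
      (fun m => WW (F := F) (k' + 1) θ fun j => (2 : ℝ) ^ m j)
      (fun m _ => (WW_count (by rw [hcard]; exact hkn) hθ fun j => by positivity).1)
  refine ⟨hfin.subset hcover, ?_⟩
  have h1 : ((SW F (k' + 1) θ C₀).ncard : ℝ) ≤ _ :=
    Nat.cast_le.2 ((Set.ncard_le_ncard hcover hfin).trans hle)
  refine h1.trans ?_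
  push_cast
  have hΘ : 0 ≤ (∏ i, θ i) ^ ((k' + 1) * d) := pow_nonneg (prod_nonneg fun i _ => (hθ i).le) _
  calc _ ≤ ∑ m ∈ Z.filter _, K * C₁ ^ (n * d) * (∏ i, θ i) ^ ((k' + 1) * d) *
        (√((2 : ℝ) ^ m 0 * ∏ l : Fin k', max ((2 : ℝ) ^ m 0) (t l)) *
        ∏ l : Fin k', √(max ((2 : ℝ) ^ m 0) (t l) / (2 : ℝ) ^ m l.succ)) :=
        sum_le_sum fun m hm => (mem_filter.1 hm).2
    _ ≤ ∑ m ∈ Z, K * C₁ ^ (n * d) * (∏ i, θ i) ^ ((k' + 1) * d) *
        (√((2 : ℝ) ^ m 0 * ∏ l : Fin k', max ((2 : ℝ) ^ m 0) (t l)) *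
        ∏ l : Fin k', √(max ((2 : ℝ) ^ m 0) (t l) / (2 : ℝ) ^ m l.succ)) :=
        sum_le_sum_of_subset_of_nonneg (filter_subset _ _) fun m _ _ => by
          refine mul_nonneg (mul_nonneg (by positivity) hΘ) (by positivity)
    _ = K * C₁ ^ (n * d) * (∏ i, θ i) ^ ((k' + 1) * d) * ∑ m ∈ Z,
        (√((2 : ℝ) ^ m 0 * ∏ l : Fin k', max ((2 : ℝ) ^ m 0) (t l)) *
        ∏ l : Fin k', √(max ((2 : ℝ) ^ m 0) (t l) / (2 : ℝ) ^ m l.succ)) := (mul_sum _ _ _).symm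
    _ ≤ K * C₁ ^ (n * d) * (∏ i, θ i) ^ ((k' + 1) * d) * (4 ^ (k' + 1) * √C₁) := by
        refine mul_le_mul_of_nonneg_left ?_ (mul_nonneg (by positivity) hΘ)
        exact dyadic_sum k' t ht0 C₁ (by linarith) R
    _ = _ := by ring

/-- the number of the spaces with a basis of bounded covolume -/
theorem count {k : ℕ} (hk : 0 < k) {ι : Type} [Fintype ι] [DecidableEq ι]
    (hki : k ≤ Fintype.card ι) (C₀ : ℝ) : ∃ C : ℝ, 0 < C ∧ ∀ θ : ι → ℝ, (∀ i, 0 < θ i) →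
      (SW F k θ C₀).Finite ∧ ((SW F k θ C₀).ncard : ℝ) ≤ C * (∏ i, θ i) ^ (k * finrank ℚ F) := by
  have hne : Nonempty ι := Fintype.card_pos_iff.1 (lt_of_lt_of_le hk hki)
  obtain ⟨k', rfl⟩ : ∃ k', k = k' + 1 := ⟨k - 1, by omega⟩
  obtain ⟨C, hC, h⟩ := count_aux F k' (Fintype.card ι) (max 1 C₀) (le_max_left _ _)
  refine ⟨C, hC, fun θ hθ => ?_⟩
  obtain ⟨h1, h2⟩ := h ι rfl hki θ hθ
  have hsub : SW F (k' + 1) θ C₀ ⊆ SW F (k' + 1) θ (max 1 C₀) := by
    rintro W ⟨B, hB, rfl, hC⟩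
    exact ⟨B, hB, rfl, hC.trans (le_max_right _ _)⟩
  refine ⟨h1.subset hsub, le_trans ?_ h2⟩
  exact_mod_cast Set.ncard_le_ncard hsub h1

end

end Run7.h3.GT
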