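import Mathlib

set_option autoImplicit false
set_option linter.unusedSectionVars false

/-! Minors, monomials in the minors. -/

namespace Run7.h3.GT

open Finset Module

section

variable {R : Type} [CommRing R] {k : ℕ} {ι s : Type}

/-- the minor with the columns `f 0, f 1, ...` -/
def mnr (V : Matrix (Fin k) ι R) (f : Fin k → ι) : R := (V.submatrix id f).det

/-- the number of the columns of the minor `f` which are in the block `b` -/
def dg [DecidableEq s] (β : ι → s) (f : Fin k → ι) (b : s) : ℕ :=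
  (univ.filter fun l => β (f l) = b).card

/-- monomials of degree `d b` in the block `b` -/
def Mon [Fintype ι] [DecidableEq s] (k : ℕ) (β : ι → s) (d : s → ℕ) : Type :=
  {m : (Fin k → ι) → ℕ // ∀ b, ∑ f, m f * dg β f b = d b}

/-- the value of a monomial -/
def mono [Fintype ι] [DecidableEq s] {β : ι → s} {d : s → ℕ} (V : Matrix (Fin k) ι R)
    (m : Mon k β d) : R := ∏ f, mnr V f ^ m.1 f

/-- weight of a minor -/
def wt {M : Type} [CommMonoid M] (β : ι → s) (τ : s → M) (f : Fin k → ι) : M := ∏ l, τ (β (f l))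

variable [Fintype ι] [Fintype s] [DecidableEq s] {β : ι → s} {d : s → ℕ}

theorem sum_dg (f : Fin k → ι) : ∑ b, dg β f b = k := by
  have := card_eq_sum_card_fiberwise (s := (univ : Finset (Fin k))) (t := univ)
    (f := fun l => β (f l)) (fun _ _ => mem_univ _)
  rw [card_univ, Fintype.card_fin] at this
  exact this.symm

theorem wt_eq {M : Type} [CommMonoid M] (τ : s → M) (f : Fin k → ι) :
    wt β τ f = ∏ b, τ b ^ dg β f b := by
  unfold wt dg
  rw [← prod_fiberwise_of_maps_to (s := univ) (t := univ) (g := fun l => β (f l))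
    (fun _ _ => mem_univ _)]
  refine prod_congr rfl fun b _ => ?_
  rw [prod_congr rfl (g := fun _ => τ b) fun l hl => by rw [(mem_filter.1 hl).2], prod_const]

theorem wt_mul {M : Type} [CommMonoid M] (τ τ' : s → M) (f : Fin k → ι) :
    wt β (fun b => τ b * τ' b) f = wt β τ f * wt β τ' f := prod_mul_distrib

theorem sum_mon {N : ℕ} (hk : 0 < k) (hd : ∑ b, d b = k * N) (m : Mon k β d) :
    ∑ f, m.1 f = N := by
  have h1 : ∑ b, ∑ f, m.1 f * dg β f b = k * N := by
    rw [← hd]
    exact sum_congr rfl fun b _ => m.2 b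
  rw [sum_comm] at h1
  have h2 : ∀ f, ∑ b, m.1 f * dg β f b = k * m.1 f := by
    intro f
    rw [← mul_sum, sum_dg, mul_comm]
  rw [sum_congr rfl fun f _ => h2 f, ← mul_sum] at h1
  exact Nat.eq_of_mul_eq_mul_left hk h1

/-- the product of the weights in a monomial -/
theorem prod_wt {M : Type} [CommMonoid M] (τ : s → M) (m : Mon k β d) :
    ∏ f, wt β τ f ^ m.1 f = ∏ b, τ b ^ d b := by
  have h1 : ∀ f : Fin k → ι, wt β τ f ^ m.1 f = ∏ b, τ b ^ (m.1 f * dg β f b) := by
    intro f
    rw [wt_eq, ← prod_pow]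
    refine prod_congr rfl fun b _ => ?_
    rw [← pow_mul, mul_comm]
  rw [prod_congr rfl fun f _ => h1 f, prod_comm]
  refine prod_congr rfl fun b _ => ?_
  rw [prod_pow_eq_pow_sum, m.2 b]

theorem mon_le (hk : 0 < k) (m : Mon k β d) (f : Fin k → ι) : m.1 f ≤ ∑ b, d b := by
  have h1 : ∑ b, ∑ f, m.1 f * dg β f b = ∑ b, d b := sum_congr rfl fun b _ => m.2 b
  rw [sum_comm] at h1
  have h2 : ∀ f, ∑ b, m.1 f * dg β f b = m.1 f * k := by
    intro f
    rw [← mul_sum, sum_dg]
  rw [sum_congr rfl fun f _ => h2 f] at h1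
  rw [← h1]
  exact (Nat.le_mul_of_pos_right _ hk).trans
    (single_le_sum (f := fun f => m.1 f * k) (fun _ _ => Nat.zero_le _) (mem_univ f))

theorem mon_finite (hk : 0 < k) : Finite (Mon k β d) := by
  classical
  have : Set.Finite {m : (Fin k → ι) → ℕ | ∀ f, m f ≤ ∑ b, d b} := by
    have := Set.Finite.pi (t := fun _ : Fin k → ι => {x : ℕ | x ≤ ∑ b, d b})
      (fun _ => Set.finite_le_nat _)
    refine this.subset fun m hm => ?_
    rw [Set.mem_univ_pi]
    exact hm
  exact Set.Finite.to_subtype (this.subset fun m hm => fun f => mon_le hk ⟨m, hm⟩ f)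

/-- scaling of columns -/
theorem mnr_scale (V : Matrix (Fin k) ι R) (τ : ι → R) (f : Fin k → ι) :
    mnr (Matrix.of fun j i => V j i * τ i) f = (∏ l, τ (f l)) * mnr V f := by
  unfold mnr
  rw [← Matrix.det_mul_row]
  congr 1
  ext i j
  simp [mul_comm]

/-- change of rows -/
theorem mnr_mul (g : Matrix (Fin k) (Fin k) R) (V : Matrix (Fin k) ι R) (f : Fin k → ι) :
    mnr (g * V) f = g.det * mnr V f := by
  unfold mnr
  rw [← Matrix.det_mul]
  congr 1

theorem mnr_zero (V : Matrix (Fin k) ι R) (f : Fin k → ι) (hf : ¬ Function.Injective f) :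
    mnr V f = 0 := by
  rw [Function.not_injective_iff] at hf
  obtain ⟨a, b, h1, h2⟩ := hf
  exact Matrix.det_zero_of_column_eq h2 fun j => by simp [h1]

end

end Run7.h3.GT
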