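import Pool.Agent.Run7.h3.GT.Key1

set_option autoImplicit false
set_option linter.unusedSectionVars false
set_option linter.unusedVariables false

/-! Every point has a short integral representative. -/

namespace Run7.h3.GT

open Finset Module NumberField FractionalIdeal
open scoped nonZeroDivisors

section

variable {F : Type} [Field F] [NumberField F] {k : ℕ} {ι s : Type} [Fintype ι] [DecidableEq ι]
  [Fintype s] [DecidableEq s] {β : ι → s} {d : s → ℕ}

theorem w_wt (w : InfinitePlace F) (t : s → F) (f : Fin k → ι) :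
    w (wt β t f) = wt β (fun b => w (t b)) f := by
  unfold wt
  exact map_prod w _ _

theorem wt_inv {M : Type} [DivisionCommMonoid M] (t : s → M) (f : Fin k → ι) :
    wt β (fun b => (t b)⁻¹) f = (wt β t f)⁻¹ := by
  unfold wt
  exact prod_inv_distrib _

/-- the relation between the content and the scaling -/
theorem cnt_scale (V : Matrix (Fin k) ι F) (g : Matrix (Fin k) (Fin k) F) (a : s → FI F)
    (t : s → F) (ht : ∀ b, t b ≠ 0) :
    cnt β (g * (Matrix.of fun j i => V j i * (t (β i))⁻¹)) (fun b => a b * (sp (t b))⁻¹) =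
      sp g.det * cnt β V a := by
  unfold cnt
  rw [mul_sum]
  refine sum_congr rfl fun f _ => ?_
  rw [mnr_mul, mnr_scale V (fun i => (t (β i))⁻¹) f]
  have h1 : ∏ l, (t (β (f l)))⁻¹ = (wt β t f)⁻¹ := wt_inv t f
  have h2 : wt β (fun b => a b * (sp (t b))⁻¹) f = wt β a f * (sp (wt β t f))⁻¹ := by
    rw [wt_mul]
    congr 1
    rw [wt_inv (fun b => sp (t b)) f, sp_wt]
  have h3 : wt β t f ≠ 0 := prod_ne_zero_iff.2 fun _ _ => ht _
  have h4 := sp_ne_zero h3
  rw [h1, h2, sp_mul, sp_mul, sp_inv, mul_inv, inv_inv]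
  have h5 : (sp (wt β t f))⁻¹ * sp (wt β t f) = 1 := inv_mul_cancel₀ h4
  calc sp g.det * ((sp (wt β t f))⁻¹ * sp (mnr V f)) * ((wt β a f)⁻¹ * sp (wt β t f))
      = sp g.det * (sp (mnr V f) * (wt β a f)⁻¹) * ((sp (wt β t f))⁻¹ * sp (wt β t f)) := by ring
    _ = _ := by rw [h5, mul_one]

theorem sum_mult_pow (x : ℝ) : ∏ w : InfinitePlace F, x ^ w.mult = x ^ finrank ℚ F := by
  rw [prod_pow_eq_pow_sum, InfinitePlace.sum_mult_eq]

theorem key (F : Type) [Field F] [NumberField F] {k N : ℕ} {ι s : Type} [Fintype ι]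
    [DecidableEq ι] [Fintype s] [DecidableEq s] (β : ι → s) (d : s → ℕ) (hk : 0 < k) (hN : 0 < N)
    (hki : k ≤ Fintype.card ι) (hd : ∑ b, d b = k * N)
    (hn : ∀ b, d b ≤ (univ.filter fun i => β i = b).card * N) :
    ∃ C : ℝ, 0 < C ∧ ∀ V : Matrix (Fin k) ι F, Gen V →
      ∃ (t : s → F) (lam : s → ℝ) (B : Matrix (Fin k) ι (𝓞 F)) (g : Matrix (Fin k) (Fin k) F),
        (∀ b, t b ≠ 0) ∧ (∀ b, 0 < lam b) ∧ g.det ≠ 0 ∧
        (∀ j i, ((B j i : 𝓞 F) : F) = (g * V) j i * t (β i)) ∧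
        ∏ j, nrm (fun i => lam (β i)) (fun i => ((B j i : 𝓞 F) : F)) ≤ C ∧
        ∏ b, (lam b ^ finrank ℚ F) ^ d b ≤
          C * Height.mulHeight (fun m : Mon k β d => mono V m) := by
  classical
  have hιne : Nonempty ι := Fintype.card_pos_iff.1 (lt_of_lt_of_le hk hki)
  obtain ⟨C₁, hC₁, harch⟩ := arch (β := β) hk hN hki hd hn
  obtain ⟨C₂, hC₂, D₂, hD₂, htl⟩ := tlem F
  obtain ⟨C₃, hC₃, D₃, hD₃, hred⟩ := red F k
  have hfin := mon_finite (k := k) (β := β) (d := d) hk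
  have hft := Fintype.ofFinite (Mon k β d)
  set n := finrank ℚ F with hndef
  have hn0 : 0 < n := finrank_pos
  set C₄ : ℝ := C₃ * ((D₃ : ℝ) ^ (k * n) * (C₂ ^ k) ^ n) with hC₄
  have hD₃' : (0 : ℝ) < D₃ := by exact_mod_cast hD₃
  have hD₂' : (0 : ℝ) < D₂ := by exact_mod_cast hD₂
  have hC₄0 : 0 < C₄ := by positivity
  refine ⟨(D₂ : ℝ) ^ k * max 1 C₄ + C₁ ^ n, by positivity, fun V hV => ?_⟩
  -- the archimedean data
  have hVw : ∀ w : InfinitePlace F, Gen (V.map w.embedding) := by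
    intro w f hf
    rw [← mnr_map]
    exact (map_ne_zero_iff _ w.embedding.injective).2 (hV f hf)
  have hA := fun w : InfinitePlace F => harch (V.map w.embedding) (hVw w)
  choose Λ γ hΛ hγ hbd m hm using hA
  have hbd' : ∀ (w : InfinitePlace F) f, w (mnr V f) ≤ γ w * wt β (Λ w) f := by
    intro w f
    have h1 := hbd w f
    rwa [← mnr_map, w.norm_embedding_eq] at h1
  obtain ⟨m₀, hm₀⟩ := gen_mono hk hki hd hn V hV
  have hbddm : ∀ w : InfinitePlace F, BddAbove (Set.range fun m : Mon k β d => w (mono V m)) :=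
    fun w => (Set.finite_range _).bddAbove
  have hm' : ∀ w : InfinitePlace F, γ w ^ N * ∏ b, Λ w b ^ d b ≤
      C₁ * ⨆ m : Mon k β d, w (mono V m) := by
    intro w
    have h1 := hm w
    rw [← mono_map, w.norm_embedding_eq] at h1
    exact h1.trans (mul_le_mul_of_nonneg_left (le_ciSup (hbddm w) (m w)) hC₁.le)
  -- the finite data
  obtain ⟨a, ha, hopt⟩ := exists_opt (β := β) hk hki hd V hV ⟨m₀, hm₀⟩
  obtain ⟨e⟩ := Function.Embedding.nonempty_of_card_le (α := Fin k) (β := ι) (by simpa using hki)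
  have hVe : mnr V e ≠ 0 := hV _ e.injective
  have hc0 : cnt β V a ≠ 0 := cnt_ne_zero ha hVe
  have hht := hid (fun m : Mon k β d => mono V m) ⟨m₀, hm₀⟩
  have hhh : (∑ m : Mon k β d, sp (mono V m)) = ff β d N V a := hopt
  rw [hhh] at hht
  -- the global invariants
  set LLb : s → ℝ := fun b => (∏ w, Λ w b ^ w.mult) / nm (a b) with hLLb
  have hLL0 : ∀ b, 0 < LLb b := fun b =>
    div_pos (prod_pos fun w _ => pow_pos (hΛ w b) _) (nm_pos (ha b))
  set lam₀ : s → ℝ := fun b => LLb b ^ ((n : ℝ)⁻¹) with hlam₀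
  have hlam0 : ∀ b, 0 < lam₀ b := fun b => Real.rpow_pos_of_pos (hLL0 b) _
  have hlamn : ∀ b, lam₀ b ^ n = LLb b := fun b =>
    Real.rpow_inv_natCast_pow (hLL0 b).le hn0.ne'
  set G : ℝ := (∏ w, γ w ^ w.mult) / nm (cnt β V a) with hG
  have hG0 : 0 < G := div_pos (prod_pos fun w _ => pow_pos (hγ w) _) (nm_pos hc0)
  have hkn : k * n ≠ 0 := (Nat.mul_pos hk hn0).ne'
  set κ : ℝ := G ^ (((k * n : ℕ) : ℝ)⁻¹) with hκ
  have hκ0 : 0 < κ := Real.rpow_pos_of_pos hG0 _
  have hκn : κ ^ (k * n) = G := Real.rpow_inv_natCast_pow hG0.le hkn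
  -- the height
  have hI1 : G ^ N * ∏ b, LLb b ^ d b ≤ C₁ ^ n * Height.mulHeight (fun m : Mon k β d => mono V m) := by
    rw [hht, ff, nm_mul, nm_pow, nm_prod]
    have e1 : ∏ b, nm (a b ^ d b) = ∏ b, nm (a b) ^ d b := prod_congr rfl fun b _ => nm_pow _ _
    rw [e1]
    have e2 : G ^ N * ∏ b, LLb b ^ d b = (∏ w : InfinitePlace F,
        (γ w ^ N * ∏ b, Λ w b ^ d b) ^ w.mult) / (nm (cnt β V a) ^ N * ∏ b, nm (a b) ^ d b) := by
      rw [hG, hLLb]
      simp only [div_pow]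
      rw [prod_div_distrib, div_mul_div_comm]
      congr 1
      simp only [mul_pow]
      rw [prod_mul_distrib]
      congr 1
      · rw [← prod_pow]
        refine prod_congr rfl fun w _ => ?_
        rw [← pow_mul, ← pow_mul, mul_comm]
      · simp only [← prod_pow]
        rw [prod_comm]
        refine prod_congr rfl fun w _ => prod_congr rfl fun b _ => ?_
        rw [← pow_mul, ← pow_mul, mul_comm]
    rw [e2, ← mul_div_assoc]
    have hden : 0 < nm (cnt β V a) ^ N * ∏ b, nm (a b) ^ d b :=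
      mul_pos (pow_pos (nm_pos hc0) _) (prod_pos fun b _ => pow_pos (nm_pos (ha b)) _)
    refine div_le_div_of_nonneg_right ?_ hden.le
    rw [hndef, ← sum_mult_pow (F := F), ← prod_mul_distrib]
    refine prod_le_prod (fun w _ => pow_nonneg (mul_nonneg (pow_nonneg (hγ w).le _)
      (prod_nonneg fun b _ => pow_nonneg (hΛ w b).le _)) _) fun w _ => ?_
    rw [← mul_pow]
    exact pow_le_pow_left₀ (mul_nonneg (pow_nonneg (hγ w).le _)
      (prod_nonneg fun b _ => pow_nonneg (hΛ w b).le _)) (hm' w) _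
  -- balancing
  have hT := fun b => htl (a b) (ha b) (fun w => Λ w b) (lam₀ b) (fun w => hΛ w b) (hlam0 b)
    (hlamn b)
  choose t₀ ht0 htw hta hint using hT
  set V' : Matrix (Fin k) ι F := Matrix.of fun j i => V j i * (t₀ (β i))⁻¹ with hV'
  set a' : s → FI F := fun b => a b * (sp (t₀ b))⁻¹ with ha'
  have ha'0 : ∀ b, a' b ≠ 0 := fun b => mul_ne_zero (ha b) (inv_ne_zero (sp_ne_zero (ht0 b)))
  have ha'1 : ∀ b, 1 ≤ a' b := by
    intro b
    have h1 := mul_le_mul' (hta b) (le_refl (sp (t₀ b))⁻¹)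
    rwa [mul_inv_cancel₀ (sp_ne_zero (ht0 b))] at h1
  have hmV' : ∀ f : Fin k → ι, mnr V' f = (wt β t₀ f)⁻¹ * mnr V f := by
    intro f
    rw [hV', mnr_scale V (fun i => (t₀ (β i))⁻¹) f]
    congr 1
    exact wt_inv t₀ f
  have hwt0 : ∀ f : Fin k → ι, wt β t₀ f ≠ 0 := fun f => prod_ne_zero_iff.2 fun _ _ => ht0 _
  have hV'e : mnr V' e ≠ 0 := by
    rw [hmV']
    exact mul_ne_zero (inv_ne_zero (hwt0 _)) hVe
  set θ₀ : ι → ℝ := fun i => lam₀ (β i) with hθ₀
  have hθ0 : ∀ i, 0 < θ₀ i := fun i => hlam0 _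
  obtain ⟨B, hBM, ⟨f₁, hf₁⟩, hgen, hprod⟩ := hred ι θ₀ hθ0 (lat V' fun i => a' (β i))
    (lat_low hD₂ (fun i x hx => hint (β i) x hx) hθ0) (lat_rank hV'e fun i => ha'1 _)
  have hBc := fun j => (hBM j).2
  choose c hc using hBc
  set g : Matrix (Fin k) (Fin k) F := Matrix.of c with hg
  have hBg : B = g * V' := by
    ext j i
    rw [hc j, Finset.sum_apply, Matrix.mul_apply]
    rfl
  have hmB : ∀ f : Fin k → ι, mnr B f = g.det * ((wt β t₀ f)⁻¹ * mnr V f) := by
    intro f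
    rw [hBg, mnr_mul, hmV']
  have hgdet : g.det ≠ 0 := by
    intro h
    apply hf₁
    rw [hmB, h, zero_mul]
  have hBgen : Gen B := by
    intro f hf
    rw [hmB]
    exact mul_ne_zero hgdet (mul_ne_zero (inv_ne_zero (hwt0 _)) (hV f hf))
  -- the content of B
  have hcB : cnt β B a' = sp g.det * cnt β V a := by
    rw [hBg]
    exact cnt_scale V g a t₀ ht0
  have hg3 := g3 (β := β) hki B hBgen ha'0 D₃ hD₃ (by
    intro x hx hx2
    obtain ⟨c', hc'⟩ := hx2
    refine hgen x ⟨hx, ?_⟩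
    refine ⟨fun l => ∑ j, c' j * g j l, ?_⟩
    rw [hc']
    funext i
    rw [Finset.sum_apply, Finset.sum_apply]
    simp only [Pi.smul_apply, smul_eq_mul, hBg, Matrix.mul_apply, mul_sum, sum_mul]
    rw [sum_comm]
    refine sum_congr rfl fun l _ => sum_congr rfl fun j _ => ?_
    ring)
  have hDF : (D₃ : F) ^ k ≠ 0 := pow_ne_zero _ (by exact_mod_cast hD₃.ne')
  have hnmD : nm (sp ((D₃ : F) ^ k)) = (D₃ : ℝ) ^ (k * n) := by
    rw [nm_sp]
    have h1 : ∀ w : InfinitePlace F, w ((D₃ : F) ^ k) = (D₃ : ℝ) ^ k := by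
      intro w
      rw [map_pow]
      have h2 := place_rat w (D₃ : ℚ)
      push_cast at h2
      rw [h2, abs_of_nonneg (Nat.cast_nonneg _)]
    rw [prod_congr rfl fun w _ => by rw [h1 w], sum_mult_pow, ← pow_mul]
  have hdetle : nm (sp g.det) * nm (cnt β V a) ≤ (D₃ : ℝ) ^ (k * n) := by
    rw [← nm_mul, ← hcB, ← hnmD]
    exact nm_le (sp_ne_zero hDF) hg3
  -- the minors of B
  have hPl : ∀ w : InfinitePlace F, Pl θ₀ B w ≤ w g.det * (γ w * C₂ ^ k) := by
    intro w
    refine Pl_le hθ0 B w fun f => ?_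
    have hwf : 0 < w (wt β t₀ f) := w.pos_iff.2 (hwt0 f)
    rw [hmB, map_mul, map_mul, map_inv₀, mul_assoc]
    refine mul_le_mul_of_nonneg_left ?_ (apply_nonneg w _)
    rw [inv_mul_le_iff₀ hwf]
    refine (hbd' w f).trans ?_
    have h1 : wt β (Λ w) f ≤ w (wt β t₀ f) * (C₂ ^ k * ∏ c, θ₀ (f c)) := by
      rw [w_wt]
      unfold wt
      have h2 : C₂ ^ k = ∏ _l : Fin k, C₂ := by
        rw [prod_const, card_univ, Fintype.card_fin]
      rw [h2, ← prod_mul_distrib, ← prod_mul_distrib]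
      refine prod_le_prod (fun l _ => (hΛ w _).le) fun l _ => ?_
      have h3 := (htw (β (f l)) w).2
      rw [div_le_iff₀ (hlam0 _)] at h3
      calc Λ w (β (f l)) ≤ C₂ * w (t₀ (β (f l))) * lam₀ (β (f l)) := h3
        _ = _ := by
          simp only [hθ₀]
          ring
    calc γ w * wt β (Λ w) f ≤ γ w * (w (wt β t₀ f) * (C₂ ^ k * ∏ c, θ₀ (f c))) :=
          mul_le_mul_of_nonneg_left h1 (hγ w).le
      _ = _ := by ring
  have hPlprod : ∏ w : InfinitePlace F, Pl θ₀ B w ^ w.mult ≤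
      (D₃ : ℝ) ^ (k * n) * (C₂ ^ k) ^ n * G := by
    calc ∏ w : InfinitePlace F, Pl θ₀ B w ^ w.mult
        ≤ ∏ w : InfinitePlace F, (w g.det * (γ w * C₂ ^ k)) ^ w.mult :=
          prod_le_prod (fun w _ => pow_nonneg (Pl_nonneg hθ0 _ _) _)
            fun w _ => pow_le_pow_left₀ (Pl_nonneg hθ0 _ _) (hPl w) _
      _ = nm (sp g.det) * ((∏ w : InfinitePlace F, γ w ^ w.mult) * (C₂ ^ k) ^ n) := by
          simp only [mul_pow]
          rw [prod_mul_distrib, prod_mul_distrib, nm_sp, ← sum_mult_pow (F := F)]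
      _ = (nm (sp g.det) * nm (cnt β V a)) * ((C₂ ^ k) ^ n * G) := by
          rw [hG]
          have := (nm_pos hc0).ne'
          field_simp
      _ ≤ (D₃ : ℝ) ^ (k * n) * ((C₂ ^ k) ^ n * G) :=
          mul_le_mul_of_nonneg_right hdetle (by positivity)
      _ = _ := by ring
  -- the final norms
  have hP0 : ∏ j, nrm θ₀ (B j) ^ n ≤ C₄ * G := by
    refine hprod.trans ?_
    calc _ ≤ C₃ * ((D₃ : ℝ) ^ (k * n) * (C₂ ^ k) ^ n * G) :=
          mul_le_mul_of_nonneg_left hPlprod hC₃.le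
      _ = _ := by rw [hC₄]; ring
  set lam : s → ℝ := fun b => κ * lam₀ b with hlam
  have hlampos : ∀ b, 0 < lam b := fun b => mul_pos hκ0 (hlam0 b)
  have hθpos : ∀ i, 0 < (fun i => lam (β i)) i := fun i => hlampos _
  have hnrm : ∀ x : ι → F, nrm (fun i => lam (β i)) x ≤ nrm θ₀ x / κ := by
    intro x
    refine nrm_le hθpos x fun w i => ?_
    have h1 := le_nrm hθ0 x w i
    have h2 : nrm θ₀ x / κ * lam (β i) = nrm θ₀ x * θ₀ i := by
      simp only [hlam, hθ₀]
      field_simp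
    rw [h2]
    exact h1
  set P : ℝ := ∏ j, nrm θ₀ (B j) / κ with hPdef
  have hPnn : 0 ≤ P := prod_nonneg fun j _ => div_nonneg (nrm_nonneg hθ0 _) hκ0.le
  have hPn : P ^ n ≤ C₄ := by
    rw [hPdef, prod_div_distrib, prod_const, card_univ, Fintype.card_fin, div_pow, ← pow_mul, hκn,
      div_le_iff₀ hG0, ← prod_pow]
    exact hP0
  have hPle : P ≤ max 1 C₄ := by
    by_contra hcon
    push Not at hcon
    have h1 : 1 ≤ P := (le_max_left _ _).trans hcon.le
    have h2 : P ≤ P ^ n := le_self_pow₀ h1 hn0.ne'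
    have h3 := (le_max_right 1 C₄).trans_lt hcon
    linarith
  -- integral entries
  have hBint : ∀ j i, ∃ y : 𝓞 F, (D₂ : F) * B j i = (y : F) := fun j i =>
    hint (β i) _ ((hBM j).1 i)
  choose B' hB' using hBint
  refine ⟨fun b => (t₀ b)⁻¹, lam, Matrix.of B', (D₂ : F) • g, fun b => inv_ne_zero (ht0 b),
    hlampos, ?_, ?_, ?_, ?_⟩
  · rw [Matrix.det_smul]
    exact mul_ne_zero (pow_ne_zero _ (by exact_mod_cast hD₂.ne')) hgdet
  · intro j i
    rw [Matrix.of_apply, ← hB', hBg, Matrix.smul_mul, Matrix.smul_apply, Matrix.mul_apply,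
      Matrix.mul_apply, smul_eq_mul, mul_assoc, sum_mul]
    congr 1
    refine sum_congr rfl fun l _ => ?_
    rw [hV', Matrix.of_apply, mul_assoc]
  · have h1 : ∏ j, nrm (fun i => lam (β i)) (fun i => ((Matrix.of B' j i : 𝓞 F) : F)) ≤
        ∏ j : Fin k, ((D₂ : ℝ) * (nrm θ₀ (B j) / κ)) := by
      refine prod_le_prod (fun j _ => nrm_nonneg hθpos _) fun j _ => ?_
      have h2 : (fun i => ((Matrix.of B' j i : 𝓞 F) : F)) = (D₂ : F) • B j := by
        funext i
        rw [Matrix.of_apply, ← hB']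
        rfl
      rw [h2]
      refine (nrm_smul hθpos _ _ (B := D₂) fun w => ?_).trans
        (mul_le_mul_of_nonneg_left (hnrm _) hD₂'.le)
      have h3 := place_rat w (D₂ : ℚ)
      push_cast at h3
      rw [h3, abs_of_nonneg (Nat.cast_nonneg _)]
    refine h1.trans ?_
    rw [prod_mul_distrib, prod_const, card_univ, Fintype.card_fin]
    have h2 : (D₂ : ℝ) ^ k * P ≤ (D₂ : ℝ) ^ k * max 1 C₄ :=
      mul_le_mul_of_nonneg_left hPle (by positivity)
    have h3 : 0 < C₁ ^ n := by positivity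
    rw [← hPdef]
    linarith
  · have h1 : ∏ b, (lam b ^ n) ^ d b = G ^ N * ∏ b, LLb b ^ d b := by
      have h2 : ∀ b, (lam b ^ n) ^ d b = (κ ^ n) ^ d b * LLb b ^ d b := by
        intro b
        rw [hlam, mul_pow, mul_pow, hlamn]
      rw [prod_congr rfl fun b _ => h2 b, prod_mul_distrib, prod_pow_eq_pow_sum, hd, ← pow_mul,
        ← hκn, ← pow_mul]
      congr 2
      ring
    rw [h1]
    refine hI1.trans (mul_le_mul_of_nonneg_right ?_ ?_)
    · have : 0 ≤ (D₂ : ℝ) ^ k * max 1 C₄ := by positivity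
      linarith
    · rw [hht]
      refine div_nonneg (prod_nonneg fun w _ => pow_nonneg ?_ _) (nm_nonneg _)
      exact Real.iSup_nonneg fun m => apply_nonneg w _

end

end Run7.h3.GT
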