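import Pool.Agent.Run7.h3.GT.Cnt3
import Pool.Agent.Run7.h3.GT.Key2
import Pool.Agent.Run7.h3.GT.Cells

set_option autoImplicit false
set_option linter.unusedSectionVars false
set_option linter.unusedVariables false

/-! The count of the points of bounded height. -/

namespace Run7.h3.GT

open Finset Module NumberField

section

variable {F : Type} [Field F] [NumberField F] {k : ℕ} {ι s : Type} [Fintype ι] [DecidableEq ι]
  [Fintype s] [DecidableEq s]

/-- Leibniz -/
theorem det_bound (w : InfinitePlace F) (M : Matrix (Fin k) (Fin k) F) {a b : Fin k → ℝ}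
    (ha : ∀ j, 0 ≤ a j) (hb : ∀ l, 0 ≤ b l) (h : ∀ j l, w (M j l) ≤ a j * b l) :
    w M.det ≤ (k.factorial : ℝ) * ((∏ j, a j) * ∏ l, b l) := by
  classical
  rw [Matrix.det_apply]
  refine (place_sum_le w univ _).trans ?_
  have h1 : ∀ σ ∈ (univ : Finset (Equiv.Perm (Fin k))),
      w (Equiv.Perm.sign σ • ∏ i, M (σ i) i) ≤ (∏ j, a j) * ∏ l, b l := by
    intro σ _
    have h2 : w (Equiv.Perm.sign σ • ∏ i, M (σ i) i) = ∏ i, w (M (σ i) i) := by
      rcases Int.units_eq_one_or (Equiv.Perm.sign σ) with h | h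
      · rw [h, one_smul, map_prod w]
      · rw [h, Units.smul_def, Units.val_neg, Units.val_one, neg_smul, one_smul, ← map_prod w]
        exact w.1.map_neg _
    rw [h2, ← Equiv.prod_comp σ a, ← prod_mul_distrib]
    exact prod_le_prod (fun i _ => apply_nonneg w _) fun i _ => h _ _
  refine (sum_le_sum h1).trans ?_
  rw [sum_const, card_univ, Fintype.card_perm, Fintype.card_fin, nsmul_eq_mul]

theorem nrm_anti [Nonempty ι] {θ θ' : ι → ℝ} (hθ : ∀ i, 0 < θ i) (h : ∀ i, θ i ≤ θ' i) (x : ι → F) :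
    nrm θ' x ≤ nrm θ x :=
  nrm_le (fun i => (hθ i).trans_le (h i)) x fun w i =>
    (le_nrm hθ x w i).trans (mul_le_mul_of_nonneg_left (h i) (nrm_nonneg hθ x))

theorem nrm_prod_anti [Nonempty ι] {θ θ' : ι → ℝ} (hθ : ∀ i, 0 < θ i) (h : ∀ i, θ i ≤ θ' i)
    (B : Matrix (Fin k) ι (𝓞 F)) {C : ℝ} (hC : ∏ j, nrm θ (fun i => ((B j i : 𝓞 F) : F)) ≤ C) :
    ∏ j, nrm θ' (fun i => ((B j i : 𝓞 F) : F)) ≤ C :=
  (prod_le_prod (fun j _ => nrm_nonneg (fun i => (hθ i).trans_le (h i)) _) fun j _ =>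
    nrm_anti hθ h _).trans hC

/-- the minors bound the scaling from below -/
theorem low [Nonempty ι] {θ : ι → ℝ} (hθ : ∀ i, 0 < θ i) {C : ℝ} {B : Matrix (Fin k) ι (𝓞 F)} (hB : Gen B)
    (hC : ∏ j, nrm θ (fun i => ((B j i : 𝓞 F) : F)) ≤ C) {f : Fin k → ι} (hf : Function.Injective f) :
    1 ≤ (k.factorial : ℝ) * (C * ∏ l, θ (f l)) := by
  obtain ⟨w, hw⟩ := exists_one_le (F := F) (mnr B f) (hB f hf)
  refine hw.trans ?_
  have h1 : ((mnr B f : 𝓞 F) : F) = mnr (B.map (algebraMap (𝓞 F) F)) f :=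
    mnr_map (algebraMap (𝓞 F) F) B f
  have h2 := det_bound w ((B.map (algebraMap (𝓞 F) F)).submatrix id f)
    (a := fun j => nrm θ (fun i => ((B j i : 𝓞 F) : F))) (b := fun l => θ (f l))
    (fun j => nrm_nonneg hθ _) (fun l => (hθ _).le)
    (fun j l => le_nrm hθ (fun i => ((B j i : 𝓞 F) : F)) w (f l))
  rw [h1]
  refine h2.trans ?_
  refine mul_le_mul_of_nonneg_left ?_ (Nat.cast_nonneg _)
  exact mul_le_mul_of_nonneg_right hC (prod_nonneg fun l _ => (hθ _).le)

variable {K : Type} [Field K]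

/-- matrices which give the same point -/
def Rel (β : ι → s) (V V' : Matrix (Fin k) ι K) : Prop :=
  ∃ (g : Matrix (Fin k) (Fin k) K) (t : s → K), g.det ≠ 0 ∧ (∀ b, t b ≠ 0) ∧
    V' = g * V * Matrix.diagonal fun i => t (β i)

variable {β : ι → s}

theorem Rel.symm {V V' : Matrix (Fin k) ι K} (h : Rel β V V') : Rel β V' V := by
  obtain ⟨g, t, hg, ht, rfl⟩ := h
  refine ⟨g⁻¹, fun b => (t b)⁻¹, ?_, fun b => inv_ne_zero (ht b), ?_⟩
  · rw [Matrix.det_nonsing_inv]
    exact fun h => hg (by simpa using h)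
  · have h1 : g⁻¹ * g = 1 := Matrix.nonsing_inv_mul g (isUnit_iff_ne_zero.2 hg)
    have h2 : (Matrix.diagonal fun i => t (β i)) * (Matrix.diagonal fun i => (t (β i))⁻¹) =
        (1 : Matrix ι ι K) := by
      rw [Matrix.diagonal_mul_diagonal, ← Matrix.diagonal_one]
      congr 1
      funext i
      exact mul_inv_cancel₀ (ht _)
    calc V = g⁻¹ * g * V * ((Matrix.diagonal fun i => t (β i)) *
          (Matrix.diagonal fun i => (t (β i))⁻¹)) := by
          rw [h1, h2, Matrix.one_mul, Matrix.mul_one]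
      _ = _ := by simp only [Matrix.mul_assoc]

theorem Rel.trans {V V' V'' : Matrix (Fin k) ι K} (h : Rel β V V') (h' : Rel β V' V'') :
    Rel β V V'' := by
  obtain ⟨g, t, hg, ht, rfl⟩ := h
  obtain ⟨g', t', hg', ht', rfl⟩ := h'
  refine ⟨g' * g, fun b => t b * t' b, ?_, fun b => mul_ne_zero (ht b) (ht' b), ?_⟩
  · rw [Matrix.det_mul]
    exact mul_ne_zero hg' hg
  · have h2 : (Matrix.diagonal fun i => t (β i)) * (Matrix.diagonal fun i => t' (β i)) =
        (Matrix.diagonal fun i => t (β i) * t' (β i) : Matrix ι ι K) :=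
      Matrix.diagonal_mul_diagonal _ _
    rw [← h2]
    simp only [Matrix.mul_assoc]

theorem Rel.eq {V V' : Matrix (Fin k) ι K} (h : Rel β V V') :
    {V'' | Rel β V V''} = {V'' | Rel β V' V''} := by
  ext V''
  exact ⟨fun h' => h.symm.trans h', fun h' => h.trans h'⟩

/-- two matrices with the same row space -/
theorem rel_of_rsp (hki : k ≤ Fintype.card ι) {B B' : Matrix (Fin k) ι (𝓞 F)} (hB : Gen B)
    (h : rsp B = rsp B') :
    Rel β (B'.map (algebraMap (𝓞 F) F)) (B.map (algebraMap (𝓞 F) F)) := by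
  have h1 : ∀ j, ∃ c : Fin k → F, ∑ l, c l • (B'.map (algebraMap (𝓞 F) F)) l =
      (B.map (algebraMap (𝓞 F) F)) j := by
    intro j
    rw [← Submodule.mem_span_range_iff_exists_fun]
    have h2 : (B.map (algebraMap (𝓞 F) F)) j ∈ rsp B := Submodule.subset_span ⟨j, rfl⟩
    rw [h] at h2
    exact h2
  choose c hc using h1
  have h2 : B.map (algebraMap (𝓞 F) F) = Matrix.of c * B'.map (algebraMap (𝓞 F) F) := by
    funext j i
    have h3 := congrFun (hc j) i
    rw [Matrix.mul_apply, ← h3, Finset.sum_apply]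
    rfl
  refine ⟨Matrix.of c, fun _ => 1, ?_, fun _ => one_ne_zero, ?_⟩
  · intro h0
    obtain ⟨f⟩ := Function.Embedding.nonempty_of_card_le (α := Fin k) (β := ι) (by simpa using hki)
    have h3 := gen_map (hB f f.injective)
    rw [h2, mnr_mul, h0, zero_mul] at h3
    exact h3 rfl
  · rw [← h2]
    have h3 : (Matrix.diagonal fun _ => 1 : Matrix ι ι F) = 1 := Matrix.diagonal_one
    rw [h3, Matrix.mul_one]

/-- the points of height at most `T` -/
def pts (F : Type) [Field F] [NumberField F] (k : ℕ) (β : ι → s) (d : s → ℕ) (T : ℝ) :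
    Set (Set (Matrix (Fin k) ι F)) :=
  {P | ∃ V : Matrix (Fin k) ι F, Gen V ∧ P = {V' | Rel β V V'} ∧
    Height.mulHeight (fun m : Mon k β d => mono V m) ≤ T}

theorem main (F : Type) [Field F] [NumberField F] {k : ℕ} {ι s : Type} [Fintype ι] [DecidableEq ι]
    [Fintype s] [DecidableEq s] (hk : 0 < k) (hki : k ≤ Fintype.card ι) (β : ι → s)
    (hβ : Function.Surjective β) (d : s → ℕ) (hdvd : k ∣ ∑ c, d c) (hd0 : ∀ b, 0 < d b)
    (hd : ∀ b, k * d b < (univ.filter fun i => β i = b).card * ∑ c, d c) {a : ℝ} (ha : 0 < a)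
    (hE : EffC k β fun b => a * d b - k * ((univ.filter fun i => β i = b).card : ℝ)) :
    ∃ C : ℝ, 0 < C ∧ ∀ T : ℝ, 1 ≤ T → (pts F k β d T).Finite ∧
      ((pts F k β d T).ncard : ℝ) ≤ C * T ^ a * (1 + Real.log T) ^ (Fintype.card s - 1) := by
  classical
  have hιne : Nonempty ι := Fintype.card_pos_iff.1 (lt_of_lt_of_le hk hki)
  obtain ⟨N, hN⟩ := hdvd
  have hN0 : 0 < N := by
    rcases Nat.eq_zero_or_pos N with h | h
    · exfalso
      rw [h, mul_zero] at hN
      have := hd0 (β hιne.some)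
      have h2 := sum_eq_zero_iff.1 hN (β hιne.some) (mem_univ _)
      omega
    · exact h
  have hdn : ∀ b, d b ≤ (univ.filter fun i => β i = b).card * N := by
    intro b
    have h1 := hd b
    rw [hN] at h1
    have h2 : k * d b < k * ((univ.filter fun i => β i = b).card * N) := by
      calc k * d b < _ := h1
        _ = _ := by ring
    exact (Nat.lt_of_mul_lt_mul_left h2).le
  obtain ⟨C₀, hC₀, hkey⟩ := key F β d hk hN0 hki hN hdn
  obtain ⟨C₂, hC₂, hcount⟩ := count F hk hki C₀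
  obtain ⟨e, he⟩ : ∃ e, e = finrank ℚ F := ⟨_, rfl⟩
  have he0 : 0 < e := by
    rw [he]
    exact finrank_pos
  rw [← he] at hkey hcount
  have he' : (0 : ℝ) < e := by exact_mod_cast he0
  set A : ℝ := max 0 (e * Real.log (k.factorial * C₀)) with hA
  set A' : ℝ := max 0 (Real.log C₀) + ∑ b, (d b : ℝ) with hA'
  have hA0 : 0 ≤ A := le_max_left _ _
  have hA'0 : 0 ≤ A' := add_nonneg (le_max_left _ _) (sum_nonneg fun _ _ => Nat.cast_nonneg _)
  obtain ⟨C₃, hC₃, hcells⟩ := cells hk hki hβ hd0 hd ha hA0 hA'0 hE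
  refine ⟨C₂ * C₃, by positivity, fun T hT => ?_⟩
  have hT0 : 0 < T := by linarith
  set L := Real.log T with hL
  have hL0 : 0 ≤ L := Real.log_nonneg hT
  obtain ⟨Z, hZ, hZsum⟩ := hcells L hL0
  set Θ : (s → ℤ) → ι → ℝ := fun y i => Real.exp ((y (β i) : ℝ) / e) with hΘ
  have hΘ0 : ∀ y i, 0 < Θ y i := fun y i => Real.exp_pos _
  -- the data of the points
  have hpt : ∀ P ∈ pts F k β d T, ∃ B : Matrix (Fin k) ι (𝓞 F), Gen B ∧
      P = {V' | Rel β (B.map (algebraMap (𝓞 F) F)) V'} ∧ ∃ y ∈ Z, rsp B ∈ SW F k (Θ y) C₀ := by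
    rintro P ⟨V, hV, rfl, hT'⟩
    obtain ⟨t, lam, B, g, ht, hlam, hg, hBV, hBC, hlamC⟩ := hkey V hV
    have hrel : Rel β V (B.map (algebraMap (𝓞 F) F)) := by
      refine ⟨g, t, hg, ht, ?_⟩
      funext j i
      rw [Matrix.mul_diagonal]
      exact hBV j i
    have hB : Gen B := by
      intro f hf h0
      have h1 : mnr (B.map (algebraMap (𝓞 F) F)) f = 0 := by
        rw [← mnr_map, h0, map_zero]
      have h2 : B.map (algebraMap (𝓞 F) F) = Matrix.of fun j i => (g * V) j i * t (β i) := by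
        funext j i
        exact hBV j i
      rw [h2, mnr_scale _ (fun i => t (β i)), mnr_mul] at h1
      exact mul_ne_zero (prod_ne_zero_iff.2 fun l _ => ht _) (mul_ne_zero hg (hV f hf)) h1
    obtain ⟨y, hy⟩ : ∃ y : s → ℤ, ∀ b, y b = ⌈e * Real.log (lam b)⌉ := ⟨_, fun _ => rfl⟩
    have hlΘ : ∀ i, lam (β i) ≤ Θ y i := by
      intro i
      rw [hΘ]
      simp only
      rw [← Real.log_le_iff_le_exp (hlam _), le_div_iff₀ he', mul_comm, hy]
      exact Int.le_ceil _
    have hBC' : ∏ j, nrm (Θ y) (fun i => ((B j i : 𝓞 F) : F)) ≤ C₀ :=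
      nrm_prod_anti (θ := fun i => lam (β i)) (fun i => hlam _) hlΘ B hBC
    refine ⟨B, hB, hrel.eq, y, ?_, B, hB, rfl, hBC'⟩
    · rw [hZ]
      refine ⟨fun f hf => ?_, ?_⟩
      · have h1 := low (hΘ0 y) hB hBC' hf
        have h2 : ∏ l, Θ y (f l) = Real.exp ((∑ l, (y (β (f l)) : ℝ)) / e) := by
          rw [hΘ]
          simp only
          rw [← Real.exp_sum, sum_div]
        rw [h2, ← mul_assoc] at h1
        have h3 : 0 < (k.factorial : ℝ) * C₀ := by positivity
        have h4 := Real.log_le_log one_pos h1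
        rw [Real.log_one, Real.log_mul h3.ne' (Real.exp_pos _).ne', Real.log_exp] at h4
        have h5 : -(e * Real.log (k.factorial * C₀)) ≤ ∑ l, (y (β (f l)) : ℝ) := by
          have h6 : 0 ≤ e * (Real.log (k.factorial * C₀) + (∑ l, (y (β (f l)) : ℝ)) / e) :=
            mul_nonneg he'.le h4
          rw [mul_add, mul_div_cancel₀ _ he'.ne'] at h6
          linarith
        have h7 := le_max_right 0 (e * Real.log (k.factorial * C₀))
        linarith
      · have h1 : ∏ b, (lam b ^ e) ^ d b ≤ C₀ * T :=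
          hlamC.trans (mul_le_mul_of_nonneg_left hT' hC₀.le)
        have h2 : Real.log (∏ b, (lam b ^ e) ^ d b) = ∑ b, (d b : ℝ) * (e * Real.log (lam b)) := by
          rw [Real.log_prod fun b _ => by have := hlam b; positivity]
          refine sum_congr rfl fun b _ => ?_
          rw [Real.log_pow, Real.log_pow]
        have h3 := Real.log_le_log (prod_pos fun b _ => by have := hlam b; positivity) h1
        rw [h2, Real.log_mul hC₀.ne' hT0.ne'] at h3
        have h4 : ∑ b, (d b : ℝ) * y b ≤ ∑ b, ((d b : ℝ) * (e * Real.log (lam b)) + d b) := by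
          refine sum_le_sum fun b _ => ?_
          have h5 : ((y b : ℤ) : ℝ) ≤ e * Real.log (lam b) + 1 := by
            rw [hy]
            exact (Int.ceil_lt_add_one _).le
          have h6 : (0 : ℝ) ≤ d b := Nat.cast_nonneg _
          nlinarith
        rw [sum_add_distrib] at h4
        have h5 := le_max_right 0 (Real.log C₀)
        rw [hA']
        linarith
  choose! B hBgen hPB hy using hpt
  obtain ⟨hfin, hcard⟩ := ncard_biUnion_le Z (fun y => SW F k (Θ y) C₀) fun y _ =>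
    (hcount (Θ y) (hΘ0 y)).1
  have hmaps : Set.MapsTo (fun P => rsp (B P)) (pts F k β d T) (⋃ y ∈ Z, SW F k (Θ y) C₀) := by
    intro P hP
    obtain ⟨y, hy1, hy2⟩ := hy P hP
    exact Set.mem_iUnion₂.2 ⟨y, hy1, hy2⟩
  have hinj : Set.InjOn (fun P => rsp (B P)) (pts F k β d T) := by
    intro P hP P' hP' h
    have h1 := rel_of_rsp (β := β) hki (hBgen P hP) h
    rw [hPB P hP, hPB P' hP', h1.eq]
  refine ⟨Set.Finite.of_injOn hmaps hinj hfin, ?_⟩
  have h1 : ((pts F k β d T).ncard : ℝ) ≤ ∑ y ∈ Z, ((SW F k (Θ y) C₀).ncard : ℝ) := by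
    have h2 := (Set.ncard_le_ncard_of_injOn _ hmaps hinj hfin).trans hcard
    exact_mod_cast h2
  have h2 : ∀ y ∈ Z, ((SW F k (Θ y) C₀).ncard : ℝ) ≤
      C₂ * Real.exp (k * ∑ b, ((univ.filter fun i => β i = b).card : ℝ) * y b) := by
    intro y _
    refine (hcount (Θ y) (hΘ0 y)).2.trans (le_of_eq ?_)
    congr 1
    rw [hΘ]
    simp only
    rw [← Real.exp_sum, ← Real.exp_nat_mul, ← sum_div, Nat.cast_mul]
    congr 1
    have h3 : ∑ i, (y (β i) : ℝ) = ∑ b, ((univ.filter fun i => β i = b).card : ℝ) * y b := by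
      rw [← sum_fiberwise_of_maps_to (s := univ) (t := univ) (g := β) (fun _ _ => mem_univ _)]
      refine sum_congr rfl fun b _ => ?_
      rw [sum_congr rfl (g := fun _ => (y b : ℝ)) fun i hi => by rw [(mem_filter.1 hi).2], sum_const,
        nsmul_eq_mul]
    rw [h3, mul_assoc, mul_div_cancel₀ _ he'.ne']
  calc ((pts F k β d T).ncard : ℝ) ≤ ∑ y ∈ Z, ((SW F k (Θ y) C₀).ncard : ℝ) := h1
    _ ≤ ∑ y ∈ Z, C₂ * Real.exp (k * ∑ b, ((univ.filter fun i => β i = b).card : ℝ) * y b) :=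
        sum_le_sum h2
    _ = C₂ * ∑ y ∈ Z, Real.exp (k * ∑ b, ((univ.filter fun i => β i = b).card : ℝ) * y b) :=
        (mul_sum _ _ _).symm
    _ ≤ C₂ * (C₃ * Real.exp (a * L) * (1 + L) ^ (Fintype.card s - 1)) :=
        mul_le_mul_of_nonneg_left hZsum hC₂.le
    _ = _ := by
        rw [Real.rpow_def_of_pos hT0, ← hL, mul_comm a L]
        ring

/-- the Fujita invariant -/
noncomputable def fuj (k : ℕ) (β : ι → s) (d : s → ℕ) : ℝ :=
  sInf {t : ℝ | EffC k β fun b => t * d b - k * ((univ.filter fun i => β i = b).card : ℝ)}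

theorem fuj_spec {k : ℕ} (hk : 0 < k) (hki : k ≤ Fintype.card ι) (β : ι → s)
    (hβ : Function.Surjective β) (d : s → ℕ) (hd0 : ∀ b, 0 < d b)
    (hd : ∀ b, k * d b < (univ.filter fun i => β i = b).card * ∑ c, d c) :
    0 < fuj k β d ∧ EffC k β fun b => fuj k β d * d b -
      k * ((univ.filter fun i => β i = b).card : ℝ) := by
  have hιne : Nonempty ι := Fintype.card_pos_iff.1 (lt_of_lt_of_le hk hki)
  obtain ⟨i₀⟩ := hιne
  have hk' : (1 : ℝ) ≤ k := by exact_mod_cast hk
  set n : ℝ := ((Fintype.card ι : ℕ) : ℝ) with hn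
  have hn1 : 1 ≤ n := by
    have : 1 ≤ Fintype.card ι := by omega
    rw [hn]
    exact_mod_cast this
  have hcn : ∀ c : s, ((univ.filter fun i => β i = c).card : ℝ) ≤ n := by
    intro c
    rw [hn]
    exact_mod_cast card_le_univ _
  have hpos : ∀ b, (0 : ℝ) < ((univ.filter fun j => β j = b).card : ℝ) := by
    intro b
    obtain ⟨i, hi⟩ := hβ b
    have : 0 < (univ.filter fun j => β j = b).card :=
      card_pos.2 ⟨i, mem_filter.2 ⟨mem_univ _, hi⟩⟩
    positivity
  have hsumn : ∑ b, ((univ.filter fun i => β i = b).card : ℝ) = n := by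
    rw [hn, ← card_univ, card_eq_sum_card_fiberwise (s := (univ : Finset ι)) (t := univ) (f := β)
      fun _ _ => mem_univ _]
    push_cast
    rfl
  set D : ℝ := ∑ c, (d c : ℝ) with hD
  have hd' : ∀ c, (k : ℝ) * d c + 1 ≤ ((univ.filter fun i => β i = c).card : ℝ) * D := by
    intro c
    have h1 : k * d c + 1 ≤ (univ.filter fun i => β i = c).card * ∑ c, d c := hd c
    have h2 : ((k * d c + 1 : ℕ) : ℝ) ≤ (((univ.filter fun i => β i = c).card * ∑ c, d c : ℕ) : ℝ) := by
      exact_mod_cast h1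
    push_cast at h2
    exact h2
  set S : Set ℝ := {t : ℝ | EffC k β fun b => t * d b - k * ((univ.filter fun i => β i = b).card : ℝ)}
    with hS
  have hsum : ∀ t : ℝ, ∑ c, (t * (d c : ℝ) - k * ((univ.filter fun i => β i = c).card : ℝ)) =
      t * D - k * n := by
    intro t
    rw [sum_sub_distrib, ← mul_sum, ← mul_sum, hsumn]
  have hne : S.Nonempty := by
    refine ⟨k * n * n, fun b => ?_⟩
    have h1 : (1 : ℝ) ≤ d b := by exact_mod_cast hd0 b
    have h2 := hcn b
    have h3 := hpos b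
    have h4 := hd' b
    refine ⟨?_, ?_⟩
    · have h5 : (k : ℝ) * ((univ.filter fun i => β i = b).card : ℝ) ≤ k * n * n * 1 := by
        have h6 : (k : ℝ) * ((univ.filter fun i => β i = b).card : ℝ) ≤ k * n :=
          mul_le_mul_of_nonneg_left h2 (by linarith)
        have h7 : (k : ℝ) * n * 1 ≤ k * n * n := mul_le_mul_of_nonneg_left hn1 (by positivity)
        linarith
      have h6 : (k : ℝ) * n * n * 1 ≤ k * n * n * d b :=
        mul_le_mul_of_nonneg_left h1 (by positivity)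
      simp only
      linarith
    · rw [hsum]
      simp only
      have h5 : (k : ℝ) * n * n * 1 ≤ k * n * n *
          (((univ.filter fun i => β i = b).card : ℝ) * D - k * d b) :=
        mul_le_mul_of_nonneg_left (by linarith) (by positivity)
      have h6 : ((univ.filter fun i => β i = b).card : ℝ) * (k * n) ≤ k * n * n := by
        have := mul_le_mul_of_nonneg_right h2 (show (0 : ℝ) ≤ k * n by positivity)
        linarith
      have h7 : 0 ≤ (k : ℝ) * (k * ((univ.filter fun i => β i = b).card : ℝ)) := by positivity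
      nlinarith
  have hbd : ∀ t ∈ S, (1 : ℝ) / d (β i₀) ≤ t := by
    intro t ht
    have h1 := (ht (β i₀)).1
    have h2 : (1 : ℝ) ≤ d (β i₀) := by exact_mod_cast hd0 _
    rw [div_le_iff₀ (by linarith)]
    simp only at h1
    have h3 : (1 : ℝ) ≤ ((univ.filter fun i => β i = β i₀).card : ℝ) := by
      have : 0 < (univ.filter fun j => β j = β i₀).card :=
        card_pos.2 ⟨i₀, mem_filter.2 ⟨mem_univ _, rfl⟩⟩
      exact_mod_cast this
    nlinarith
  have hclosed : IsClosed S := by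
    have h1 : S = ⋂ b, ({t : ℝ | 0 ≤ t * d b - k * ((univ.filter fun i => β i = b).card : ℝ)} ∩
        {t : ℝ | k * (t * d b - k * ((univ.filter fun i => β i = b).card : ℝ)) ≤
          ((univ.filter fun i => β i = b).card : ℝ) *
            ∑ c, (t * (d c : ℝ) - k * ((univ.filter fun i => β i = c).card : ℝ))}) := by
      ext t
      simp only [hS, EffC, Set.mem_setOf_eq, Set.mem_iInter, Set.mem_inter_iff]
    rw [h1]
    refine isClosed_iInter fun b => IsClosed.inter ?_ ?_
    · exact isClosed_le (by fun_prop) (by fun_prop)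
    · exact isClosed_le (by fun_prop) (by fun_prop)
  have hmem : fuj k β d ∈ S := hclosed.csInf_mem hne ⟨_, fun t ht => hbd t ht⟩
  refine ⟨?_, hmem⟩
  have h1 := hbd _ hmem
  have h2 : (0 : ℝ) < d (β i₀) := by exact_mod_cast hd0 _
  exact lt_of_lt_of_le (by positivity) h1

theorem final (F : Type) [Field F] [NumberField F] {k : ℕ} {ι s : Type} [Fintype ι] [DecidableEq ι]
    [Fintype s] [DecidableEq s] (hk : 0 < k) (hki : k ≤ Fintype.card ι) (β : ι → s)
    (hβ : Function.Surjective β) (d : s → ℕ) (hdvd : k ∣ ∑ c, d c) (hd0 : ∀ b, 0 < d b)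
    (hd : ∀ b, k * d b < (univ.filter fun i => β i = b).card * ∑ c, d c) :
    ∃ C : ℝ, 0 < C ∧ ∀ T : ℝ, 1 ≤ T → (pts F k β d T).Finite ∧
      ((pts F k β d T).ncard : ℝ) ≤ C * T ^ fuj k β d *
        (1 + Real.log T) ^ (Fintype.card s - 1) := by
  obtain ⟨h1, h2⟩ := fuj_spec hk hki β hβ d hd0 hd
  exact main F hk hki β hβ d hdvd hd0 hd h1 h2

end

end Run7.h3.GT
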