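import Mathlib

set_option autoImplicit false
set_option linter.unusedSectionVars false
set_option linter.unusedVariables false

/-! Comparison of fractional ideals locally at a prime. -/

namespace Run7.h3.GT

open Finset Module NumberField FractionalIdeal
open scoped nonZeroDivisors

section

variable {F : Type} [Field F] [NumberField F]

/-- fractional ideals -/
abbrev FI (F : Type) [Field F] [NumberField F] : Type := FractionalIdeal (𝓞 F)⁰ F

/-- principal fractional ideals -/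
noncomputable abbrev sp (x : F) : FI F := spanSingleton (𝓞 F)⁰ x

theorem cmul (a b : 𝓞 F) : ((a * b : 𝓞 F) : F) = (a : F) * b := map_mul (algebraMap (𝓞 F) F) a b

theorem cadd (a b : 𝓞 F) : ((a + b : 𝓞 F) : F) = (a : F) + b := map_add (algebraMap (𝓞 F) F) a b

theorem cone : ((1 : 𝓞 F) : F) = 1 := map_one (algebraMap (𝓞 F) F)

theorem czero : ((0 : 𝓞 F) : F) = 0 := map_zero (algebraMap (𝓞 F) F)

theorem csmul (a : 𝓞 F) (x : F) : a • x = (a : F) * x := Algebra.smul_def a x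

theorem sp_mul (x y : F) : sp (x * y) = sp x * sp y :=
  (spanSingleton_mul_spanSingleton x y).symm

theorem sp_one : sp (1 : F) = 1 := spanSingleton_one

theorem sp_ne_zero {x : F} (hx : x ≠ 0) : sp x ≠ 0 := spanSingleton_ne_zero_iff.2 hx

theorem sp_inv (x : F) : sp x⁻¹ = (sp x)⁻¹ := (spanSingleton_inv F x).symm

theorem sp_div (x y : F) : sp (x / y) = sp x / sp y := by
  rw [div_eq_mul_inv, sp_mul, sp_inv, div_eq_mul_inv]

theorem sp_pow (x : F) (n : ℕ) : sp (x ^ n) = sp x ^ n := (spanSingleton_pow x n).symm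

theorem sp_prod {α : Type} (t : Finset α) (x : α → F) : sp (∏ i ∈ t, x i) = ∏ i ∈ t, sp (x i) := by
  classical
  induction t using Finset.induction_on with
  | empty => simp [sp_one]
  | insert a t ha ih => rw [prod_insert ha, prod_insert ha, sp_mul, ih]

theorem sp_le {x : F} {I : FI F} : sp x ≤ I ↔ x ∈ I := spanSingleton_le_iff_mem

theorem sp_int_le (a : 𝓞 F) : sp (a : F) ≤ 1 := by
  rw [sp_le, mem_one_iff]
  exact ⟨a, rfl⟩

theorem sp_int (a : 𝓞 F) : sp (a : F) = ((Ideal.span {a} : Ideal (𝓞 F)) : FI F) :=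
  (coeIdeal_span_singleton a).symm

variable (P : Ideal (𝓞 F))

/-- local comparison at the prime `P` -/
def LL (A B : FI F) : Prop := ∃ s : 𝓞 F, s ∉ P ∧ sp (s : F) * A ≤ B

variable {P} [hPm : P.IsMaximal]

theorem LL.of_le {A B : FI F} (h : A ≤ B) : LL P A B :=
  ⟨1, fun h1 => hPm.ne_top ((Ideal.eq_top_iff_one P).2 h1), by
    rw [cone, sp_one, one_mul]
    exact h⟩

theorem LL.refl (A : FI F) : LL P A A := LL.of_le le_rfl

theorem LL.trans {A B C : FI F} (h₁ : LL P A B) (h₂ : LL P B C) : LL P A C := by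
  obtain ⟨s, hs, h1⟩ := h₁
  obtain ⟨t, ht, h2⟩ := h₂
  refine ⟨s * t, hPm.isPrime.mul_notMem hs ht, ?_⟩
  rw [cmul, sp_mul, mul_comm (sp (s : F)), mul_assoc]
  exact (mul_le_mul_right h1 _).trans h2

theorem LL.mul {A B C D : FI F} (h₁ : LL P A B) (h₂ : LL P C D) : LL P (A * C) (B * D) := by
  obtain ⟨s, hs, h1⟩ := h₁
  obtain ⟨t, ht, h2⟩ := h₂
  refine ⟨s * t, hPm.isPrime.mul_notMem hs ht, ?_⟩
  rw [cmul, sp_mul, mul_mul_mul_comm]
  exact mul_le_mul' h1 h2

theorem LL.pow {A B : FI F} (h : LL P A B) (n : ℕ) : LL P (A ^ n) (B ^ n) := by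
  induction n with
  | zero => rw [pow_zero, pow_zero]; exact LL.refl _
  | succ n ih => rw [pow_succ, pow_succ]; exact ih.mul h

theorem LL.prod {α : Type} (t : Finset α) {A B : α → FI F} (h : ∀ i ∈ t, LL P (A i) (B i)) :
    LL P (∏ i ∈ t, A i) (∏ i ∈ t, B i) := by
  classical
  induction t using Finset.induction_on with
  | empty => rw [prod_empty, prod_empty]; exact LL.refl _
  | insert a t ha ih =>
    rw [prod_insert ha, prod_insert ha]
    exact (h a (mem_insert_self _ _)).mul (ih fun i hi => h i (mem_insert_of_mem hi))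

/-- a common multiplier -/
theorem common {α : Type} [Fintype α] {p : α → 𝓞 F → Prop} (h : ∀ a, ∃ s, s ∉ P ∧ p a s)
    (hmul : ∀ a s r, p a s → p a (s * r)) : ∃ s, s ∉ P ∧ ∀ a, p a s := by
  classical
  choose s hs hp using h
  refine ⟨∏ a, s a, ?_, fun a => ?_⟩
  · intro hcon
    obtain ⟨a, -, ha⟩ := (hPm.isPrime.prod_mem_iff).1 hcon
    exact hs a ha
  · rw [← mul_prod_erase univ s (mem_univ a)]
    exact hmul _ _ _ (hp a)

theorem LL.sum {α : Type} (t : Finset α) {A : α → FI F} {B : FI F}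
    (h : ∀ i ∈ t, LL P (A i) B) : LL P (∑ i ∈ t, A i) B := by
  classical
  induction t using Finset.induction_on with
  | empty => rw [sum_empty]; exact LL.of_le (zero_le _)
  | insert a t ha ih =>
    rw [sum_insert ha]
    obtain ⟨s, hs, h1⟩ := h a (mem_insert_self _ _)
    obtain ⟨r, hr, h2⟩ := ih fun i hi => h i (mem_insert_of_mem hi)
    refine ⟨s * r, hPm.isPrime.mul_notMem hs hr, ?_⟩
    rw [cmul, sp_mul, mul_add]
    have e1 : sp (s : F) * sp (r : F) * A a ≤ B := by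
      rw [mul_comm (sp (s : F)), mul_assoc]
      exact (mul_le_mul' (sp_int_le r) h1).trans (by rw [one_mul])
    have e2 : sp (s : F) * sp (r : F) * ∑ i ∈ t, A i ≤ B := by
      rw [mul_assoc]
      exact (mul_le_mul' (sp_int_le s) h2).trans (by rw [one_mul])
    exact sup_le e1 e2

theorem LL.inv {A B : FI F} (hA : A ≠ 0) (hB : B ≠ 0) (h : LL P A B) : LL P B⁻¹ A⁻¹ := by
  obtain ⟨s, hs, h1⟩ := h
  refine ⟨s, hs, ?_⟩
  have h2 := mul_le_mul' h1 (le_refl (A⁻¹ * B⁻¹))
  have e1 : sp (s : F) * A * (A⁻¹ * B⁻¹) = sp (s : F) * B⁻¹ := by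
    field_simp
  have e2 : B * (A⁻¹ * B⁻¹) = A⁻¹ := by
    field_simp
  rw [e1, e2] at h2
  exact h2

/-- local generators -/
theorem exists_gen (hP : P ≠ ⊥) (J : FI F) (hJ : J ≠ 0) :
    ∃ τ : F, τ ≠ 0 ∧ LL P (sp τ) J ∧ LL P J (sp τ) ∧ τ ∈ J := by
  have hlt : ¬ J ≤ J * (P : FI F) := by
    intro h
    have h1 := mul_le_mul' (le_refl J⁻¹) h
    rw [inv_mul_cancel₀ hJ, ← mul_assoc, inv_mul_cancel₀ hJ, one_mul] at h1
    have h2 : ((⊤ : Ideal (𝓞 F)) : FI F) ≤ (P : FI F) := by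
      rw [coeIdeal_top]
      exact h1
    rw [coeIdeal_le_coeIdeal] at h2
    exact hPm.ne_top (top_le_iff.1 h2)
  obtain ⟨τ, hτ, hτ2⟩ := SetLike.not_le_iff_exists.1 hlt
  have hτ0 : τ ≠ 0 := by
    rintro rfl
    exact hτ2 (zero_mem _)
  have h1 : sp τ ≤ J := sp_le.2 hτ
  have h2 : sp τ * J⁻¹ ≤ 1 := by
    have := mul_le_mul' h1 (le_refl J⁻¹)
    rwa [mul_inv_cancel₀ hJ] at this
  obtain ⟨r, hr⟩ := le_one_iff_exists_coeIdeal.1 h2
  have h3 : ¬ r ≤ P := by
    intro h
    apply hτ2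
    rw [← sp_le]
    have h4 : (r : FI F) ≤ (P : FI F) := (coeIdeal_le_coeIdeal F).2 h
    rw [hr] at h4
    have h5 := mul_le_mul' h4 (le_refl J)
    rw [mul_assoc, inv_mul_cancel₀ hJ, mul_one] at h5
    rw [mul_comm]
    exact h5
  obtain ⟨s, hs, hs2⟩ := SetLike.not_le_iff_exists.1 h3
  refine ⟨τ, hτ0, LL.of_le h1, ⟨s, hs2, ?_⟩, hτ⟩
  have h4 : sp (s : F) ≤ (r : FI F) := by
    rw [sp_int, coeIdeal_le_coeIdeal, Ideal.span_singleton_le_iff_mem]
    exact hs
  rw [hr] at h4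
  have h5 := mul_le_mul' h4 (le_refl J)
  rw [mul_assoc, inv_mul_cancel₀ hJ, mul_one] at h5
  exact h5

theorem LL_sp {x y : F} (hy : y ≠ 0) : LL P (sp x) (sp y) ↔
    ∃ s : 𝓞 F, s ∉ P ∧ ∃ u : 𝓞 F, (s : F) * x = (u : F) * y := by
  constructor
  · rintro ⟨s, hs, h⟩
    refine ⟨s, hs, ?_⟩
    rw [← sp_mul, sp_le, mem_spanSingleton] at h
    obtain ⟨u, hu⟩ := h
    exact ⟨u, by rw [← hu, csmul]⟩
  · rintro ⟨s, hs, u, hu⟩
    refine ⟨s, hs, ?_⟩
    rw [← sp_mul, hu, sp_mul]
    exact (mul_le_mul' (sp_int_le u) le_rfl).trans (by rw [one_mul])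

/-- totality -/
theorem LL_total (hP : P ≠ ⊥) (x y : F) : LL P (sp x) (sp y) ∨ LL P (sp y) (sp x) := by
  by_cases hx : x = 0
  · left
    rw [hx]
    refine LL.of_le ?_
    rw [sp, spanSingleton_zero]
    exact zero_le _
  by_cases hy : y = 0
  · right
    rw [hy]
    refine LL.of_le ?_
    rw [sp, spanSingleton_zero]
    exact zero_le _
  have hJ : sp x + sp y ≠ 0 := by
    intro h
    have h1 : sp x ≤ sp x + sp y := le_sup_left
    rw [h, FractionalIdeal.le_zero_iff] at h1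
    exact sp_ne_zero hx h1
  obtain ⟨τ, hτ0, -, ⟨s, hs, h⟩, hmem⟩ := exists_gen hP (sp x + sp y) hJ
  have hmem' : τ ∈ (sp x ⊔ sp y : FI F) := hmem
  rw [← FractionalIdeal.mem_coe, FractionalIdeal.coe_sup, Submodule.mem_sup] at hmem'
  obtain ⟨a, ha, b, hb, hab⟩ := hmem'
  rw [FractionalIdeal.mem_coe, mem_spanSingleton] at ha hb
  obtain ⟨u, rfl⟩ := ha
  obtain ⟨v, rfl⟩ := hb
  have h1 : sp (s : F) * sp x ≤ sp τ := (mul_le_mul' le_rfl le_sup_left).trans h
  have h2 : sp (s : F) * sp y ≤ sp τ := (mul_le_mul' le_rfl le_sup_right).trans h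
  rw [← sp_mul, sp_le, mem_spanSingleton] at h1 h2
  obtain ⟨x', hx'⟩ := h1
  obtain ⟨y', hy'⟩ := h2
  rw [csmul] at hx' hy' hab
  rw [csmul] at hab
  have h3 : s = u * x' + v * y' := by
    have h4 : (s : F) * τ = ((u * x' + v * y' : 𝓞 F) : F) * τ := by
      conv_lhs => rw [← hab]
      rw [cadd, cmul, cmul]
      linear_combination (-(u : F)) * hx' - (v : F) * hy'
    have h5 := mul_right_cancel₀ hτ0 h4
    exact RingOfIntegers.ext h5
  by_cases hxP : x' ∈ P
  · have hyP : y' ∉ P := by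
      intro hyP
      apply hs
      rw [h3]
      exact P.add_mem (P.mul_mem_left _ hxP) (P.mul_mem_left _ hyP)
    left
    rw [LL_sp hy]
    refine ⟨y' * s, hPm.isPrime.mul_notMem hyP hs, x' * s, ?_⟩
    rw [cmul, cmul]
    linear_combination (-(y' : F)) * hx' + (x' : F) * hy'
  · right
    rw [LL_sp hx]
    refine ⟨x' * s, hPm.isPrime.mul_notMem hxP hs, y' * s, ?_⟩
    rw [cmul, cmul]
    linear_combination (y' : F) * hx' - (x' : F) * hy'

/-- a locally maximal element of a finite family -/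
theorem exists_LL_max (hP : P ≠ ⊥) {α : Type} (t : Finset α) (ht : t.Nonempty) (g : α → F) :
    ∃ a ∈ t, ∀ b ∈ t, LL P (sp (g b)) (sp (g a)) := by
  classical
  induction ht using Finset.Nonempty.cons_induction with
  | singleton a =>
    refine ⟨a, mem_singleton_self _, fun b hb => ?_⟩
    rw [mem_singleton.1 hb]
    exact LL.refl _
  | cons a t ha ht ih =>
    obtain ⟨c, hc, hc2⟩ := ih
    rcases LL_total hP (g a) (g c) with h | h
    · refine ⟨c, mem_cons_of_mem hc, fun b hb => ?_⟩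
      rcases mem_cons.1 hb with rfl | hb
      · exact h
      · exact hc2 b hb
    · refine ⟨a, mem_cons_self _ _, fun b hb => ?_⟩
      rcases mem_cons.1 hb with rfl | hb
      · exact LL.refl _
      · exact (hc2 b hb).trans h

theorem coprime_pow {s : 𝓞 F} (hs : s ∉ P) (e : ℕ) : P ^ e ⊔ Ideal.span {s} = ⊤ := by
  have h1 : IsCoprime P (Ideal.span {s}) := by
    rw [Ideal.isCoprime_iff_sup_eq]
    by_contra hcon
    have h2 := hPm.eq_of_le hcon le_sup_left
    apply hs
    rw [h2]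
    exact Ideal.mem_sup_right (Ideal.mem_span_singleton_self s)
  exact (Ideal.isCoprime_iff_sup_eq).1 h1.pow_left

/-- from local to global for ideals contained in `J` -/
theorem LL.prim {A J : FI F} {e : ℕ} (h : LL P A ((P : FI F) ^ e * J)) (hAJ : A ≤ J) :
    A ≤ (P : FI F) ^ e * J := by
  obtain ⟨s, hs, h1⟩ := h
  have h2 : ((P ^ e ⊔ Ideal.span {s} : Ideal (𝓞 F)) : FI F) = 1 := by
    rw [coprime_pow hs e, coeIdeal_top]
  have h3 : (P : FI F) ^ e + sp (s : F) = 1 := by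
    rw [← h2, coeIdeal_sup, coeIdeal_pow, sp_int]
  calc A = ((P : FI F) ^ e + sp (s : F)) * A := by rw [h3, one_mul]
    _ = (P : FI F) ^ e * A + sp (s : F) * A := add_mul _ _ _
    _ ≤ (P : FI F) ^ e * J := sup_le (mul_le_mul' le_rfl hAJ) h1

theorem LL_mem {x : 𝓞 F} {e : ℕ} (h : LL P (sp (x : F)) ((P : FI F) ^ e)) : x ∈ P ^ e := by
  have h1 : LL P (sp (x : F)) ((P : FI F) ^ e * 1) := by
    rw [mul_one]
    exact h
  have h2 := LL.prim h1 (sp_int_le x)
  rw [mul_one, ← coeIdeal_pow, sp_int, coeIdeal_le_coeIdeal, Ideal.span_singleton_le_iff_mem] at h2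
  exact h2

end

section

variable {F : Type} [Field F] [NumberField F]

/-- local-global principle -/
theorem le_of_LL {x : F} {B : FI F} (h : ∀ P : Ideal (𝓞 F), P.IsMaximal → LL P (sp x) B) :
    sp x ≤ B := by
  set I : Ideal (𝓞 F) :=
    { carrier := {s | (s : F) * x ∈ B}
      add_mem' := by
        intro a b ha hb
        change (a : F) * x ∈ B at ha
        change (b : F) * x ∈ B at hb
        change ((a + b : 𝓞 F) : F) * x ∈ B
        rw [cadd, add_mul]
        exact (B : Submodule (𝓞 F) F).add_mem ha hb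
      zero_mem' := by
        change ((0 : 𝓞 F) : F) * x ∈ B
        rw [czero, zero_mul]
        exact zero_mem _
      smul_mem' := by
        intro c a ha
        change (a : F) * x ∈ B at ha
        change ((c * a : 𝓞 F) : F) * x ∈ B
        rw [cmul, mul_assoc]
        have := (B : Submodule (𝓞 F) F).smul_mem c ha
        rw [csmul] at this
        exact this } with hI
  have hItop : I = ⊤ := by
    by_contra hcon
    obtain ⟨P, hP, hIP⟩ := Ideal.exists_le_maximal I hcon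
    obtain ⟨s, hs, h1⟩ := h P hP
    apply hs
    apply hIP
    change (s : F) * x ∈ B
    rw [← sp_le, sp_mul]
    exact h1
  have h1 : (1 : 𝓞 F) ∈ I := by rw [hItop]; trivial
  have h2 : ((1 : 𝓞 F) : F) * x ∈ B := h1
  rw [cone, one_mul] at h2
  exact sp_le.2 h2

end

end Run7.h3.GT
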