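import Pool.Agent.Run7.h3.GT.RankP
import Pool.Agent.Run7.h3.GT.Loc

set_option autoImplicit false
set_option linter.unusedSectionVars false
set_option linter.unusedVariables false

/-! The finite places: semistable positions of the columns. -/

namespace Run7.h3.GT

open Finset Module NumberField FractionalIdeal
open scoped nonZeroDivisors

section

variable {F : Type} [Field F] [NumberField F] {k : ℕ} {ι s : Type} [Fintype ι] [DecidableEq ι]
  [Fintype s] [DecidableEq s] {β : ι → s} {d : s → ℕ}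

theorem sum_le_FI {α : Type} (t : Finset α) {A : α → FI F} {B : FI F} (h : ∀ i ∈ t, A i ≤ B) :
    ∑ i ∈ t, A i ≤ B := by
  classical
  induction t using Finset.induction_on with
  | empty => rw [sum_empty]; exact zero_le _
  | insert a t ha ih =>
    rw [sum_insert ha]
    exact sup_le (h a (mem_insert_self _ _)) (ih fun i hi => h i (mem_insert_of_mem hi))

theorem le_sum_FI {α : Type} (t : Finset α) {A : α → FI F} {i : α} (hi : i ∈ t) :
    A i ≤ ∑ i ∈ t, A i := by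
  classical
  rw [← add_sum_erase t A hi]
  exact le_sup_left

/-- the content of a matrix -/
noncomputable def cnt (β : ι → s) (V : Matrix (Fin k) ι F) (a : s → FI F) : FI F :=
  ∑ f : Fin k → ι, sp (mnr V f) * (wt β a f)⁻¹

/-- the ideal generated by the monomials -/
noncomputable def hh [Fintype (Mon k β d)] (V : Matrix (Fin k) ι F) : FI F :=
  ∑ m : Mon k β d, sp (mono V m)

/-- the expected size of the ideal generated by the monomials -/
noncomputable def ff (β : ι → s) (d : s → ℕ) (N : ℕ) (V : Matrix (Fin k) ι F) (a : s → FI F) :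
    FI F := cnt β V a ^ N * ∏ b, a b ^ d b

theorem wt_ne_zero {a : s → FI F} (ha : ∀ b, a b ≠ 0) (f : Fin k → ι) : wt β a f ≠ 0 :=
  prod_ne_zero_iff.2 fun _ _ => ha _

theorem le_cnt (V : Matrix (Fin k) ι F) {a : s → FI F} (ha : ∀ b, a b ≠ 0) (f : Fin k → ι) :
    sp (mnr V f) ≤ cnt β V a * wt β a f := by
  have h1 : sp (mnr V f) * (wt β a f)⁻¹ ≤ cnt β V a :=
    le_sum_FI univ (A := fun f => sp (mnr V f) * (wt β a f)⁻¹) (mem_univ f)
  have h2 := mul_le_mul' h1 (le_refl (wt β a f))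
  rwa [mul_assoc, inv_mul_cancel₀ (wt_ne_zero ha f), mul_one] at h2

theorem sp_mono (V : Matrix (Fin k) ι F) (m : Mon k β d) :
    sp (mono V m) = ∏ f, sp (mnr V f) ^ m.1 f := by
  unfold mono
  rw [sp_prod]
  exact prod_congr rfl fun f _ => sp_pow _ _

theorem mono_le {N : ℕ} (hk : 0 < k) (hd : ∑ b, d b = k * N) (V : Matrix (Fin k) ι F)
    {a : s → FI F} (ha : ∀ b, a b ≠ 0) (m : Mon k β d) : sp (mono V m) ≤ ff β d N V a := by
  rw [sp_mono]
  have h1 : ∏ f, sp (mnr V f) ^ m.1 f ≤ ∏ f, (cnt β V a * wt β a f) ^ m.1 f :=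
    prod_le_prod' fun f _ => pow_le_pow_left' (le_cnt V ha f) _
  refine h1.trans (le_of_eq ?_)
  simp only [mul_pow]
  rw [prod_mul_distrib, prod_pow_eq_pow_sum, sum_mon hk hd m, prod_wt (β := β) a m, ff]

theorem hh_le [Fintype (Mon k β d)] {N : ℕ} (hk : 0 < k) (hd : ∑ b, d b = k * N)
    (V : Matrix (Fin k) ι F) {a : s → FI F} (ha : ∀ b, a b ≠ 0) :
    hh (β := β) (d := d) V ≤ ff β d N V a := sum_le_FI _ fun m _ => mono_le hk hd V ha m

variable {P : Ideal (𝓞 F)} [hPm : P.IsMaximal]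

/-- local normal form -/
theorem xlem (hP : P ≠ ⊥) (hki : k ≤ Fintype.card ι) (V : Matrix (Fin k) ι F)
    {a : s → FI F} (ha : ∀ b, a b ≠ 0) : ∃ τ : s → F, (∀ b, τ b ≠ 0) ∧
      (∀ b, LL P (sp (τ b)) (a b)) ∧ (∀ b, LL P (a b) (sp (τ b))) ∧
      ∃ f₀ : Fin k → ι, Function.Injective f₀ ∧
        ∀ f, LL P (sp (mnr V f / wt β τ f)) (sp (mnr V f₀ / wt β τ f₀)) := by
  classical
  have h := fun b => exists_gen hP (a b) (ha b)
  choose τ hτ0 hτ1 hτ2 _ using h
  obtain ⟨e⟩ := Function.Embedding.nonempty_of_card_le (α := Fin k) (β := ι) (by simpa using hki)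
  obtain ⟨f₀, hf₀, hmax⟩ := exists_LL_max hP (univ.filter fun f : Fin k → ι => Function.Injective f)
    ⟨e, mem_filter.2 ⟨mem_univ _, e.injective⟩⟩ (fun f => mnr V f / wt β τ f)
  refine ⟨τ, hτ0, hτ1, hτ2, f₀, (mem_filter.1 hf₀).2, fun f => ?_⟩
  by_cases hf : Function.Injective f
  · exact hmax f (mem_filter.2 ⟨mem_univ _, hf⟩)
  · rw [mnr_zero V f hf, zero_div]
    refine LL.of_le ?_
    rw [sp, spanSingleton_zero]
    exact zero_le _

theorem sp_wt (τ : s → F) (f : Fin k → ι) : sp (wt β τ f) = wt β (fun b => sp (τ b)) f := by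
  unfold wt
  rw [sp_prod]

theorem LL_wt {a a' : s → FI F} (h : ∀ b, LL P (a b) (a' b)) (f : Fin k → ι) :
    LL P (wt β a f) (wt β a' f) := LL.prod _ fun _ _ => h _

theorem x1 {V : Matrix (Fin k) ι F} {a : s → FI F} (ha : ∀ b, a b ≠ 0) {τ : s → F}
    (hτ0 : ∀ b, τ b ≠ 0) (hτ1 : ∀ b, LL P (sp (τ b)) (a b)) {y : F}
    (hmax : ∀ f, LL P (sp (mnr V f / wt β τ f)) (sp y)) : LL P (cnt β V a) (sp y) := by
  unfold cnt
  refine LL.sum _ fun f _ => LL.trans ?_ (hmax f)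
  rw [sp_div, div_eq_mul_inv, sp_wt]
  refine (LL.refl _).mul (LL.inv (wt_ne_zero (fun b => sp_ne_zero (hτ0 b)) f)
    (wt_ne_zero ha f) (LL_wt hτ1 f))

theorem x2 {V : Matrix (Fin k) ι F} {a : s → FI F} (ha : ∀ b, a b ≠ 0) {τ : s → F}
    (hτ0 : ∀ b, τ b ≠ 0) (hτ2 : ∀ b, LL P (a b) (sp (τ b))) (f : Fin k → ι) :
    LL P (sp (mnr V f / wt β τ f)) (cnt β V a) := by
  have h1 : sp (mnr V f) * (wt β a f)⁻¹ ≤ cnt β V a :=
    le_sum_FI univ (A := fun f => sp (mnr V f) * (wt β a f)⁻¹) (mem_univ f)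
  refine LL.trans ?_ (LL.of_le h1)
  rw [sp_div, div_eq_mul_inv, sp_wt]
  exact (LL.refl _).mul (LL.inv (wt_ne_zero ha f)
    (wt_ne_zero (fun b => sp_ne_zero (hτ0 b)) f) (LL_wt hτ2 f))

theorem wt_update {τ : s → F} (hτ0 : ∀ b, τ b ≠ 0) (f : Fin k → ι) (j : Fin k) (i : ι) :
    wt β τ (Function.update f j i) = wt β τ f / τ (β (f j)) * τ (β i) := by
  unfold wt
  rw [← mul_prod_erase univ _ (mem_univ j), ← mul_prod_erase univ _ (mem_univ j),
    Function.update_self]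
  have h1 : ∏ l ∈ univ.erase j, τ (β (Function.update f j i l)) =
      ∏ l ∈ univ.erase j, τ (β (f l)) :=
    prod_congr rfl fun l hl => by rw [Function.update_of_ne (ne_of_mem_erase hl)]
  rw [h1]
  have := hτ0 (β (f j))
  field_simp

theorem x3 {V : Matrix (Fin k) ι F} {τ : s → F} (hτ0 : ∀ b, τ b ≠ 0) {f₀ : Fin k → ι}
    (hf₀ : mnr V f₀ ≠ 0)
    (hmax : ∀ f, LL P (sp (mnr V f / wt β τ f)) (sp (mnr V f₀ / wt β τ f₀)))
    (j : Fin k) (i : ι) : LL P (sp (τ (β (f₀ j)) * nf V f₀ j i / τ (β i))) 1 := by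
  have hw : wt β τ f₀ ≠ 0 := prod_ne_zero_iff.2 fun _ _ => hτ0 _
  have h0 : mnr V f₀ / wt β τ f₀ ≠ 0 := div_ne_zero hf₀ hw
  have h1 : τ (β (f₀ j)) * nf V f₀ j i / τ (β i) =
      (mnr V (Function.update f₀ j i) / wt β τ (Function.update f₀ j i)) /
        (mnr V f₀ / wt β τ f₀) := by
    rw [nf_apply V f₀ hf₀, wt_update hτ0]
    have e1 := hτ0 (β (f₀ j))
    have e2 := hτ0 (β i)
    field_simp
  rw [h1, sp_div, div_eq_mul_inv]
  have h2 := (hmax (Function.update f₀ j i)).mul (LL.refl (P := P) (sp (mnr V f₀ / wt β τ f₀))⁻¹)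
  rwa [mul_inv_cancel₀ (sp_ne_zero h0)] at h2

theorem LL_one {x : F} (h : LL P (sp x) 1) : ∃ r : 𝓞 F, r ∉ P ∧ ∃ u : 𝓞 F, (r : F) * x = u := by
  rw [← sp_one, LL_sp one_ne_zero] at h
  obtain ⟨r, hr, u, hu⟩ := h
  exact ⟨r, hr, u, by rw [hu, mul_one]⟩

theorem mnr_map {R S : Type} [CommRing R] [CommRing S] (φ : R →+* S) (Y : Matrix (Fin k) ι R)
    (f : Fin k → ι) : φ (mnr Y f) = mnr (Y.map φ) f := by
  unfold mnr
  rw [RingHom.map_det]
  rfl

theorem mono_map {R S : Type} [CommRing R] [CommRing S] (φ : R →+* S) (Y : Matrix (Fin k) ι R)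
    (m : Mon k β d) : φ (mono Y m) = mono (Y.map φ) m := by
  unfold mono
  rw [map_prod]
  refine prod_congr rfl fun f _ => ?_
  rw [map_pow, mnr_map]

theorem mono_eq_prod {R S : Type} [CommRing R] [CommRing S] (φ : R →+* S) (Y : Matrix (Fin k) ι R)
    (m : Mon k β d) : φ (mono Y m) = ∏ f, φ (mnr Y f) ^ m.1 f := by
  unfold mono
  rw [map_prod]
  exact prod_congr rfl fun f _ => map_pow _ _ _

theorem mnr_coe (Y : Matrix (Fin k) ι (𝓞 F)) (f : Fin k → ι) :
    ((mnr Y f : 𝓞 F) : F) = mnr (Y.map (algebraMap (𝓞 F) F)) f := mnr_map (algebraMap (𝓞 F) F) Y f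

theorem mono_coe (Y : Matrix (Fin k) ι (𝓞 F)) (m : Mon k β d) :
    ((mono Y m : 𝓞 F) : F) = mono (Y.map (algebraMap (𝓞 F) F)) m :=
  mono_map (algebraMap (𝓞 F) F) Y m

attribute [local instance] Ideal.Quotient.field

/-- destabilising set of blocks -/
theorem g2 [Fintype (Mon k β d)] {N : ℕ} (hk : 0 < k) (hki : k ≤ Fintype.card ι)
    (hd : ∑ b, d b = k * N) (hP : P ≠ ⊥) (V : Matrix (Fin k) ι F) (hV : Gen V) {a : s → FI F}
    (ha : ∀ b, a b ≠ 0) (hle : hh (β := β) (d := d) V ≤ (P : FI F) * ff β d N V a) :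
    ∃ (A : Finset s) (r : ℕ), N * r < ∑ b ∈ A, d b ∧
      ∀ f, sp (mnr V f) ≤ (P : FI F) ^ (dA β f A - r) * (cnt β V a * wt β a f) := by
  classical
  obtain ⟨τ, hτ0, hτ1, hτ2, f₀, hf₀, hmax⟩ := xlem (β := β) hP hki V ha
  have hV0 : mnr V f₀ ≠ 0 := hV f₀ hf₀
  have hw : wt β τ f₀ ≠ 0 := prod_ne_zero_iff.2 fun _ _ => hτ0 _
  set y : F := mnr V f₀ / wt β τ f₀ with hy
  have hy0 : y ≠ 0 := div_ne_zero hV0 hw
  -- integral matrix
  obtain ⟨r, hr, hru⟩ := common (P := P) (α := Fin k × ι)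
    (p := fun p r => ∃ u : 𝓞 F, (r : F) * (τ (β (f₀ p.1)) * nf V f₀ p.1 p.2 / τ (β p.2)) = u)
    (fun p => LL_one (x3 hτ0 hV0 hmax p.1 p.2)) (fun p r t ⟨u, hu⟩ => ⟨u * t, by
      rw [cmul, cmul, ← hu]; ring⟩)
  have hru' : ∀ j i, ∃ u : 𝓞 F, (r : F) * (τ (β (f₀ j)) * nf V f₀ j i / τ (β i)) = u :=
    fun j i => hru (j, i)
  choose Y hY using hru'
  set g : Matrix (Fin k) (Fin k) F := Matrix.diagonal fun j => (r : F) * τ (β (f₀ j)) with hg
  have hYm : (Matrix.of Y).map (algebraMap (𝓞 F) F) =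
      Matrix.of fun j i => (g * nf V f₀) j i * (τ (β i))⁻¹ := by
    ext j i
    simp only [Matrix.map_apply, Matrix.of_apply, hg, Matrix.diagonal_mul]
    exact (hY j i).symm.trans (by ring)
  have hgd : g.det = (r : F) ^ k * wt β τ f₀ := by
    rw [hg, Matrix.det_diagonal, prod_mul_distrib, prod_const, card_univ, Fintype.card_fin]
    rfl
  have hr0 : (r : F) ≠ 0 := by
    intro h
    apply hr
    have : r = 0 := RingOfIntegers.ext h
    rw [this]
    exact P.zero_mem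
  have hmn : ∀ f, ((mnr (Matrix.of Y) f : 𝓞 F) : F) = (r : F) ^ k * (mnr V f / (y * wt β τ f)) := by
    intro f
    rw [mnr_coe, hYm, mnr_scale _ (fun i => (τ (β i))⁻¹), mnr_mul, hgd, mnr_nf, hy]
    have h1 : ∏ l, (τ (β (f l)))⁻¹ = (wt β τ f)⁻¹ := prod_inv_distrib _
    rw [h1]
    have h2 : wt β τ f ≠ 0 := prod_ne_zero_iff.2 fun _ _ => hτ0 _
    field_simp
  -- all monomials vanish modulo P
  have hmonoP : ∀ m : Mon k β d, mono (Matrix.of Y) m ∈ P := by
    intro m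
    set G : F := y ^ N * ∏ b, τ b ^ d b with hG
    have hG0 : G ≠ 0 := mul_ne_zero (pow_ne_zero _ hy0)
      (prod_ne_zero_iff.2 fun b _ => pow_ne_zero _ (hτ0 b))
    have h1 : ((mono (Matrix.of Y) m : 𝓞 F) : F) = ((r ^ (k * N) : 𝓞 F) : F) * (mono V m / G) := by
      have h2 : ((mono (Matrix.of Y) m : 𝓞 F) : F) =
          ∏ f, ((r : F) ^ k * (mnr V f / (y * wt β τ f))) ^ m.1 f := by
        refine (mono_eq_prod (algebraMap (𝓞 F) F) (Matrix.of Y) m).trans ?_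
        exact prod_congr rfl fun f _ => congrArg (· ^ m.1 f) (hmn f)
      rw [h2]
      simp only [mul_pow, div_pow]
      rw [prod_mul_distrib, prod_div_distrib, prod_mul_distrib, prod_pow_eq_pow_sum,
        prod_pow_eq_pow_sum, sum_mon hk hd m, prod_wt (β := β) τ m, ← pow_mul, hG]
      have h3 : ((r ^ (k * N) : 𝓞 F) : F) = (r : F) ^ (k * N) :=
        map_pow (algebraMap (𝓞 F) F) r _
      rw [h3]
      rfl
    have h2 : LL P (sp ((mono (Matrix.of Y) m : 𝓞 F) : F)) ((P : FI F) ^ 1) := by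
      rw [h1, sp_mul, sp_div, pow_one]
      have h3 : LL P (sp (mono V m)) ((P : FI F) * sp G) := by
        have h4 : sp (mono V m) ≤ (P : FI F) * ff β d N V a :=
          (le_sum_FI univ (A := fun m : Mon k β d => sp (mono V m)) (mem_univ m)).trans hle
        refine (LL.of_le h4).trans ((LL.refl _).mul ?_)
        rw [ff, hG, sp_mul, sp_pow, sp_prod]
        refine ((x1 ha hτ0 hτ1 hmax).pow N).mul (LL.prod _ fun b _ => ?_)
        rw [sp_pow]
        exact (hτ2 b).pow _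
      have h5 := h3.mul (LL.refl (P := P) (sp G)⁻¹)
      rw [mul_assoc, mul_inv_cancel₀ (sp_ne_zero hG0), mul_one, ← div_eq_mul_inv] at h5
      have h6 := (LL.of_le (P := P) (sp_int_le (r ^ (k * N)))).mul h5
      rwa [one_mul] at h6
    have h3 := LL_mem h2
    rwa [pow_one] at h3
  -- Rado's theorem modulo P
  have hrado : ∃ A : Finset s, N * finrank ((𝓞 F) ⧸ P)
      (csp β ((Matrix.of Y).map (Ideal.Quotient.mk P)) A) < ∑ b ∈ A, d b := by
    by_contra hcon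
    push Not at hcon
    obtain ⟨m, hm⟩ := rado_mono (β := β) hk hd ((Matrix.of Y).map (Ideal.Quotient.mk P)) hcon
    apply hm
    have h1 : mono ((Matrix.of Y).map (Ideal.Quotient.mk P)) m =
        Ideal.Quotient.mk P (mono (Matrix.of Y) m) := (mono_map _ _ _).symm
    rw [h1, Ideal.Quotient.eq_zero_iff_mem]
    exact hmonoP m
  obtain ⟨A, hA⟩ := hrado
  refine ⟨A, _, hA, fun f => ?_⟩
  set e := dA β f A - finrank ((𝓞 F) ⧸ P) (csp β ((Matrix.of Y).map (Ideal.Quotient.mk P)) A)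
    with he
  refine LL.prim ?_ (le_cnt V ha f)
  have h1 : mnr (Matrix.of Y) f ∈ P ^ e := mnr_mem_pow P (Matrix.of Y) f A
  have h2 : sp ((mnr (Matrix.of Y) f : 𝓞 F) : F) ≤ (P : FI F) ^ e := by
    rw [← coeIdeal_pow, sp_int, coeIdeal_le_coeIdeal, Ideal.span_singleton_le_iff_mem]
    exact h1
  rw [hmn f] at h2
  have hwf : wt β τ f ≠ 0 := prod_ne_zero_iff.2 fun _ _ => hτ0 _
  have h3 : LL P (sp (mnr V f / (y * wt β τ f))) ((P : FI F) ^ e) := by
    refine ⟨r ^ k, fun hcon => hr (hPm.isPrime.mem_of_pow_mem k hcon), ?_⟩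
    have h4 : ((r ^ k : 𝓞 F) : F) = (r : F) ^ k := map_pow (algebraMap (𝓞 F) F) r _
    rw [h4, ← sp_mul]
    exact h2
  have h5 := h3.mul ((x2 (β := β) (V := V) ha hτ0 hτ2 f₀).mul (LL_wt (β := β) hτ1 f))
  rw [← sp_wt, ← sp_mul, ← sp_mul] at h5
  have h6 : mnr V f / (y * wt β τ f) * (mnr V f₀ / wt β τ f₀ * wt β τ f) = mnr V f := by
    rw [← hy]
    field_simp
  rw [h6] at h5
  exact h5

end

end Run7.h3.GT
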