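import Pool.Agent.Run7.h3.GT.Fnt

set_option autoImplicit false
set_option linter.unusedSectionVars false
set_option linter.unusedVariables false

/-! The Weil height of a tuple and the norm of the ideal generated by its entries. -/

namespace Run7.h3.GT

open Finset Module NumberField FractionalIdeal
open scoped nonZeroDivisors

section

variable {F : Type} [Field F] [NumberField F]

/-- the norm of a fractional ideal, as a real number -/
noncomputable def nm (I : FI F) : ℝ := ((absNorm I : ℚ) : ℝ)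

theorem nm_mul (I J : FI F) : nm (I * J) = nm I * nm J := by
  unfold nm
  rw [map_mul]
  push_cast
  rfl

theorem nm_one : nm (1 : FI F) = 1 := by
  unfold nm
  rw [map_one]
  simp

theorem nm_pow (I : FI F) (n : ℕ) : nm (I ^ n) = nm I ^ n := by
  unfold nm
  rw [map_pow]
  push_cast
  rfl

theorem nm_prod {α : Type} (t : Finset α) (I : α → FI F) : nm (∏ i ∈ t, I i) = ∏ i ∈ t, nm (I i) := by
  unfold nm
  rw [map_prod]
  push_cast
  rfl

theorem nm_nonneg (I : FI F) : 0 ≤ nm I := by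
  unfold nm
  exact_mod_cast absNorm_nonneg I

theorem nm_pos {I : FI F} (hI : I ≠ 0) : 0 < nm I := by
  refine lt_of_le_of_ne (nm_nonneg I) fun h => hI ?_
  unfold nm at h
  exact absNorm_eq_zero_iff.1 (by exact_mod_cast h.symm)

theorem nm_sp (x : F) : nm (sp x) = ∏ w : InfinitePlace F, w x ^ w.mult := by
  unfold nm
  rw [absNorm_span_singleton, InfinitePlace.prod_eq_abs_norm]

theorem nm_coe (I : Ideal (𝓞 F)) : nm (I : FI F) = (Ideal.absNorm I : ℝ) := by
  unfold nm
  rw [coeIdeal_absNorm]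
  simp

/-- the norm is decreasing -/
theorem nm_le {I J : FI F} (hI : I ≠ 0) (h : I ≤ J) : nm J ≤ nm I := by
  have hJ : J ≠ 0 := by
    rintro rfl
    rw [FractionalIdeal.le_zero_iff] at h
    exact hI h
  have h1 : I * J⁻¹ ≤ 1 := by
    have := mul_le_mul' h (le_refl J⁻¹)
    rwa [mul_inv_cancel₀ hJ] at this
  obtain ⟨q, hq⟩ := le_one_iff_exists_coeIdeal.1 h1
  have h2 : I = (q : FI F) * J := by
    rw [hq, mul_assoc, inv_mul_cancel₀ hJ, mul_one]
  have hq0 : q ≠ ⊥ := by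
    rintro rfl
    rw [coeIdeal_bot, zero_mul] at h2
    exact hI h2
  have h3 : (1 : ℝ) ≤ nm (q : FI F) := by
    rw [nm_coe]
    have : Ideal.absNorm q ≠ 0 := by
      rw [Ne, Ideal.absNorm_eq_zero_iff]
      exact hq0
    exact_mod_cast Nat.one_le_iff_ne_zero.2 this
  rw [h2, nm_mul]
  have := nm_nonneg J
  nlinarith

/-- the ideal generated by a finite tuple -/
theorem ideal_sum {α : Type} [Fintype α] (y : α → 𝓞 F) :
    ((Ideal.span (Set.range y) : Ideal (𝓞 F)) : FI F) = ∑ i, sp ((y i : 𝓞 F) : F) := by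
  have h1 : Ideal.span (Set.range y) = ∑ i, Ideal.span {y i} := by
    rw [Ideal.span_range_eq_iSup, Ideal.sum_eq_sup, Finset.sup_univ_eq_iSup]
  have h2 : ((∑ i, Ideal.span {y i} : Ideal (𝓞 F)) : FI F) =
      ∑ i, ((Ideal.span {y i} : Ideal (𝓞 F)) : FI F) :=
    map_sum (coeIdealHom (𝓞 F)⁰ F) _ _
  rw [h1, h2]
  exact Finset.sum_congr rfl fun i _ => coeIdeal_span_singleton (y i)

theorem hid {α : Type} [Fintype α] (x : α → F) (hx : ∃ i, x i ≠ 0) :
    Height.mulHeight x = (∏ w : InfinitePlace F, (⨆ i, w (x i)) ^ w.mult) / nm (∑ i, sp (x i)) := by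
  obtain ⟨i₀, hi₀⟩ := hx
  have : Nonempty α := ⟨i₀⟩
  obtain ⟨b, hb⟩ := IsLocalization.exist_integer_multiples_of_finite (𝓞 F)⁰ x
  choose y hy using hb
  obtain ⟨c, hc⟩ : ∃ c : F, c = algebraMap (𝓞 F) F b := ⟨_, rfl⟩
  have hc0 : c ≠ 0 := by
    rw [hc]
    exact (map_ne_zero_iff _ (IsFractionRing.injective (𝓞 F) F)).2 (nonZeroDivisors.coe_ne_zero b)
  have hy' : ∀ i, ((y i : 𝓞 F) : F) = c * x i := by
    intro i
    have h1 := hy i
    rw [Algebra.smul_def, ← hc] at h1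
    exact h1
  have hyx : (fun i => ((y i : 𝓞 F) : F)) = c • x := by
    funext i
    rw [hy' i]
    rfl
  have hy0 : y ≠ 0 := by
    intro h
    have h1 := hy' i₀
    rw [h] at h1
    have h2 : c * x i₀ = 0 := by
      rw [← h1]
      simp
    exact (mul_ne_zero hc0 hi₀) h2
  have hyF : (fun i => ((y i : 𝓞 F) : F)) ≠ 0 := by
    rw [hyx]
    intro h
    have h2 : c * x i₀ = 0 := congrFun h i₀
    exact (mul_ne_zero hc0 hi₀) h2
  have h1 : Height.mulHeight x = Height.mulHeight (fun i => ((y i : 𝓞 F) : F)) := by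
    rw [hyx, Height.mulHeight_smul_eq_mulHeight x hc0]
  have h2 := absNorm_mul_finprod_finitePlace_eq_one (K := F) hy0
  have h3 : ((Ideal.absNorm (Ideal.span (Set.range y)) : ℕ) : ℝ) =
      nm (∑ i, sp ((y i : 𝓞 F) : F)) := by
    rw [← ideal_sum, nm_coe]
  have h4 : (∑ i, sp ((y i : 𝓞 F) : F)) = sp c * ∑ i, sp (x i) := by
    rw [Finset.mul_sum]
    refine Finset.sum_congr rfl fun i _ => ?_
    rw [hy' i, sp_mul]
  have h5 : nm (∑ i, sp ((y i : 𝓞 F) : F)) = nm (sp c) * nm (∑ i, sp (x i)) := by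
    rw [h4, nm_mul]
  have h6 : ∏ w : InfinitePlace F, (⨆ i, w ((y i : 𝓞 F) : F)) ^ w.mult =
      nm (sp c) * ∏ w : InfinitePlace F, (⨆ i, w (x i)) ^ w.mult := by
    rw [nm_sp, ← Finset.prod_mul_distrib]
    refine Finset.prod_congr rfl fun w _ => ?_
    rw [← mul_pow, Real.mul_iSup_of_nonneg (apply_nonneg w _)]
    congr 1
    refine iSup_congr fun i => ?_
    rw [hy' i, map_mul]
  have hN0 : nm (sp c) ≠ 0 := (nm_pos (sp_ne_zero hc0)).ne'
  have hne : (∑ i, sp (x i)) ≠ 0 := by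
    intro h
    have h7 : sp (x i₀) ≤ ∑ i, sp (x i) := le_sum_FI univ (A := fun i => sp (x i)) (mem_univ i₀)
    rw [h, FractionalIdeal.le_zero_iff] at h7
    exact sp_ne_zero hi₀ h7
  have hn0 : nm (∑ i, sp (x i)) ≠ 0 := (nm_pos hne).ne'
  rw [h3, h5] at h2
  rw [h1, NumberField.mulHeight_eq hyF, h6]
  rw [eq_div_iff hn0]
  linear_combination (∏ w : InfinitePlace F, (⨆ i, w (x i)) ^ w.mult) * h2

end

end Run7.h3.GT
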