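import Pool.Agent.Run7.h3.GT.Mono

set_option autoImplicit false
set_option linter.unusedSectionVars false

/-! Linear algebra of minors. -/

namespace Run7.h3.GT

open Finset Module Submodule

section

variable {K : Type} [Field K] {k : ℕ} {ι s : Type} [Fintype ι] [DecidableEq ι]
  [Fintype s] [DecidableEq s] {β : ι → s} {d : s → ℕ}

/-- all maximal minors are nonzero -/
def Gen {R : Type} [CommRing R] (V : Matrix (Fin k) ι R) : Prop :=
  ∀ f : Fin k → ι, Function.Injective f → mnr V f ≠ 0

/-- the number of the columns of `f` in the blocks `A` -/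
def dA (β : ι → s) (f : Fin k → ι) (A : Finset s) : ℕ := ∑ b ∈ A, dg β f b

theorem dA_eq (f : Fin k → ι) (A : Finset s) :
    dA β f A = (univ.filter fun l => β (f l) ∈ A).card := by
  unfold dA dg
  rw [card_eq_sum_card_fiberwise (t := A) (f := fun l => β (f l))
    (fun l hl => by simpa using hl)]
  refine sum_congr rfl fun b hb => ?_
  congr 1
  ext l
  simp only [mem_filter, mem_univ, true_and]
  constructor
  · intro h
    exact ⟨h ▸ hb, h⟩
  · exact fun h => h.2

theorem dA_le (f : Fin k → ι) (A : Finset s) : dA β f A ≤ k := by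
  rw [dA_eq]
  refine (card_filter_le _ _).trans ?_
  simp

theorem cols_indep (V : Matrix (Fin k) ι K) (f : Fin k → ι) (h : mnr V f ≠ 0) :
    LinearIndependent K (fun l : Fin k => (fun j => V j (f l) : Fin k → K)) := by
  have h2 : IsUnit (V.submatrix id f) :=
    (Matrix.isUnit_iff_isUnit_det _).2 (isUnit_iff_ne_zero.2 h)
  exact Matrix.linearIndependent_cols_iff_isUnit.2 h2

theorem dA_le_rank (V : Matrix (Fin k) ι K) (f : Fin k → ι) (h : mnr V f ≠ 0) (A : Finset s) :
    dA β f A ≤ finrank K (csp β V A) := by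
  have h1 := (cols_indep V f h).comp (fun l : {l : Fin k // β (f l) ∈ A} => l.1)
    Subtype.val_injective
  have h2 : ∀ l : {l : Fin k // β (f l) ∈ A},
      ((fun l : Fin k => (fun j => V j (f l) : Fin k → K)) ∘
        (fun l : {l : Fin k // β (f l) ∈ A} => l.1)) l ∈ csp β V A := by
    intro l
    refine subset_span ⟨f l.1, ?_, rfl⟩
    simpa using l.2
  have h3 : LinearIndependent K (fun l : {l : Fin k // β (f l) ∈ A} =>
      (⟨_, h2 l⟩ : csp β V A)) := by
    refine LinearIndependent.of_comp (csp β V A).subtype ?_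
    exact h1
  have h4 := h3.fintype_card_le_finrank
  rw [dA_eq, ← Fintype.card_subtype]
  exact h4

/-- generic matrices have nonvanishing monomials -/
theorem gen_mono {N : ℕ} (hk : 0 < k) (hki : k ≤ Fintype.card ι) (hd : ∑ b, d b = k * N)
    (hn : ∀ b, d b ≤ (univ.filter fun i => β i = b).card * N) (V : Matrix (Fin k) ι K)
    (hV : Gen V) : ∃ m : Mon k β d, mono V m ≠ 0 := by
  classical
  refine rado_mono hk hd V fun A => ?_
  set T : Finset ι := univ.filter fun i => β i ∈ A with hT
  -- a set of `k` columns inside or around `T`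
  have h1 : min k T.card ≤ finrank K (csp β V A) := by
    obtain ⟨B, hB1, hB2⟩ : ∃ B : Finset ι, B.card = k ∧ min k T.card ≤ (B ∩ T).card := by
      rcases le_total k T.card with h | h
      · obtain ⟨B, hB, hc⟩ := exists_subset_card_eq h
        refine ⟨B, hc, ?_⟩
        rw [inter_eq_left.2 hB, hc]
        exact min_le_left _ _
      · obtain ⟨B, hB, _, hc⟩ := exists_subsuperset_card_eq (subset_univ T) h
          (by rw [card_univ]; exact hki)
        refine ⟨B, hc, ?_⟩
        rw [inter_eq_right.2 hB]
        exact min_le_right _ _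
    set e : Fin k ≃ B := (Fintype.equivFinOfCardEq (by rw [Fintype.card_coe, hB1])).symm with he
    have hinj : Function.Injective (fun l => (e l : ι)) :=
      Subtype.val_injective.comp e.injective
    have h2 := dA_le_rank (β := β) V (fun l => (e l : ι)) (hV _ hinj) A
    refine le_trans (hB2.trans ?_) h2
    rw [dA_eq]
    have h3 : (B ∩ T) ⊆ (univ.filter fun l => β (e l : ι) ∈ A).image (fun l => (e l : ι)) := by
      intro i hi
      rw [mem_inter] at hi
      rw [mem_image]
      refine ⟨e.symm ⟨i, hi.1⟩, ?_, by simp⟩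
      rw [mem_filter]
      refine ⟨mem_univ _, ?_⟩
      rw [Equiv.apply_symm_apply]
      exact (mem_filter.1 hi.2).2
    exact (card_le_card h3).trans card_image_le
  have h2 : ∑ b ∈ A, d b ≤ N * k := by
    rw [mul_comm, ← hd]
    exact sum_le_sum_of_subset (subset_univ A)
  have h3 : ∑ b ∈ A, d b ≤ N * T.card := by
    refine (sum_le_sum fun b _ => hn b).trans ?_
    rw [← sum_mul, mul_comm]
    refine Nat.mul_le_mul_left _ (le_of_eq ?_)
    rw [hT, card_eq_sum_card_fiberwise (t := A) (f := β) (fun i hi => by simpa using hi)]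
    refine sum_congr rfl fun b hb => ?_
    congr 1
    ext i
    simp only [mem_filter, mem_univ, true_and]
    constructor
    · intro h
      exact ⟨h ▸ hb, h⟩
    · exact fun h => h.2
  have h4 : ∑ b ∈ A, d b ≤ N * min k T.card := by
    rcases le_total k T.card with h | h
    · rw [min_eq_left h]; exact h2
    · rw [min_eq_right h]; exact h3
  exact h4.trans (Nat.mul_le_mul_left _ h1)

/-- the normal form of a matrix: the columns of `f` become the unit vectors -/
noncomputable def nf (V : Matrix (Fin k) ι K) (f : Fin k → ι) : Matrix (Fin k) ι K :=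
  (V.submatrix id f)⁻¹ * V

theorem mnr_nf (V : Matrix (Fin k) ι K) (f f' : Fin k → ι) :
    mnr (nf V f) f' = mnr V f' / mnr V f := by
  unfold nf
  rw [mnr_mul, Matrix.det_nonsing_inv, Ring.inverse_eq_inv', div_eq_inv_mul]
  rfl

theorem nf_apply (V : Matrix (Fin k) ι K) (f : Fin k → ι) (hf : mnr V f ≠ 0) (j : Fin k) (i : ι) :
    nf V f j i = mnr V (Function.update f j i) / mnr V f := by
  unfold nf mnr
  have h1 : ((V.submatrix id f)⁻¹ * V) j i = ((V.submatrix id f)⁻¹.mulVec (fun l => V l i)) j := rfl
  rw [h1, Matrix.inv_def, Matrix.smul_mulVec, ← Matrix.cramer_eq_adjugate_mulVec, Pi.smul_apply,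
    Matrix.cramer_apply, Ring.inverse_eq_inv', smul_eq_mul, div_eq_inv_mul]
  congr 2
  ext a c
  simp only [Matrix.updateCol_apply, Matrix.submatrix_apply, id]
  split_ifs with h
  · rw [h, Function.update_self]
  · rw [Function.update_of_ne h]

theorem mono_mul (g : Matrix (Fin k) (Fin k) K) {N : ℕ} (hk : 0 < k) (hd : ∑ b, d b = k * N)
    (V : Matrix (Fin k) ι K) (m : Mon k β d) : mono (g * V) m = g.det ^ N * mono V m := by
  unfold mono
  rw [← sum_mon hk hd m, ← prod_pow_eq_pow_sum, ← prod_mul_distrib]
  refine prod_congr rfl fun f _ => ?_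
  rw [mnr_mul, mul_pow]

theorem mono_scale (V : Matrix (Fin k) ι K) (τ : s → K) (m : Mon k β d) :
    mono (Matrix.of fun j i => V j i * τ (β i)) m = (∏ b, τ b ^ d b) * mono V m := by
  unfold mono
  rw [← prod_wt (β := β) τ m, ← prod_mul_distrib]
  refine prod_congr rfl fun f _ => ?_
  rw [mnr_scale V (fun i => τ (β i)) f, mul_pow]
  rfl

end

end Run7.h3.GT
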