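import Mathlib

set_option autoImplicit false
set_option linter.unusedSectionVars false

/-! Rado's theorem on independent transversals, for finite families of finite sets of vectors. -/

namespace Run7.h3.GT

open Finset Module Submodule

section

variable {K E P J : Type} [Field K] [AddCommGroup E] [Module K E] [FiniteDimensional K E]
  [DecidableEq P] [Fintype J] [DecidableEq J]

/-- the span of the vectors of an index set -/
def spn (K : Type) {E P : Type} [Field K] [AddCommGroup E] [Module K E] (v : P → E)
    (A : Finset P) : Submodule K E := span K (v '' (A : Set P))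

theorem spn_mono (v : P → E) {A B : Finset P} (h : A ⊆ B) : spn K v A ≤ spn K v B :=
  span_mono (Set.image_mono (by exact_mod_cast h))

theorem spn_union (v : P → E) (A B : Finset P) : spn K v (A ∪ B) = spn K v A ⊔ spn K v B := by
  unfold spn
  rw [coe_union, Set.image_union, span_union]

/-- the condition of Rado's theorem -/
def RC (K : Type) {E P J : Type} [Field K] [AddCommGroup E] [Module K E] [DecidableEq P]
    (v : P → E) (S : J → Finset P) : Prop :=
  ∀ A : Finset J, A.card ≤ finrank K (spn K v (A.biUnion S))

theorem rado_step (v : P → E) (S : J → Finset P) (hS : RC K v S) (j : J) (x y : P) (hxy : x ≠ y)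
    (hx : x ∈ S j) (hy : y ∈ S j) :
    RC K v (Function.update S j ((S j).erase x)) ∨
      RC K v (Function.update S j ((S j).erase y)) := by
  by_contra hcon
  push Not at hcon
  obtain ⟨h1, h2⟩ := hcon
  have key : ∀ T : Finset P, ¬ RC K v (Function.update S j T) →
      ∃ A : Finset J, j ∉ A ∧ finrank K (spn K v (T ∪ A.biUnion S)) ≤ A.card := by
    intro T hT
    unfold RC at hT
    push Not at hT
    obtain ⟨A, hA⟩ := hT
    have hup : ∀ B : Finset J, j ∉ B → B.biUnion (Function.update S j T) = B.biUnion S := by
      intro B hB
      refine biUnion_congr rfl fun i hi => ?_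
      rw [Function.update_of_ne]
      rintro rfl
      exact hB hi
    by_cases hj : j ∈ A
    · refine ⟨A.erase j, notMem_erase _ _, ?_⟩
      have e : A.biUnion (Function.update S j T) = T ∪ (A.erase j).biUnion S := by
        conv_lhs => rw [← insert_erase hj]
        rw [biUnion_insert, Function.update_self, hup _ (notMem_erase _ _)]
      rw [e] at hA
      have := card_erase_add_one hj
      omega
    · rw [hup A hj] at hA
      exact absurd (hS A) (by omega)
  obtain ⟨A₁, hj1, hA1⟩ := key _ h1
  obtain ⟨A₂, hj2, hA2⟩ := key _ h2
  have hmod := Submodule.finrank_sup_add_finrank_inf_eq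
    (spn K v ((S j).erase x ∪ A₁.biUnion S)) (spn K v ((S j).erase y ∪ A₂.biUnion S))
  have hA : (insert j (A₁ ∪ A₂)).card ≤
      finrank K (spn K v ((S j).erase x ∪ A₁.biUnion S) ⊔
        spn K v ((S j).erase y ∪ A₂.biUnion S) : Submodule K E) := by
    refine (hS _).trans (Submodule.finrank_mono ?_)
    rw [← spn_union]
    refine spn_mono v fun p hp => ?_
    rw [mem_biUnion] at hp
    obtain ⟨i, hi, hpi⟩ := hp
    rcases mem_insert.1 hi with rfl | hi
    · by_cases hpx : p = x
      · refine mem_union_right _ (mem_union_left _ (mem_erase.2 ⟨?_, hpi⟩))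
        rw [hpx]
        exact hxy
      · exact mem_union_left _ (mem_union_left _ (mem_erase.2 ⟨hpx, hpi⟩))
    · rcases mem_union.1 hi with hi | hi
      · exact mem_union_left _ (mem_union_right _ (mem_biUnion.2 ⟨i, hi, hpi⟩))
      · exact mem_union_right _ (mem_union_right _ (mem_biUnion.2 ⟨i, hi, hpi⟩))
  have hB : (A₁ ∩ A₂).card ≤
      finrank K (spn K v ((S j).erase x ∪ A₁.biUnion S) ⊓
        spn K v ((S j).erase y ∪ A₂.biUnion S) : Submodule K E) := by
    refine (hS _).trans (Submodule.finrank_mono (le_inf ?_ ?_))
    · refine spn_mono v fun p hp => ?_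
      rw [mem_biUnion] at hp
      obtain ⟨i, hi, hpi⟩ := hp
      exact mem_union_right _ (mem_biUnion.2 ⟨i, (mem_inter.1 hi).1, hpi⟩)
    · refine spn_mono v fun p hp => ?_
      rw [mem_biUnion] at hp
      obtain ⟨i, hi, hpi⟩ := hp
      exact mem_union_right _ (mem_biUnion.2 ⟨i, (mem_inter.1 hi).2, hpi⟩)
  have hc := card_union_add_card_inter A₁ A₂
  rw [card_insert_of_notMem (by simp [hj1, hj2])] at hA
  omega

/-- Rado's theorem -/
theorem rado (v : P → E) (S : J → Finset P) (hS : RC K v S) :
    ∃ c : J → P, (∀ j, c j ∈ S j) ∧ LinearIndependent K (v ∘ c) := by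
  induction hN : ∑ j, (S j).card using Nat.strong_induction_on generalizing S with
  | _ N ih =>
    by_cases h1 : ∀ j, (S j).card ≤ 1
    · have h : ∀ j, ∃ x, S j = {x} := by
        intro j
        have hj := hS {j}
        rw [card_singleton, singleton_biUnion] at hj
        rcases (S j).eq_empty_or_nonempty with h0 | h0
        · rw [h0, spn, coe_empty, Set.image_empty, span_empty, finrank_bot] at hj
          omega
        · exact card_eq_one.1 (le_antisymm (h1 j) (card_pos.2 h0))
      choose c hc using h
      refine ⟨c, fun j => by rw [hc j]; exact mem_singleton_self _, ?_⟩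
      rw [linearIndependent_iff_card_le_finrank_span]
      have := hS univ
      have e : v '' ((univ.biUnion S : Finset P) : Set P) = Set.range (v ∘ c) := by
        ext w
        simp only [Set.mem_image, mem_coe, mem_biUnion, mem_univ, true_and, Set.mem_range,
          Function.comp]
        constructor
        · rintro ⟨p, ⟨j, hj⟩, rfl⟩
          rw [hc j, mem_singleton] at hj
          exact ⟨j, by rw [hj]⟩
        · rintro ⟨j, rfl⟩
          exact ⟨c j, ⟨j, by rw [hc j]; exact mem_singleton_self _⟩, rfl⟩
      rw [spn, e] at this
      simpa [Set.finrank] using this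
    · push Not at h1
      obtain ⟨j, hj⟩ := h1
      obtain ⟨x, hx, y, hy, hxy⟩ := one_lt_card.1 hj
      have hgo : ∀ z ∈ S j, RC K v (Function.update S j ((S j).erase z)) →
          ∃ c : J → P, (∀ j, c j ∈ S j) ∧ LinearIndependent K (v ∘ c) := by
        intro z hz hc
        have hs : ∑ i, (Function.update S j ((S j).erase z) i).card < N := by
          rw [← hN]
          refine sum_lt_sum (fun i _ => ?_) ⟨j, mem_univ _, ?_⟩
          · by_cases hi : i = j
            · subst hi
              rw [Function.update_self]
              exact card_erase_le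
            · rw [Function.update_of_ne hi]
          · rw [Function.update_self]
            exact card_erase_lt_of_mem hz
        obtain ⟨c, hc1, hc2⟩ := ih _ hs _ hc rfl
        refine ⟨c, fun i => ?_, hc2⟩
        have := hc1 i
        by_cases hi : i = j
        · subst hi
          rw [Function.update_self] at this
          exact mem_of_mem_erase this
        · rwa [Function.update_of_ne hi] at this
      rcases rado_step v S hS j x y hxy hx hy with h | h
      · exact hgo x hx h
      · exact hgo y hy h

end

end Run7.h3.GT
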