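import Pool.Agent.Run7.h3.GT.Defs
import Pool.Agent.Run7.h3.GT.Rado

set_option autoImplicit false
set_option linter.unusedSectionVars false

/-! Nonvanishing monomials in the minors of a semistable matrix. -/

namespace Run7.h3.GT

open Finset Module Submodule

section

variable {K : Type} [Field K] {k : ℕ} {ι s : Type} [Fintype ι] [DecidableEq ι]
  [Fintype s] [DecidableEq s] {β : ι → s} {d : s → ℕ}

/-- the span of the columns in the blocks `A` -/
def csp (β : ι → s) (V : Matrix (Fin k) ι K) (A : Finset s) : Submodule K (Fin k → K) :=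
  spn K (fun i j => V j i) (univ.filter fun i => β i ∈ A)

theorem pow_spn {N : ℕ} (u : ι → Fin k → K) (T : Finset ι) :
    N * finrank K (spn K u T) ≤ finrank K
      (spn K (fun p : Fin N × ι => (Pi.single p.1 (u p.2) : Fin N → Fin k → K)) (univ ×ˢ T)) := by
  set U := spn K u T with hU
  set Φ : (Fin N → U) →ₗ[K] (Fin N → Fin k → K) := U.subtype.compLeft (Fin N) with hΦ
  have hinj : Function.Injective Φ := by
    intro x y h
    funext t
    have := congrFun h t
    exact Subtype.ext this
  have h1 : finrank K (LinearMap.range Φ) = N * finrank K U := by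
    rw [LinearMap.finrank_range_of_inj hinj, Module.finrank_pi_fintype]
    simp
  rw [← h1]
  refine Submodule.finrank_mono ?_
  rintro _ ⟨w, rfl⟩
  have h2 : Φ w = ∑ t, Pi.single t ((w t : U) : Fin k → K) := by
    funext t
    rw [Finset.sum_apply]
    simp [hΦ, Pi.single_apply]
  rw [h2]
  refine Submodule.sum_mem _ fun t _ => ?_
  have h3 : U ≤ (spn K (fun p : Fin N × ι => (Pi.single p.1 (u p.2) : Fin N → Fin k → K))
      (univ ×ˢ T)).comap (LinearMap.single K (fun _ : Fin N => Fin k → K) t) := by
    rw [hU, spn, span_le]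
    rintro _ ⟨i, hi, rfl⟩
    refine subset_span ⟨(t, i), ?_, rfl⟩
    simpa using hi
  exact h3 (w t).2

theorem rado_mono {N : ℕ} (hk : 0 < k) (hd : ∑ b, d b = k * N) (V : Matrix (Fin k) ι K)
    (h : ∀ A : Finset s, ∑ b ∈ A, d b ≤ N * finrank K (csp β V A)) :
    ∃ m : Mon k β d, mono V m ≠ 0 := by
  classical
  set v : Fin N × ι → (Fin N → Fin k → K) := fun p => Pi.single p.1 (fun j => V j p.2) with hv
  set S : (Σ b, Fin (d b)) → Finset (Fin N × ι) :=
    fun j => univ ×ˢ (univ.filter fun i => β i = j.1) with hS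
  have hRC : RC K v S := by
    intro A
    set B : Finset s := A.image Sigma.fst with hB
    have h1 : A.card ≤ ∑ b ∈ B, d b := by
      have : A ⊆ B.sigma (fun b => (univ : Finset (Fin (d b)))) := by
        intro j hj
        rw [mem_sigma]
        exact ⟨mem_image_of_mem _ hj, mem_univ _⟩
      refine (card_le_card this).trans (le_of_eq ?_)
      rw [card_sigma]
      simp
    have h2 : A.biUnion S = univ ×ˢ (univ.filter fun i => β i ∈ B) := by
      ext ⟨t, i⟩
      simp only [mem_biUnion, hS, mem_product, mem_univ, mem_filter, true_and, hB, mem_image]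
      constructor
      · rintro ⟨j, hj, h⟩
        exact ⟨j, hj, h.symm⟩
      · rintro ⟨j, hj, h⟩
        exact ⟨j, hj, h.symm⟩
    rw [h2]
    exact (h1.trans (h B)).trans (pow_spn _ _)
  obtain ⟨c, hc1, hc2⟩ := rado v S hRC
  have hcard : Fintype.card (Σ b, Fin (d b)) = k * N := by
    rw [Fintype.card_sigma, ← hd]
    simp
  -- independence in one slot
  have hind : ∀ t : Fin N, LinearIndependent K
      (fun j : {j : (Σ b, Fin (d b)) // (c j).1 = t} => (fun l => V l (c j.1).2 : Fin k → K)) := by
    intro t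
    have h1 := hc2.comp (fun j : {j : (Σ b, Fin (d b)) // (c j).1 = t} => j.1)
      Subtype.val_injective
    have h2 : (v ∘ c) ∘ (fun j : {j : (Σ b, Fin (d b)) // (c j).1 = t} => j.1) =
        (LinearMap.single K (fun _ : Fin N => Fin k → K) t) ∘
          (fun j : {j : (Σ b, Fin (d b)) // (c j).1 = t} =>
            (fun l => V l (c j.1).2 : Fin k → K)) := by
      funext j
      simp only [Function.comp, hv, LinearMap.coe_single]
      rw [j.2]
    rw [h2] at h1
    exact LinearIndependent.of_comp _ h1
  have hle : ∀ t : Fin N, Fintype.card {j : (Σ b, Fin (d b)) // (c j).1 = t} ≤ k := by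
    intro t
    have := (hind t).fintype_card_le_finrank
    simpa using this
  have hsum : ∑ t : Fin N, Fintype.card {j : (Σ b, Fin (d b)) // (c j).1 = t} = k * N := by
    rw [← hcard, ← Fintype.card_sigma]
    exact Fintype.card_congr (Equiv.sigmaFiberEquiv fun j => (c j).1)
  have heq : ∀ t : Fin N, Fintype.card {j : (Σ b, Fin (d b)) // (c j).1 = t} = k := by
    by_contra hcon
    push Not at hcon
    obtain ⟨t, ht⟩ := hcon
    have : ∑ t : Fin N, Fintype.card {j : (Σ b, Fin (d b)) // (c j).1 = t} <
        ∑ t : Fin N, k := sum_lt_sum (fun t _ => hle t) ⟨t, mem_univ _, lt_of_le_of_ne (hle t) ht⟩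
    rw [hsum] at this
    simp [mul_comm] at this
  have he : ∀ t : Fin N, Nonempty (Fin k ≃ {j : (Σ b, Fin (d b)) // (c j).1 = t}) := fun t =>
    ⟨(Fintype.equivFinOfCardEq (heq t)).symm⟩
  have e : ∀ t : Fin N, Fin k ≃ {j : (Σ b, Fin (d b)) // (c j).1 = t} := fun t => (he t).some
  set ff : Fin N → Fin k → ι := fun t l => (c (e t l).1).2 with hff
  have hne : ∀ t, mnr V (ff t) ≠ 0 := by
    intro t
    have h1 : LinearIndependent K (V.submatrix id (ff t)).col := by
      have := (hind t).comp (e t) (e t).injective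
      exact this
    have h2 := Matrix.linearIndependent_cols_iff_isUnit.1 h1
    exact ((Matrix.isUnit_iff_isUnit_det _).1 h2).ne_zero
  refine ⟨⟨fun f => (univ.filter fun t => ff t = f).card, fun b => ?_⟩, ?_⟩
  · have h1 : ∑ f, (univ.filter fun t => ff t = f).card * dg β f b = ∑ t, dg β (ff t) b := by
      rw [← sum_fiberwise_of_maps_to (s := univ) (t := univ) (g := ff) (fun _ _ => mem_univ _)]
      refine sum_congr rfl fun f _ => ?_
      rw [sum_congr rfl (g := fun _ => dg β f b) fun t ht => by rw [(mem_filter.1 ht).2],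
        sum_const, smul_eq_mul]
    rw [h1]
    have h2 : ∀ t, dg β (ff t) b =
        Fintype.card {j : {j : (Σ b, Fin (d b)) // (c j).1 = t} // j.1.1 = b} := by
      intro t
      rw [dg, Fintype.card_subtype]
      refine card_bij' (fun l _ => e t l) (fun j _ => (e t).symm j) ?_ ?_ ?_ ?_
      · intro l hl
        rw [mem_filter] at hl ⊢
        refine ⟨mem_univ _, ?_⟩
        have := hc1 (e t l).1
        rw [hS, mem_product, mem_filter] at this
        rw [← this.2.2]
        exact hl.2
      · intro j hj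
        rw [mem_filter] at hj ⊢
        refine ⟨mem_univ _, ?_⟩
        have := hc1 j.1
        rw [hS, mem_product, mem_filter] at this
        simp only [hff, Equiv.apply_symm_apply]
        rw [this.2.2]
        exact hj.2
      · intro l _
        simp
      · intro j _
        simp
    rw [sum_congr rfl fun t _ => h2 t, ← Fintype.card_sigma]
    have h3 : Fintype.card (Σ t, {j : {j : (Σ b, Fin (d b)) // (c j).1 = t} // j.1.1 = b}) =
        Fintype.card {j : (Σ b, Fin (d b)) // j.1 = b} := by
      refine Fintype.card_congr ⟨fun x => ⟨x.2.1.1, x.2.2⟩, fun j => ⟨(c j.1).1, ⟨⟨j.1, rfl⟩, j.2⟩⟩,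
        ?_, ?_⟩
      · rintro ⟨t, ⟨⟨j, rfl⟩, hj⟩⟩
        rfl
      · rintro ⟨j, hj⟩
        rfl
    rw [h3]
    have h4 : Fintype.card {j : (Σ b, Fin (d b)) // j.1 = b} = Fintype.card (Fin (d b)) := by
      refine Fintype.card_congr ⟨fun j => j.2 ▸ j.1.2, fun a => ⟨⟨b, a⟩, rfl⟩, ?_, ?_⟩
      · rintro ⟨⟨b', a⟩, rfl⟩
        rfl
      · intro a
        rfl
    rw [h4, Fintype.card_fin]
  · unfold mono
    rw [prod_ne_zero_iff]
    intro f _
    by_cases hf : ∃ t, ff t = f
    · obtain ⟨t, rfl⟩ := hf
      exact pow_ne_zero _ (hne t)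
    · have : (univ.filter fun t => ff t = f) = ∅ := by
        rw [filter_eq_empty_iff]
        intro t _ h
        exact hf ⟨t, h⟩
      simp only [this, card_empty, pow_zero]
      exact one_ne_zero

end

end Run7.h3.GT
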