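import Mathlib

set_option autoImplicit false
set_option linter.unusedSectionVars false
set_option linter.unusedVariables false

/-! Number fields: Minkowski's theorem, weak approximation, rounding, Dirichlet's theorem. -/

namespace Run7.h3.GT

open Finset Module NumberField FractionalIdeal
open scoped nonZeroDivisors

section

variable (F : Type) [Field F] [NumberField F]

theorem mink : ∃ C : ℝ, 0 < C ∧ ∀ (I : (FractionalIdeal (𝓞 F)⁰ F)ˣ) (L : InfinitePlace F → ℝ),
    (∀ w, 0 < L w) → ∏ w, L w ^ w.mult = ((absNorm (I : FractionalIdeal (𝓞 F)⁰ F) : ℚ) : ℝ) →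
    ∃ t ∈ (I : FractionalIdeal (𝓞 F)⁰ F), t ≠ 0 ∧ ∀ w : InfinitePlace F, w t ≤ C * L w := by
  classical
  set v0 : ENNReal := MeasureTheory.volume (ZSpan.fundamentalDomain
    (mixedEmbedding.latticeBasis F)) with hv0
  have hv0t : v0 ≠ ⊤ := (ZSpan.fundamentalDomain_isBounded _).measure_lt_top.ne
  set n : ℕ := finrank ℝ (mixedEmbedding.mixedSpace F) with hn
  set B : ℝ := v0.toReal * 2 ^ n with hB
  have hB0 : 0 ≤ B := by positivity
  set k0 : ℝ := (mixedEmbedding.convexBodyLTFactor F : ℝ) with hk0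
  have hk0pos : 0 < k0 := by
    have := mixedEmbedding.one_le_convexBodyLTFactor F
    have h2 : (1 : ℝ) ≤ k0 := by exact_mod_cast this
    linarith
  refine ⟨B / k0 + 1, by positivity, fun I L hL hprod => ?_⟩
  set C : ℝ := B / k0 + 1 with hC
  have hC1 : 1 ≤ C := by
    have : 0 ≤ B / k0 := by positivity
    linarith
  set f : InfinitePlace F → NNReal := fun w => ⟨C * L w, by have := hL w; positivity⟩ with hf
  have hI0 : 0 < ((absNorm (I : FractionalIdeal (𝓞 F)⁰ F) : ℚ) : ℝ) := by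
    rw [← hprod]
    exact prod_pos fun w _ => pow_pos (hL w) _
  have hfprod : ((∏ w, f w ^ w.mult : NNReal) : ℝ) =
      C ^ finrank ℚ F * ((absNorm (I : FractionalIdeal (𝓞 F)⁰ F) : ℚ) : ℝ) := by
    push_cast
    have : ∀ w, (f w : ℝ) ^ w.mult = C ^ w.mult * L w ^ w.mult := fun w => mul_pow _ _ _
    rw [prod_congr rfl fun w _ => this w, prod_mul_distrib, hprod, prod_pow_eq_pow_sum,
      InfinitePlace.sum_mult_eq]
  have hlt : mixedEmbedding.minkowskiBound F I <
      MeasureTheory.volume (mixedEmbedding.convexBodyLT F f) := by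
    rw [mixedEmbedding.minkowskiBound, mixedEmbedding.volume_fundamentalDomain_fractionalIdealLatticeBasis,
      mixedEmbedding.convexBodyLT_volume]
    rw [← hv0, ← hn]
    have h1 : ENNReal.ofReal ((absNorm (I : FractionalIdeal (𝓞 F)⁰ F) : ℚ) : ℝ) * v0 * 2 ^ n =
        ENNReal.ofReal (((absNorm (I : FractionalIdeal (𝓞 F)⁰ F) : ℚ) : ℝ) * B) := by
      rw [hB, ENNReal.ofReal_mul hI0.le, ENNReal.ofReal_mul ENNReal.toReal_nonneg,
        ENNReal.ofReal_toReal hv0t, mul_assoc]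
      congr 2
      rw [ENNReal.ofReal_pow (by norm_num)]
      simp
    have h2 : ((mixedEmbedding.convexBodyLTFactor F : NNReal) : ENNReal) *
        ((∏ w, f w ^ w.mult : NNReal) : ENNReal) = ENNReal.ofReal (k0 *
          (C ^ finrank ℚ F * ((absNorm (I : FractionalIdeal (𝓞 F)⁰ F) : ℚ) : ℝ))) := by
      rw [← hfprod, ENNReal.ofReal_mul hk0pos.le, hk0, ENNReal.ofReal_coe_nnreal,
        ENNReal.ofReal_coe_nnreal]
    rw [h1, h2]
    refine (ENNReal.ofReal_lt_ofReal_iff ?_).2 ?_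
    · positivity
    · have h3 : B < k0 * C ^ finrank ℚ F := by
        have h4 : C ≤ C ^ finrank ℚ F := le_self_pow₀ hC1 (finrank_pos (R := ℚ) (M := F)).ne'
        have h5 : k0 * C = B + k0 := by
          rw [hC]
          field_simp
        nlinarith
      nlinarith
  obtain ⟨a, ha, ha0, haw⟩ := mixedEmbedding.exists_ne_zero_mem_ideal_lt F I hlt
  exact ⟨a, ha, ha0, fun w => (haw w).le⟩

/-- weak approximation -/
theorem weak_approx (c : InfinitePlace F → F) {ε : ℝ} (hε : 0 < ε) :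
    ∃ x : F, ∀ w : InfinitePlace F, w (x - c w) < ε := by
  have h := InfinitePlace.denseRange_algebraMap_pi F
  obtain ⟨x, hx⟩ := h.exists_dist_lt (fun w => (WithAbs.equiv w.1).symm (c w)) hε
  refine ⟨x, fun w => ?_⟩
  have h1 := (dist_pi_lt_iff hε).1 hx w
  rw [dist_comm, dist_eq_norm] at h1
  exact h1

variable {F} in
theorem place_sum_le (w : InfinitePlace F) {α : Type} (t : Finset α) (f : α → F) :
    w (∑ i ∈ t, f i) ≤ ∑ i ∈ t, w (f i) := by
  classical
  induction t using Finset.induction_on with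
  | empty => simp
  | insert a t ha ih =>
    rw [sum_insert ha, sum_insert ha]
    exact (w.1.add_le _ _).trans (add_le_add_right ih _)

variable {F} in
theorem place_rat (w : InfinitePlace F) (r : ℚ) : w (r : F) = |(r : ℝ)| := by
  rw [← w.norm_embedding_eq, map_ratCast]
  simp

/-- the sizes of the elements of an integral basis -/
theorem basis_bound : ∃ (α : Type) (_ : Fintype α) (b : α → 𝓞 F) (B : ℝ), 0 < B ∧
    Fintype.card α = finrank ℚ F ∧
    (∀ c : F, ∃ r : α → ℚ, c = ∑ i, (r i : F) * (b i : F)) ∧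
    ∀ w : InfinitePlace F, ∑ i, w (b i : F) ≤ B := by
  classical
  set bs := integralBasis F with hbs
  have hb : ∀ i, ∃ y : 𝓞 F, (y : F) = bs i := fun i => ⟨RingOfIntegers.basis F i,
    (integralBasis_apply F i).symm⟩
  choose b hb using hb
  refine ⟨_, inferInstance, b, 1 + ∑ w : InfinitePlace F, ∑ i, w (b i : F), ?_, ?_, ?_, ?_⟩
  · have : 0 ≤ ∑ w : InfinitePlace F, ∑ i, w (b i : F) :=
      sum_nonneg fun w _ => sum_nonneg fun i _ => apply_nonneg w _
    linarith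
  · rw [← finrank_eq_card_basis bs]
  · intro c
    refine ⟨fun i => bs.repr c i, ?_⟩
    conv_lhs => rw [← bs.sum_repr c]
    refine sum_congr rfl fun i _ => ?_
    rw [hb i, Algebra.smul_def]
    rfl
  · intro w
    have := single_le_sum (f := fun w : InfinitePlace F => ∑ i, w (b i : F))
      (fun w _ => sum_nonneg fun i _ => apply_nonneg w _) (mem_univ w)
    linarith

/-- rounding -/
theorem rounding : ∃ C : ℝ, 0 < C ∧ ∀ c : F, ∃ a : 𝓞 F, ∀ w : InfinitePlace F,
    w (c - (a : F)) ≤ C := by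
  obtain ⟨α, _, b, B, hB, -, hr, hw⟩ := basis_bound F
  refine ⟨B, hB, fun c => ?_⟩
  obtain ⟨r, rfl⟩ := hr c
  refine ⟨∑ i, (⌊r i⌋ : ℤ) * b i, fun w => ?_⟩
  have h1 : ∑ i, (r i : F) * (b i : F) - ((∑ i, (⌊r i⌋ : ℤ) * b i : 𝓞 F) : F) =
      ∑ i, ((Int.fract (r i) : ℚ) : F) * (b i : F) := by
    simp only [map_sum, map_mul, map_intCast]
    rw [← sum_sub_distrib]
    refine sum_congr rfl fun i _ => ?_
    rw [← sub_mul, Int.fract, Rat.cast_sub, Rat.cast_intCast]
  rw [h1]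
  refine (place_sum_le w _ _).trans (le_trans (sum_le_sum fun i _ => ?_) (hw w))
  rw [map_mul, place_rat]
  have h2 : |((Int.fract (r i) : ℚ) : ℝ)| ≤ 1 := by
    have h3 := Int.fract_nonneg (r i)
    have h4 := (Int.fract_lt_one (r i)).le
    rw [abs_of_nonneg (by exact_mod_cast h3)]
    exact_mod_cast h4
  exact mul_le_of_le_one_left (apply_nonneg w _) h2

/-- Dirichlet's theorem on simultaneous approximation -/
theorem dirichlet {ε : ℝ} (hε : 0 < ε) : ∃ Q : ℕ, 0 < Q ∧ ∀ c : F, ∃ q : ℕ, 0 < q ∧ q ≤ Q ∧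
    ∃ a : 𝓞 F, ∀ w : InfinitePlace F, w ((q : F) * c - (a : F)) ≤ ε := by
  classical
  obtain ⟨α, _, b, B, hB, -, hr, hw⟩ := basis_bound F
  obtain ⟨M, hM⟩ := exists_nat_gt (B / ε)
  have hM0 : (0 : ℝ) < M := lt_of_le_of_lt (by positivity) hM
  have hM0' : 0 < M := by exact_mod_cast hM0
  refine ⟨M ^ Fintype.card α, by positivity, fun c => ?_⟩
  obtain ⟨r, rfl⟩ := hr c
  set cell : Fin (M ^ Fintype.card α + 1) → (α → Fin M) := fun q i =>
    ⟨⌊(M : ℚ) * Int.fract ((q : ℕ) * r i)⌋₊, by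
      rw [Nat.floor_lt (mul_nonneg (Nat.cast_nonneg _) (Int.fract_nonneg _))]
      have := Int.fract_lt_one (((q : ℕ) : ℚ) * r i)
      have h2 : (0 : ℚ) < M := by exact_mod_cast hM0'
      nlinarith⟩ with hcell
  obtain ⟨q₁, q₂, hne, heq⟩ := Fintype.exists_ne_map_eq_of_card_lt cell (by
    rw [Fintype.card_fun, Fintype.card_fin, Fintype.card_fin]
    exact Nat.lt_succ_self _)
  wlog hlt : q₁ < q₂ generalizing q₁ q₂
  · exact this q₂ q₁ hne.symm heq.symm (lt_of_le_of_ne (not_lt.1 hlt) hne.symm)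
  have hlt' : (q₁ : ℕ) < q₂ := hlt
  refine ⟨(q₂ : ℕ) - q₁, by omega, by have := q₂.2; omega,
    ∑ i, ((⌊((q₂ : ℕ) : ℚ) * r i⌋ - ⌊((q₁ : ℕ) : ℚ) * r i⌋ : ℤ) : 𝓞 F) * b i, fun w => ?_⟩
  have h1 : (((q₂ : ℕ) - (q₁ : ℕ) : ℕ) : F) * ∑ i, (r i : F) * (b i : F) -
      ((∑ i, ((⌊((q₂ : ℕ) : ℚ) * r i⌋ - ⌊((q₁ : ℕ) : ℚ) * r i⌋ : ℤ) : 𝓞 F) * b i : 𝓞 F) : F) =
      ∑ i, ((Int.fract (((q₂ : ℕ) : ℚ) * r i) - Int.fract (((q₁ : ℕ) : ℚ) * r i) : ℚ) : F) *
        (b i : F) := by
    rw [Nat.cast_sub hlt'.le]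
    simp only [map_sum, map_mul, map_intCast]
    rw [mul_sum, ← sum_sub_distrib]
    refine sum_congr rfl fun i _ => ?_
    simp only [Int.fract]
    push_cast
    ring
  rw [h1]
  refine (place_sum_le w _ _).trans ?_
  have h2 : ∀ i, w (((Int.fract (((q₂ : ℕ) : ℚ) * r i) - Int.fract (((q₁ : ℕ) : ℚ) * r i) : ℚ) : F)
      * (b i : F)) ≤ (1 / M : ℝ) * w (b i : F) := by
    intro i
    rw [map_mul, place_rat]
    refine mul_le_mul_of_nonneg_right ?_ (apply_nonneg w _)
    have h3 : ⌊(M : ℚ) * Int.fract (((q₁ : ℕ) : ℚ) * r i)⌋₊ =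
        ⌊(M : ℚ) * Int.fract (((q₂ : ℕ) : ℚ) * r i)⌋₊ := by
      have := congrFun heq i
      exact congrArg Fin.val this
    set x := Int.fract (((q₁ : ℕ) : ℚ) * r i) with hx
    set y := Int.fract (((q₂ : ℕ) : ℚ) * r i) with hy
    have hx0 : 0 ≤ x := Int.fract_nonneg _
    have hy0 : 0 ≤ y := Int.fract_nonneg _
    have hMq : (0 : ℚ) < M := by exact_mod_cast hM0'
    have e1 := Nat.floor_le (mul_nonneg hMq.le hx0)
    have e2 := Nat.lt_floor_add_one ((M : ℚ) * x)
    have e3 := Nat.floor_le (mul_nonneg hMq.le hy0)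
    have e4 := Nat.lt_floor_add_one ((M : ℚ) * y)
    rw [h3] at e1 e2
    have e5 : |y - x| ≤ 1 / M := by
      rw [abs_le]
      constructor
      · have : (M : ℚ) * (x - y) ≤ 1 := by linarith
        have h4 : x - y ≤ 1 / M := by
          rw [le_div_iff₀ hMq]
          linarith
        linarith
      · rw [le_div_iff₀ hMq]
        linarith
    have e6 : ((|y - x| : ℚ) : ℝ) ≤ ((1 / M : ℚ) : ℝ) := by exact_mod_cast e5
    push_cast at e6
    push_cast
    exact e6
  refine (sum_le_sum fun i _ => h2 i).trans ?_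
  rw [← mul_sum]
  have h3 := hw w
  rw [div_lt_iff₀ hε] at hM
  rw [one_div, inv_mul_le_iff₀ hM0]
  linarith

end

end Run7.h3.GT
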