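import Pool.Agent.Run7.h3.GT.NF

set_option autoImplicit false
set_option linter.unusedSectionVars false
set_option linter.unusedVariables false

/-! Norms and quotient norms on a space of tuples over a number field. -/

namespace Run7.h3.GT

open Finset Module NumberField Submodule

section

variable {F : Type} [Field F] [NumberField F] {ι : Type} [Fintype ι] [Nonempty ι]

/-- the norm with the weights `θ` -/
noncomputable def nrm (θ : ι → ℝ) (x : ι → F) : ℝ :=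
  ⨆ p : InfinitePlace F × ι, p.1 (x p.2) / θ p.2

variable {θ : ι → ℝ}

theorem nrm_bdd (θ : ι → ℝ) (x : ι → F) :
    BddAbove (Set.range fun p : InfinitePlace F × ι => p.1 (x p.2) / θ p.2) :=
  (Set.finite_range _).bddAbove

theorem le_nrm (hθ : ∀ i, 0 < θ i) (x : ι → F) (w : InfinitePlace F) (i : ι) :
    w (x i) ≤ nrm θ x * θ i := by
  have := le_ciSup (nrm_bdd θ x) (w, i)
  rwa [div_le_iff₀ (hθ i)] at this

theorem nrm_le (hθ : ∀ i, 0 < θ i) (x : ι → F) {R : ℝ} (h : ∀ w : InfinitePlace F, ∀ i,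
    w (x i) ≤ R * θ i) : nrm θ x ≤ R :=
  ciSup_le fun p => by
    rw [div_le_iff₀ (hθ p.2)]
    exact h p.1 p.2

theorem nrm_nonneg (hθ : ∀ i, 0 < θ i) (x : ι → F) : 0 ≤ nrm θ x :=
  Real.iSup_nonneg fun p => div_nonneg (apply_nonneg p.1 _) (hθ p.2).le

theorem nrm_add (hθ : ∀ i, 0 < θ i) (x y : ι → F) : nrm θ (x + y) ≤ nrm θ x + nrm θ y :=
  nrm_le hθ _ fun w i => by
    have h1 := le_nrm hθ x w i
    have h2 := le_nrm hθ y w i
    have h3 : w ((x + y) i) ≤ w (x i) + w (y i) := w.1.add_le _ _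
    linarith

theorem nrm_smul (hθ : ∀ i, 0 < θ i) (c : F) (x : ι → F) {B : ℝ}
    (hB : ∀ w : InfinitePlace F, w c ≤ B) : nrm θ (c • x) ≤ B * nrm θ x :=
  nrm_le hθ _ fun w i => by
    have h1 := le_nrm hθ x w i
    have h2 : w ((c • x) i) = w c * w (x i) := by
      rw [Pi.smul_apply, smul_eq_mul, map_mul]
    rw [h2, mul_assoc]
    have h3 : 0 ≤ w c := apply_nonneg w _
    exact mul_le_mul (hB w) h1 (apply_nonneg w _) (h3.trans (hB w))

theorem nrm_zero (hθ : ∀ i, 0 < θ i) : nrm θ (0 : ι → F) = 0 :=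
  le_antisymm (nrm_le hθ _ fun w i => by simp) (nrm_nonneg hθ _)

theorem nrm_pos (hθ : ∀ i, 0 < θ i) {x : ι → F} (hx : x ≠ 0) : 0 < nrm θ x := by
  obtain ⟨i, hi⟩ := Function.ne_iff.1 hx
  obtain ⟨w⟩ : Nonempty (InfinitePlace F) := inferInstance
  have h1 := le_nrm hθ x w i
  have h2 : 0 < w (x i) := w.pos_iff.2 hi
  by_contra hcon
  push Not at hcon
  have := hθ i
  nlinarith

theorem nrm_sum_le (hθ : ∀ i, 0 < θ i) {α : Type} (t : Finset α) (x : α → ι → F) :
    nrm θ (∑ a ∈ t, x a) ≤ ∑ a ∈ t, nrm θ (x a) := by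
  classical
  induction t using Finset.induction_on with
  | empty => simp [nrm_zero hθ]
  | insert a t ha ih =>
    rw [sum_insert ha, sum_insert ha]
    exact (nrm_add hθ _ _).trans (add_le_add_right ih _)

/-- the quotient norm -/
noncomputable def qn (θ : ι → ℝ) (S : Submodule F (ι → F)) (x : ι → F) : ℝ :=
  ⨅ z : S, nrm θ (x - (z : ι → F))

theorem qn_nonneg (hθ : ∀ i, 0 < θ i) (S : Submodule F (ι → F)) (x : ι → F) : 0 ≤ qn θ S x :=
  Real.iInf_nonneg fun z => nrm_nonneg hθ _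

theorem qn_le (hθ : ∀ i, 0 < θ i) (S : Submodule F (ι → F)) (x : ι → F) {z : ι → F}
    (hz : z ∈ S) : qn θ S x ≤ nrm θ (x - z) :=
  ciInf_le ⟨0, by rintro _ ⟨z, rfl⟩; exact nrm_nonneg hθ _⟩ (⟨z, hz⟩ : S)

theorem exists_qn (hθ : ∀ i, 0 < θ i) (S : Submodule F (ι → F)) (x : ι → F) {ε : ℝ}
    (hε : 0 < ε) : ∃ z ∈ S, nrm θ (x - z) < qn θ S x + ε := by
  obtain ⟨z, hz⟩ := exists_lt_of_ciInf_lt (show qn θ S x < qn θ S x + ε by linarith)
  exact ⟨z, z.2, hz⟩

theorem qn_bot (hθ : ∀ i, 0 < θ i) (x : ι → F) : qn θ ⊥ x = nrm θ x := by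
  apply le_antisymm
  · have := qn_le hθ ⊥ x (zero_mem _)
    rwa [sub_zero] at this
  · refine le_ciInf fun z => ?_
    have : (z : ι → F) = 0 := (Submodule.mem_bot F).1 z.2
    rw [this, sub_zero]

theorem qn_congr (hθ : ∀ i, 0 < θ i) (S : Submodule F (ι → F)) {x y : ι → F} (h : x - y ∈ S) :
    qn θ S x ≤ qn θ S y := by
  refine le_of_forall_pos_le_add fun ε hε => ?_
  obtain ⟨z, hz, hz2⟩ := exists_qn hθ S y hε
  have h1 := qn_le hθ S x (S.add_mem h hz)
  have h2 : x - (x - y + z) = y - z := by abel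
  rw [h2] at h1
  linarith

end

end Run7.h3.GT
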