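import Pool.Agent.Run7.h3.GT.Seq
import Pool.Agent.Run7.h3.GT.Lin

set_option autoImplicit false
set_option linter.unusedSectionVars false
set_option linter.unusedVariables false

/-! Minors of a reduced sequence. -/

namespace Run7.h3.GT

open Finset Module NumberField Submodule

section

variable {F : Type} [Field F] {ι : Type} [Fintype ι] [Nonempty ι]

/-- the matrix of the first rows -/
def rows (b : ℕ → ι → F) (j : ℕ) : Matrix (Fin j) ι F := Matrix.of fun a i => b a i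

theorem elim (b : ℕ → ι → F) (j : ℕ) (f : Fin j → ι) (hf : mnr (rows b j) f ≠ 0) :
    ∃ c : ℕ → F, ∀ i, (b j - ∑ a ∈ range j, c a • b a) i * mnr (rows b j) f =
      mnr (rows b (j + 1)) (Fin.snoc f i : Fin (j + 1) → ι) := by
  set A : Matrix (Fin j) (Fin j) F := (rows b j).submatrix id f with hA
  have hAu : IsUnit A.det := isUnit_iff_ne_zero.2 hf
  set c' : Fin j → F := Matrix.vecMul (fun l => b j (f l)) A⁻¹ with hc'
  refine ⟨fun a => if h : a < j then c' ⟨a, h⟩ else 0, fun i => ?_⟩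
  have hz : ∑ a ∈ range j, (if h : a < j then c' ⟨a, h⟩ else 0) • b a = ∑ a : Fin j, c' a • b a := by
    rw [Finset.sum_range]
    refine sum_congr rfl fun a _ => ?_
    rw [dif_pos a.2]
  rw [hz]
  set r : ι → F := b j - ∑ a : Fin j, c' a • b a with hr
  have hr0 : ∀ l, r (f l) = 0 := by
    intro l
    have h1 : Matrix.vecMul c' A = fun l => b j (f l) := by
      rw [hc', Matrix.vecMul_vecMul, Matrix.nonsing_inv_mul _ hAu, Matrix.vecMul_one]
    have h2 := congrFun h1 l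
    simp only [Matrix.vecMul, dotProduct] at h2
    simp only [hr, Pi.sub_apply, Finset.sum_apply, Pi.smul_apply, smul_eq_mul]
    rw [← h2]
    exact sub_self _
  set N : Matrix (Fin (j + 1)) (Fin (j + 1)) F :=
    (rows b (j + 1)).submatrix id (Fin.snoc f i : Fin (j + 1) → ι) with hN
  set cc : Fin (j + 1) → F := Fin.snoc (fun a => -c' a) 1 with hcc
  have hrow : ∑ l, cc l • N l = fun l => r ((Fin.snoc f i : Fin (j + 1) → ι) l) := by
    rw [Fin.sum_univ_castSucc]
    funext l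
    have h1 : cc (Fin.last j) = 1 := by rw [hcc, Fin.snoc_last]
    have h2 : ∀ a : Fin j, cc a.castSucc = -c' a := fun a => by rw [hcc, Fin.snoc_castSucc]
    rw [h1]
    simp only [h2, Pi.add_apply, Finset.sum_apply, Pi.smul_apply, smul_eq_mul, one_mul, hr,
      Pi.sub_apply, hN, Matrix.submatrix_apply, id, rows, Matrix.of_apply, Fin.val_last,
      Fin.val_castSucc, neg_mul, sum_neg_distrib]
    ring
  have hdet := Matrix.det_updateRow_sum N (Fin.last j) cc
  rw [hrow] at hdet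
  have h1 : cc (Fin.last j) = 1 := by rw [hcc, Fin.snoc_last]
  rw [h1, one_smul] at hdet
  have h2 : mnr (rows b (j + 1)) (Fin.snoc f i : Fin (j + 1) → ι) = N.det := rfl
  rw [h2, ← hdet, Matrix.det_succ_row _ (Fin.last j), Fin.sum_univ_castSucc]
  rw [sum_eq_zero, zero_add]
  · rw [Matrix.updateRow_self, Fin.snoc_last]
    have h3 : ((-1 : F)) ^ (((Fin.last j : Fin (j + 1)) : ℕ) + ((Fin.last j : Fin (j + 1)) : ℕ)) = 1 := by
      rw [← two_mul, pow_mul]
      simp
    rw [h3, one_mul]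
    congr 1
    unfold mnr
    congr 1
    ext a l
    simp only [Matrix.submatrix_apply, id, Fin.succAbove_last]
    rw [Matrix.updateRow_ne (Fin.castSucc_lt_last a).ne]
    simp [hN, rows, Fin.snoc_castSucc]
  · intro l _
    rw [Matrix.updateRow_self, Fin.snoc_castSucc, hr0]
    ring

end

section

variable {F : Type} [Field F] [NumberField F] {ι : Type} [Fintype ι] [Nonempty ι]

/-- the size of the minors at a place -/
noncomputable def Pl {k : ℕ} (θ : ι → ℝ) (V : Matrix (Fin k) ι F) (w : InfinitePlace F) : ℝ :=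
  ⨆ f : Fin k → ι, w (mnr V f) / ∏ c, θ (f c)

theorem le_Pl {k : ℕ} {θ : ι → ℝ} (hθ : ∀ i, 0 < θ i) (V : Matrix (Fin k) ι F)
    (w : InfinitePlace F) (f : Fin k → ι) : w (mnr V f) ≤ Pl θ V w * ∏ c, θ (f c) := by
  have := le_ciSup (Set.finite_range fun f : Fin k → ι => w (mnr V f) / ∏ c, θ (f c)).bddAbove f
  rwa [div_le_iff₀ (prod_pos fun c _ => hθ _)] at this

theorem exists_Pl {k : ℕ} {θ : ι → ℝ} (hθ : ∀ i, 0 < θ i) (V : Matrix (Fin k) ι F)
    (w : InfinitePlace F) : ∃ f : Fin k → ι, w (mnr V f) = Pl θ V w * ∏ c, θ (f c) := by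
  obtain ⟨f, hf⟩ := exists_eq_ciSup_of_finite
    (f := fun f : Fin k → ι => w (mnr V f) / ∏ c, θ (f c))
  refine ⟨f, ?_⟩
  have h1 : 0 < ∏ c, θ (f c) := prod_pos fun c _ => hθ _
  have h2 : w (mnr V f) / ∏ c, θ (f c) = Pl θ V w := hf
  rw [← h2]
  field_simp

theorem Pl_le {k : ℕ} {θ : ι → ℝ} (hθ : ∀ i, 0 < θ i) (V : Matrix (Fin k) ι F)
    (w : InfinitePlace F) {R : ℝ} (h : ∀ f, w (mnr V f) ≤ R * ∏ c, θ (f c)) : Pl θ V w ≤ R :=
  ciSup_le fun f => by
    rw [div_le_iff₀ (prod_pos fun c _ => hθ _)]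
    exact h f

theorem Pl_nonneg {k : ℕ} {θ : ι → ℝ} (hθ : ∀ i, 0 < θ i) (V : Matrix (Fin k) ι F)
    (w : InfinitePlace F) : 0 ≤ Pl θ V w :=
  Real.iSup_nonneg fun f => div_nonneg (apply_nonneg w _) (prod_pos fun c _ => hθ _).le

theorem Pl_pos {k : ℕ} {θ : ι → ℝ} (hθ : ∀ i, 0 < θ i) (V : Matrix (Fin k) ι F)
    (w : InfinitePlace F) {f : Fin k → ι} (hf : mnr V f ≠ 0) : 0 < Pl θ V w := by
  have h1 := le_Pl hθ V w f
  have h2 : 0 < w (mnr V f) := w.pos_iff.2 hf
  have h3 : 0 < ∏ c, θ (f c) := prod_pos fun c _ => hθ _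
  by_contra hcon
  push Not at hcon
  nlinarith

/-- the step -/
theorem plk_step (F : Type) [Field F] [NumberField F] : ∃ C : ℝ, 0 < C ∧
    ∀ (ι : Type) [Fintype ι] [Nonempty ι] (θ : ι → ℝ), (∀ i, 0 < θ i) →
    ∀ (M : Submodule (𝓞 F) (ι → F)) (b : ℕ → ι → F) (j : ℕ), Good θ M b (j + 1) →
    (∃ f, mnr (rows b j) f ≠ 0) →
    (∃ f, mnr (rows b (j + 1)) f ≠ 0) ∧
    qn θ (Sb b j) (b j) ^ finrank ℚ F * ∏ w, Pl θ (rows b j) w ^ w.mult ≤
      C * ∏ w, Pl θ (rows b (j + 1)) w ^ w.mult := by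
  obtain ⟨C, hC, hmink⟩ := mink F
  set d := finrank ℚ F with hd
  have hdpos : 0 < d := finrank_pos
  refine ⟨(2 * (C + 1)) ^ d, by positivity, ?_⟩
  intro ι _ _ θ hθ M b j hG hf
  obtain ⟨hb, hρ, hmin⟩ := hG j (Nat.lt_succ_self j)
  obtain ⟨f₁, hf₁⟩ := hf
  have hP : ∀ w, 0 < Pl θ (rows b j) w := fun w => Pl_pos hθ _ w hf₁
  -- elimination at each place
  have hz : ∀ w : InfinitePlace F, ∃ c : ℕ → F, ∀ i, w ((b j - ∑ a ∈ range j, c a • b a) i) ≤
      Pl θ (rows b (j + 1)) w / Pl θ (rows b j) w * θ i := by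
    intro w
    obtain ⟨f, hf⟩ := exists_Pl hθ (rows b j) w
    have hprod : 0 < ∏ c, θ (f c) := prod_pos fun c _ => hθ _
    have hf0 : mnr (rows b j) f ≠ 0 := by
      intro h
      rw [h, map_zero] at hf
      have := mul_pos (hP w) hprod
      linarith
    obtain ⟨c, hc⟩ := elim b j f hf0
    refine ⟨c, fun i => ?_⟩
    have h1 := congrArg w (hc i)
    rw [map_mul, hf] at h1
    have h2 := le_Pl hθ (rows b (j + 1)) w (Fin.snoc f i : Fin (j + 1) → ι)
    rw [Fin.prod_univ_castSucc] at h2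
    simp only [Fin.snoc_castSucc, Fin.snoc_last] at h2
    rw [← h1] at h2
    have h3 : 0 < Pl θ (rows b j) w * ∏ c, θ (f c) := mul_pos (hP w) hprod
    have h4 : Pl θ (rows b (j + 1)) w / Pl θ (rows b j) w * θ i =
        Pl θ (rows b (j + 1)) w * ((∏ c, θ (f c)) * θ i) /
          (Pl θ (rows b j) w * ∏ c, θ (f c)) := by
      have := (hP w).ne'
      field_simp
    rw [h4, le_div_iff₀ h3]
    exact h2
  choose c hc using hz
  have hnot : b j ∉ Sb b j := notMem_of_pos hθ hρ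
  -- positivity of the ratios
  have hρw : ∀ w, 0 < Pl θ (rows b (j + 1)) w / Pl θ (rows b j) w := by
    intro w
    have hne : b j - ∑ a ∈ range j, c w a • b a ≠ 0 := by
      intro h
      rw [sub_eq_zero] at h
      exact hnot (h ▸ sum_mem_Sb b j _)
    obtain ⟨i, hi⟩ := Function.ne_iff.1 hne
    have h1 := hc w i
    have h2 : 0 < w ((b j - ∑ a ∈ range j, c w a • b a) i) := w.pos_iff.2 hi
    have := hθ i
    by_contra hcon
    push Not at hcon
    nlinarith
  have hPs : ∀ w, 0 < Pl θ (rows b (j + 1)) w := fun w => by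
    have h1 := mul_pos (hρw w) (hP w)
    rwa [div_mul_cancel₀ _ (hP w).ne'] at h1
  refine ⟨?_, ?_⟩
  · obtain ⟨w⟩ : Nonempty (InfinitePlace F) := inferInstance
    obtain ⟨f, hf⟩ := exists_Pl hθ (rows b (j + 1)) w
    refine ⟨f, fun h => ?_⟩
    rw [h, map_zero] at hf
    have : 0 < Pl θ (rows b (j + 1)) w * ∏ c, θ (f c) :=
      mul_pos (hPs w) (prod_pos fun c _ => hθ _)
    linarith
  set ρ : InfinitePlace F → ℝ := fun w => Pl θ (rows b (j + 1)) w / Pl θ (rows b j) w with hρdef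
  set R : ℝ := ∏ w, ρ w ^ w.mult with hR
  have hR0 : 0 < R := prod_pos fun w _ => pow_pos (hρw w) _
  set P : ℝ := R ^ ((d : ℝ)⁻¹) with hPdef
  have hP0 : 0 < P := Real.rpow_pos_of_pos hR0 _
  have hPd : P ^ d = R := Real.rpow_inv_natCast_pow hR0.le hdpos.ne'
  obtain ⟨t, ht, ht0, htw⟩ := hmink 1 (fun w => P / ρ w) (fun w => div_pos hP0 (hρw w)) (by
    rw [Units.val_one, FractionalIdeal.absNorm_one]
    simp only [div_pow]
    rw [prod_div_distrib, prod_pow_eq_pow_sum, InfinitePlace.sum_mult_eq, ← hd, hPd, ← hR,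
      div_self hR0.ne']
    simp)
  rw [Units.val_one, FractionalIdeal.mem_one_iff] at ht
  obtain ⟨t, rfl⟩ := ht
  -- weak approximation of the coefficients
  set Sg : ℝ := ∑ a ∈ range j, nrm θ (b a) with hSg
  have hSg0 : 0 ≤ Sg := sum_nonneg fun a _ => nrm_nonneg hθ _
  set ε : ℝ := P / (Sg + 1) with hε
  have hε0 : 0 < ε := by positivity
  have hx : ∀ a : ℕ, ∃ x : F, ∀ w : InfinitePlace F, w (x - (t : F) * c w a) < ε := fun a =>
    weak_approx F (fun w => (t : F) * c w a) hε0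
  choose x hx using hx
  have hbound : nrm θ ((t : F) • b j - ∑ a ∈ range j, x a • b a) ≤ (C + 1) * P := by
    refine nrm_le hθ _ fun w i => ?_
    have h1 : ((t : F) • b j - ∑ a ∈ range j, x a • b a) =
        (t : F) • (b j - ∑ a ∈ range j, c w a • b a) -
          ∑ a ∈ range j, (x a - (t : F) * c w a) • b a := by
      simp only [sub_smul, sum_sub_distrib, smul_sub, smul_sum, mul_smul]
      abel
    rw [h1]
    have h2 : w (((t : F) • (b j - ∑ a ∈ range j, c w a • b a) -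
          ∑ a ∈ range j, (x a - (t : F) * c w a) • b a) i) ≤
        w (((t : F) • (b j - ∑ a ∈ range j, c w a • b a)) i) +
        w ((∑ a ∈ range j, (x a - (t : F) * c w a) • b a) i) := by
      rw [Pi.sub_apply, sub_eq_add_neg]
      refine (w.1.add_le _ _).trans (le_of_eq ?_)
      rw [w.1.map_neg]
      rfl
    have h3 : w (((t : F) • (b j - ∑ a ∈ range j, c w a • b a)) i) ≤ C * P * θ i := by
      rw [Pi.smul_apply, smul_eq_mul, map_mul]
      have h4 := mul_le_mul (htw w) (hc w i) (apply_nonneg w _)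
        (by have := hρw w; positivity)
      refine h4.trans (le_of_eq ?_)
      have e1 := (hP w).ne'
      have e2 := (hPs w).ne'
      simp only [hρdef]
      field_simp
    have h5 : w ((∑ a ∈ range j, (x a - (t : F) * c w a) • b a) i) ≤ P * θ i := by
      rw [Finset.sum_apply]
      refine (place_sum_le w _ _).trans ?_
      have h6 : ∀ a ∈ range j, w (((x a - (t : F) * c w a) • b a) i) ≤
          ε * nrm θ (b a) * θ i := by
        intro a _
        rw [Pi.smul_apply, smul_eq_mul, map_mul, mul_assoc]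
        exact mul_le_mul (hx a w).le (le_nrm hθ _ w i) (apply_nonneg w _) hε0.le
      refine (sum_le_sum h6).trans ?_
      rw [← sum_mul, ← mul_sum]
      refine mul_le_mul_of_nonneg_right ?_ (hθ i).le
      rw [hε, div_mul_eq_mul_div, div_le_iff₀ (by positivity)]
      nlinarith
    calc _ ≤ _ := h2
      _ ≤ C * P * θ i + P * θ i := add_le_add h3 h5
      _ = _ := by ring
  have htF : (t : F) ≠ 0 := ht0
  have hq1 := qn_le hθ (Sb b j) ((t : F) • b j) (sum_mem_Sb b j x)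
  have hq2 := hmin (t • b j) (M.smul_mem _ hb) (by
    intro h
    rw [smulO] at h
    exact hnot ((Submodule.smul_mem_iff _ htF).1 h))
  rw [smulO] at hq2
  have hq3 : qn θ (Sb b j) (b j) ≤ 2 * (C + 1) * P := by linarith
  have hq4 : qn θ (Sb b j) (b j) ^ d ≤ (2 * (C + 1)) ^ d * R := by
    rw [← hPd, ← mul_pow]
    exact pow_le_pow_left₀ (qn_nonneg hθ _ _) hq3 d
  have hQ : 0 < ∏ w, Pl θ (rows b j) w ^ w.mult := prod_pos fun w _ => pow_pos (hP w) _
  have hRe : R * ∏ w, Pl θ (rows b j) w ^ w.mult = ∏ w, Pl θ (rows b (j + 1)) w ^ w.mult := by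
    rw [hR, ← prod_mul_distrib]
    refine prod_congr rfl fun w _ => ?_
    rw [← mul_pow]
    simp only [hρdef]
    rw [div_mul_cancel₀ _ (hP w).ne']
  calc _ ≤ (2 * (C + 1)) ^ d * R * ∏ w, Pl θ (rows b j) w ^ w.mult :=
        mul_le_mul_of_nonneg_right hq4 hQ.le
    _ = _ := by rw [mul_assoc, hRe]

/-- the product of the quotient norms is bounded by the minors -/
theorem plk (F : Type) [Field F] [NumberField F] (k : ℕ) : ∃ C : ℝ, 0 < C ∧
    ∀ (ι : Type) [Fintype ι] [Nonempty ι] (θ : ι → ℝ), (∀ i, 0 < θ i) →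
    ∀ (M : Submodule (𝓞 F) (ι → F)) (b : ℕ → ι → F), Good θ M b k →
    (∃ f, mnr (rows b k) f ≠ 0) ∧
    ∏ i ∈ range k, qn θ (Sb b i) (b i) ^ finrank ℚ F ≤ C * ∏ w, Pl θ (rows b k) w ^ w.mult := by
  obtain ⟨C, hC, hstep⟩ := plk_step F
  induction k with
  | zero =>
    refine ⟨1, one_pos, fun ι _ _ θ hθ M b hG => ⟨⟨Fin.elim0, ?_⟩, ?_⟩⟩
    · simp [mnr]
    · have : ∀ w : InfinitePlace F, Pl θ (rows b 0) w = 1 := by
        intro w
        obtain ⟨f, hf⟩ := exists_Pl hθ (rows b 0) w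
        simp [mnr] at hf
        exact hf.symm
      simp [this]
  | succ k ih =>
    obtain ⟨C', hC', hC2⟩ := ih
    refine ⟨C' * C, by positivity, fun ι _ _ θ hθ M b hG => ?_⟩
    obtain ⟨h1, h2⟩ := hC2 ι θ hθ M b (hG.mono (Nat.le_succ k))
    obtain ⟨h3, h4⟩ := hstep ι θ hθ M b k hG h1
    refine ⟨h3, ?_⟩
    rw [prod_range_succ]
    have hq : 0 ≤ qn θ (Sb b k) (b k) ^ finrank ℚ F := pow_nonneg (qn_nonneg hθ _ _) _
    calc _ ≤ (C' * ∏ w, Pl θ (rows b k) w ^ w.mult) * qn θ (Sb b k) (b k) ^ finrank ℚ F :=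
          mul_le_mul_of_nonneg_right h2 hq
      _ = C' * (qn θ (Sb b k) (b k) ^ finrank ℚ F * ∏ w, Pl θ (rows b k) w ^ w.mult) := by ring
      _ ≤ C' * (C * ∏ w, Pl θ (rows b (k + 1)) w ^ w.mult) :=
          mul_le_mul_of_nonneg_left h4 hC'.le
      _ = _ := by ring

end

end Run7.h3.GT
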