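import Pool.Agent.Run7.h3.GT.Lin

set_option autoImplicit false
set_option linter.unusedSectionVars false
set_option linter.unusedVariables false

/-! Minors of a matrix whose columns are dependent modulo a prime. -/

namespace Run7.h3.GT

open Finset Module Submodule

section

variable {R : Type} [CommRing R] (P : Ideal R) [hP : P.IsMaximal]

theorem mem_pow_of_mul {u x : R} (hu : u ∉ P) {e : ℕ} (h : u * x ∈ P ^ e) : x ∈ P ^ e := by
  have h1 : IsCoprime P (Ideal.span {u}) := by
    rw [Ideal.isCoprime_iff_sup_eq]
    by_contra hcon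
    have h2 := hP.eq_of_le hcon le_sup_left
    apply hu
    rw [h2]
    exact Ideal.mem_sup_right (Ideal.mem_span_singleton_self u)
  have h2 := (Ideal.isCoprime_iff_sup_eq).1 (h1.pow_left (m := e))
  have h3 : (1 : R) ∈ P ^ e ⊔ Ideal.span {u} := by rw [h2]; trivial
  obtain ⟨a, ha, b, hb, hab⟩ := Submodule.mem_sup.1 h3
  obtain ⟨c, rfl⟩ := Ideal.mem_span_singleton'.1 hb
  have h4 : x = a * x + c * (u * x) := by
    linear_combination (-x) * hab
  rw [h4]
  exact (P ^ e).add_mem ((P ^ e).mul_mem_right _ ha) ((P ^ e).mul_mem_left _ h)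

attribute [local instance] Ideal.Quotient.field

theorem det_mem_pow (k : ℕ) : ∀ (Z : Matrix (Fin k) (Fin k) R) (C : Finset (Fin k)) (r : ℕ),
    finrank (R ⧸ P) (spn (R ⧸ P) (fun (l : Fin k) (j : Fin k) => (Ideal.Quotient.mk P (Z j l))) C)
      ≤ r → Z.det ∈ P ^ (C.card - r) := by
  classical
  induction k with
  | zero =>
    intro Z C r _
    have : C = ∅ := Finset.eq_empty_of_isEmpty C
    rw [this, card_empty, Nat.zero_sub, pow_zero, Ideal.one_eq_top]
    trivial
  | succ k ih =>
    intro Z C r hr
    by_cases hC : C.card ≤ r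
    · rw [Nat.sub_eq_zero_of_le hC, pow_zero, Ideal.one_eq_top]
      trivial
    push Not at hC
    set v : Fin (k + 1) → Fin (k + 1) → R ⧸ P := fun l j => Ideal.Quotient.mk P (Z j l) with hv
    have hdep : ¬ LinearIndependent (R ⧸ P) (fun l : C => v l) := by
      intro hli
      have h1 := finrank_span_eq_card hli
      have h2 : Set.range (fun l : C => v l) = v '' (C : Set (Fin (k + 1))) := by
        ext x
        constructor
        · rintro ⟨l, rfl⟩
          exact ⟨l, l.2, rfl⟩
        · rintro ⟨l, hl, rfl⟩
          exact ⟨⟨l, hl⟩, rfl⟩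
      rw [h2, Fintype.card_coe] at h1
      have h3 : finrank (R ⧸ P) (spn (R ⧸ P) v C) = C.card := h1
      omega
    rw [Fintype.not_linearIndependent_iff] at hdep
    obtain ⟨u, hu, l₀, hl₀⟩ := hdep
    have hsurj := Ideal.Quotient.mk_surjective (I := P)
    choose lift hlift using hsurj
    set c : Fin (k + 1) → R := fun l => if h : l ∈ C then lift (u ⟨l, h⟩) else 0 with hc
    have hcl : c l₀ ∉ P := by
      rw [← Ideal.Quotient.eq_zero_iff_mem, hc]
      simp only [l₀.2, dif_pos]
      rw [hlift]
      exact hl₀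
    set w : Fin (k + 1) → R := fun i => ∑ l, c l • Z i l with hw
    have hwP : ∀ i, w i ∈ P := by
      intro i
      rw [← Ideal.Quotient.eq_zero_iff_mem, hw]
      simp only [smul_eq_mul, map_sum, map_mul]
      have h1 := congrFun hu i
      simp only [Finset.sum_apply, Pi.smul_apply, smul_eq_mul, Pi.zero_apply] at h1
      rw [← h1, ← sum_subset (subset_univ C), ← Finset.sum_coe_sort C]
      · refine sum_congr rfl fun l _ => ?_
        simp only [hc, l.2, dif_pos, hlift, hv]
      · intro l _ hl
        simp [hc, hl]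
    have hdet := Matrix.det_updateCol_sum Z (l₀ : Fin (k + 1)) c
    have hmem : (Z.updateCol (l₀ : Fin (k + 1)) w).det ∈ P ^ (C.card - r) := by
      rw [Matrix.det_succ_column _ (l₀ : Fin (k + 1))]
      refine sum_mem fun i _ => ?_
      rw [Matrix.updateCol_self]
      set C' : Finset (Fin k) := univ.filter fun c => (l₀ : Fin (k + 1)).succAbove c ∈ C with hC'
      have hcard : C'.card + 1 = C.card := by
        have h1 : C = insert (l₀ : Fin (k + 1)) (C'.map (l₀ : Fin (k + 1)).succAboveEmb) := by
          ext x
          rw [mem_insert, Finset.mem_map]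
          constructor
          · intro hx
            by_cases hx0 : x = l₀
            · exact Or.inl hx0
            · obtain ⟨y, hy⟩ := Fin.exists_succAbove_eq hx0
              refine Or.inr ⟨y, ?_, hy⟩
              rw [hC', mem_filter, hy]
              exact ⟨mem_univ _, hx⟩
          · rintro (rfl | ⟨y, hy, rfl⟩)
            · exact l₀.2
            · exact (mem_filter.1 hy).2
        rw [h1, card_insert_of_notMem, card_map]
        rw [Finset.mem_map]
        rintro ⟨y, _, hy⟩
        exact Fin.succAbove_ne _ _ hy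
      have hih := ih ((Z.updateCol (l₀ : Fin (k + 1)) w).submatrix i.succAbove
        (l₀ : Fin (k + 1)).succAbove) C' r (by
          refine le_trans ?_ hr
          set L : (Fin (k + 1) → R ⧸ P) →ₗ[R ⧸ P] (Fin k → R ⧸ P) :=
            LinearMap.funLeft (R ⧸ P) (R ⧸ P) i.succAbove with hL
          refine le_trans (Submodule.finrank_mono (t := (spn (R ⧸ P) v C).map L) ?_)
            (Submodule.finrank_map_le L _)
          rw [spn, span_le]
          rintro _ ⟨c', hc', rfl⟩
          refine ⟨v ((l₀ : Fin (k + 1)).succAbove c'), subset_span ⟨_, ?_, rfl⟩, ?_⟩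
          · exact (mem_filter.1 hc').2
          · funext j
            simp only [hL, LinearMap.funLeft_apply, hv, Matrix.submatrix_apply]
            rw [Matrix.updateCol_ne (Fin.succAbove_ne _ _)])
      have he : C.card - r = (C'.card - r) + 1 := by omega
      rw [he, pow_succ', mul_assoc]
      refine Ideal.mul_mem_left _ _ ?_
      exact Ideal.mul_mem_mul (hwP i) hih
    rw [hdet, smul_eq_mul] at hmem
    exact mem_pow_of_mul P hcl hmem

theorem mnr_mem_pow {k : ℕ} {ι s : Type} [Fintype ι] [DecidableEq ι] [Fintype s] [DecidableEq s]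
    {β : ι → s} (Y : Matrix (Fin k) ι R) (f : Fin k → ι) (A : Finset s) :
    mnr Y f ∈ P ^ (dA β f A -
      finrank (R ⧸ P) (csp β (Y.map (Ideal.Quotient.mk P)) A)) := by
  rw [dA_eq]
  refine det_mem_pow P k (Y.submatrix id f) _ _ (Submodule.finrank_mono (span_le.2 ?_))
  rintro _ ⟨l, hl, rfl⟩
  refine subset_span ⟨f l, ?_, rfl⟩
  have := (mem_filter.1 hl).2
  simpa using this

end

end Run7.h3.GT
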