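import Pool.Agent.Run7.h3.GT.Nrm

set_option autoImplicit false
set_option linter.unusedSectionVars false
set_option linter.unusedVariables false

/-! Reduced sequences of vectors in a lattice over the ring of integers of a number field. -/

namespace Run7.h3.GT

open Finset Module NumberField Submodule

section

variable {F : Type} [Field F] [NumberField F] {ι : Type} [Fintype ι] [Nonempty ι]

/-- the span of the first vectors of a sequence -/
def Sb (b : ℕ → ι → F) (j : ℕ) : Submodule F (ι → F) := span F (b '' Set.Iio j)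

theorem Sb_zero (b : ℕ → ι → F) : Sb b 0 = ⊥ := by
  simp [Sb]

theorem mem_Sb (b : ℕ → ι → F) {i j : ℕ} (h : i < j) : b i ∈ Sb b j :=
  subset_span ⟨i, h, rfl⟩

theorem Sb_mono (b : ℕ → ι → F) {i j : ℕ} (h : i ≤ j) : Sb b i ≤ Sb b j :=
  span_mono (Set.image_mono (Set.Iio_subset_Iio h))

theorem Sb_succ (b : ℕ → ι → F) (j : ℕ) : Sb b (j + 1) = span F {b j} ⊔ Sb b j := by
  unfold Sb
  rw [← span_insert, ← Set.image_insert_eq]
  congr 2
  ext i
  simp only [Set.mem_Iio, Set.mem_insert_iff]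
  omega

theorem mem_Sb_succ {b : ℕ → ι → F} {j : ℕ} {x : ι → F} (h : x ∈ Sb b (j + 1)) :
    ∃ c : F, ∃ z ∈ Sb b j, x = c • b j + z := by
  rw [Sb_succ, Submodule.mem_sup] at h
  obtain ⟨y, hy, z, hz, rfl⟩ := h
  obtain ⟨c, rfl⟩ := mem_span_singleton.1 hy
  exact ⟨c, z, hz, rfl⟩

theorem mem_Sb_sum {b : ℕ → ι → F} {j : ℕ} {x : ι → F} (h : x ∈ Sb b j) :
    ∃ c : ℕ → F, x = ∑ i ∈ range j, c i • b i := by
  induction j generalizing x with
  | zero =>
    rw [Sb_zero, mem_bot] at h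
    exact ⟨0, by simp [h]⟩
  | succ j ih =>
    obtain ⟨c, z, hz, rfl⟩ := mem_Sb_succ h
    obtain ⟨c', rfl⟩ := ih hz
    refine ⟨Function.update c' j c, ?_⟩
    rw [sum_range_succ, Function.update_self, add_comm]
    congr 1
    refine sum_congr rfl fun i hi => ?_
    rw [Function.update_of_ne (by rw [mem_range] at hi; omega)]

theorem sum_mem_Sb (b : ℕ → ι → F) (j : ℕ) (c : ℕ → F) : ∑ i ∈ range j, c i • b i ∈ Sb b j :=
  sum_mem fun i hi => smul_mem _ _ (mem_Sb b (mem_range.1 hi))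

theorem Sb_congr {b b' : ℕ → ι → F} {j : ℕ} (h : ∀ i < j, b i = b' i) : Sb b j = Sb b' j := by
  unfold Sb
  congr 1
  exact Set.image_congr fun i hi => h i hi

/-- reduced sequences -/
def Good (θ : ι → ℝ) (M : Submodule (𝓞 F) (ι → F)) (b : ℕ → ι → F) (j : ℕ) : Prop :=
  ∀ i < j, b i ∈ M ∧ 0 < qn θ (Sb b i) (b i) ∧
    ∀ x ∈ M, x ∉ Sb b i → qn θ (Sb b i) (b i) ≤ 2 * qn θ (Sb b i) x

theorem Good.mono {θ : ι → ℝ} {M : Submodule (𝓞 F) (ι → F)} {b : ℕ → ι → F} {i j : ℕ}
    (h : Good θ M b j) (hij : i ≤ j) : Good θ M b i := fun l hl => h l (lt_of_lt_of_le hl hij)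

theorem Good.congr {θ : ι → ℝ} {M : Submodule (𝓞 F) (ι → F)} {b b' : ℕ → ι → F} {j : ℕ}
    (h : Good θ M b j) (hb : ∀ i < j, b i = b' i) : Good θ M b' j := by
  intro i hi
  have h1 := h i hi
  rw [Sb_congr fun l hl => hb l (lt_trans hl hi), hb i hi] at h1
  exact h1

theorem notMem_of_pos {θ : ι → ℝ} (hθ : ∀ i, 0 < θ i) {S : Submodule F (ι → F)} {x : ι → F}
    (h : 0 < qn θ S x) : x ∉ S := by
  intro hx
  have := qn_le hθ S x hx
  rw [sub_self, nrm_zero hθ] at this
  linarith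

theorem smulO (a : 𝓞 F) (x : ι → F) : a • x = (a : F) • x := by
  exact (algebraMap_smul F a x).symm

/-- comparison of successive quotient norms -/
theorem step_le (F : Type) [Field F] [NumberField F] : ∃ K : ℝ, 1 ≤ K ∧
    ∀ (ι : Type) [Fintype ι] [Nonempty ι] (θ : ι → ℝ), (∀ i, 0 < θ i) →
    ∀ (M : Submodule (𝓞 F) (ι → F)) (b : ℕ → ι → F) (i : ℕ), Good θ M b (i + 1) →
    ∀ x ∈ M, x ∉ Sb b (i + 1) → qn θ (Sb b i) (b i) ≤ K * qn θ (Sb b (i + 1)) x := by
  obtain ⟨Q, hQ, hD⟩ := dirichlet F (show (0 : ℝ) < 1 / 8 by norm_num)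
  refine ⟨4 * Q, ?_, ?_⟩
  · have : (1 : ℝ) ≤ Q := by exact_mod_cast hQ
    linarith
  intro ι _ _ θ hθ M b i hG x hx hxS
  obtain ⟨hb, hρ, hmin⟩ := hG i (Nat.lt_succ_self i)
  set ρ := qn θ (Sb b i) (b i) with hρdef
  refine le_of_forall_pos_le_add fun δ hδ => ?_
  have hQ0 : (0 : ℝ) < Q := by exact_mod_cast hQ
  obtain ⟨z', hz', hR⟩ := exists_qn hθ (Sb b (i + 1)) x (show 0 < δ / (4 * Q) by positivity)
  obtain ⟨c, z1, hz1, rfl⟩ := mem_Sb_succ hz'
  obtain ⟨q, hq0, hqQ, a, ha⟩ := hD c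
  obtain ⟨z2, hz2, hz2'⟩ := exists_qn hθ (Sb b i) (b i) hρ
  set y : ι → F := (q : 𝓞 F) • x - a • b i with hy
  have hyM : y ∈ M := M.sub_mem (M.smul_mem _ hx) (M.smul_mem _ hb)
  have hqF : (q : F) ≠ 0 := by exact_mod_cast hq0.ne'
  have hy' : y = (q : F) • x - (a : F) • b i := by
    rw [hy, smulO, smulO]
    simp
  have hyS : y ∉ Sb b i := by
    intro h
    apply hxS
    have h1 : x = (q : F)⁻¹ • (y + (a : F) • b i) := by
      rw [hy', sub_add_cancel, smul_smul, inv_mul_cancel₀ hqF, one_smul]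
    rw [h1]
    exact smul_mem _ _ (add_mem (Sb_mono b (Nat.le_succ i) h)
      (smul_mem _ _ (mem_Sb b (Nat.lt_succ_self i))))
  have h1 := hmin y hyM hyS
  have h2 := qn_le hθ (Sb b i) y (z := (q : F) • z1 + ((q : F) * c - a) • z2)
    (add_mem (smul_mem _ _ hz1) (smul_mem _ _ hz2))
  have h3 : y - ((q : F) • z1 + ((q : F) * c - a) • z2) =
      (q : F) • (x - (c • b i + z1)) + ((q : F) * c - a) • (b i - z2) := by
    rw [hy']
    simp only [smul_sub, smul_add, sub_smul, mul_smul]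
    abel
  rw [h3] at h2
  have h4 := nrm_add hθ ((q : F) • (x - (c • b i + z1))) (((q : F) * c - a) • (b i - z2))
  have h5 : nrm θ ((q : F) • (x - (c • b i + z1))) ≤ Q * nrm θ (x - (c • b i + z1)) := by
    refine nrm_smul hθ _ _ fun w => ?_
    have := place_rat w (q : ℚ)
    push_cast at this
    rw [this, abs_of_nonneg (Nat.cast_nonneg _)]
    exact_mod_cast hqQ
  have h6 : nrm θ (((q : F) * c - a) • (b i - z2)) ≤ (1 / 8) * nrm θ (b i - z2) :=
    nrm_smul hθ _ _ ha
  have h7 : (Q : ℝ) * nrm θ (x - (c • b i + z1)) ≤ Q * qn θ (Sb b (i + 1)) x + δ / 4 := by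
    have := mul_le_mul_of_nonneg_left hR.le hQ0.le
    have h8 : (Q : ℝ) * (δ / (4 * Q)) = δ / 4 := by field_simp
    rw [mul_add, h8] at this
    exact this
  linarith

theorem chain_le {K : ℝ} (hK : 1 ≤ K) {θ : ι → ℝ} (hθ : ∀ i, 0 < θ i)
    {M : Submodule (𝓞 F) (ι → F)} {b : ℕ → ι → F}
    (hstep : ∀ i : ℕ, Good θ M b (i + 1) → ∀ x ∈ M, x ∉ Sb b (i + 1) →
      qn θ (Sb b i) (b i) ≤ K * qn θ (Sb b (i + 1)) x) (m : ℕ) :
    ∀ i : ℕ, Good θ M b (i + m + 1) → ∀ x ∈ M, x ∉ Sb b (i + m + 1) →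
      qn θ (Sb b i) (b i) ≤ K ^ (m + 1) * qn θ (Sb b (i + m + 1)) x := by
  induction m with
  | zero =>
    intro i hG x hx hxS
    rw [zero_add, pow_one]
    exact hstep i hG x hx hxS
  | succ m ih =>
    intro i hG x hx hxS
    have h1 := hG (i + m + 1) (by omega)
    have h2 := ih i (hG.mono (by omega)) (b (i + m + 1)) h1.1 (notMem_of_pos hθ h1.2.1)
    have h3 := hstep (i + m + 1) hG x hx hxS
    calc _ ≤ K ^ (m + 1) * qn θ (Sb b (i + m + 1)) (b (i + m + 1)) := h2
      _ ≤ K ^ (m + 1) * (K * qn θ (Sb b (i + m + 1 + 1)) x) :=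
          mul_le_mul_of_nonneg_left h3 (by positivity)
      _ = _ := by
          have : i + (m + 1) + 1 = i + m + 1 + 1 := by omega
          rw [this]
          ring

/-- existence of reduced sequences -/
theorem exists_seq (F : Type) [Field F] [NumberField F] (j : ℕ) : ∃ C : ℝ, 1 ≤ C ∧
    ∀ (ι : Type) [Fintype ι] [Nonempty ι] (θ : ι → ℝ), (∀ i, 0 < θ i) →
    ∀ (M : Submodule (𝓞 F) (ι → F)), (∃ c : ℝ, 0 < c ∧ ∀ x ∈ M, x ≠ 0 → c ≤ nrm θ x) →
    j ≤ finrank F (span F (M : Set (ι → F))) →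
    ∃ b : ℕ → ι → F, Good θ M b j ∧ ∀ i < j, nrm θ (b i) ≤ C * qn θ (Sb b i) (b i) := by
  obtain ⟨K, hK, hstep⟩ := step_le F
  obtain ⟨C₀, hC₀, hround⟩ := rounding F
  induction j with
  | zero =>
    exact ⟨1, le_rfl, fun ι _ _ θ _ M _ _ => ⟨0, fun i hi => absurd hi (by omega),
      fun i hi => absurd hi (by omega)⟩⟩
  | succ j ih =>
    obtain ⟨C, hC, hC2⟩ := ih
    refine ⟨C + (2 + C₀ * (j * (C * K ^ j))), ?_, ?_⟩
    · have : 0 ≤ C₀ * (j * (C * K ^ j)) := by positivity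
      linarith
    intro ι _ _ θ hθ M hM hj
    obtain ⟨b, hG, hb⟩ := hC2 ι θ hθ M hM (by omega)
    classical
    -- a vector outside
    have hex : ∃ x ∈ M, x ∉ Sb b j := by
      by_contra hcon
      push Not at hcon
      have h1 : span F (M : Set (ι → F)) ≤ Sb b j := span_le.2 hcon
      have h2 := Submodule.finrank_mono h1
      have h3 : finrank F (Sb b j) ≤ j := by
        have h4 := finrank_span_finset_le_card (R := F) ((range j).image b)
        have h5 : (((range j).image b : Finset (ι → F)) : Set (ι → F)) = b '' Set.Iio j := by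
          ext x
          simp
        rw [h5] at h4
        exact h4.trans (card_image_le.trans (by simp))
      omega
    -- a positive lower bound
    have hpos : ∃ c : ℝ, 0 < c ∧ ∀ x ∈ M, x ∉ Sb b j → c ≤ qn θ (Sb b j) x := by
      rcases Nat.eq_zero_or_pos j with h0 | h0
      · subst h0
        obtain ⟨c, hc, hc2⟩ := hM
        refine ⟨c, hc, fun x hx hxS => ?_⟩
        rw [Sb_zero, qn_bot hθ]
        refine hc2 x hx ?_
        rintro rfl
        exact hxS (zero_mem _)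
      · obtain ⟨i, rfl⟩ : ∃ i, j = i + 1 := ⟨j - 1, by omega⟩
        have h1 := (hG i (by omega)).2.1
        refine ⟨qn θ (Sb b i) (b i) / K, by positivity, fun x hx hxS => ?_⟩
        rw [div_le_iff₀ (by positivity), mul_comm]
        exact hstep ι θ hθ M b i hG x hx hxS
    obtain ⟨c, hc, hc2⟩ := hpos
    set T : Set ℝ := {r | ∃ x ∈ M, x ∉ Sb b j ∧ r = qn θ (Sb b j) x} with hT
    have hTne : T.Nonempty := by
      obtain ⟨x, hx, hxS⟩ := hex
      exact ⟨_, x, hx, hxS, rfl⟩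
    have hTb : BddBelow T := ⟨c, by
      rintro _ ⟨x, hx, hxS, rfl⟩
      exact hc2 x hx hxS⟩
    have hI : c ≤ sInf T := le_csInf hTne (by
      rintro _ ⟨x, hx, hxS, rfl⟩
      exact hc2 x hx hxS)
    obtain ⟨_, ⟨x, hx, hxS, rfl⟩, hxI⟩ := exists_lt_of_csInf_lt hTne
      (show sInf T < 2 * sInf T by linarith)
    have hxpos : 0 < qn θ (Sb b j) x := lt_of_lt_of_le hc (hc2 x hx hxS)
    have hxmin : ∀ y ∈ M, y ∉ Sb b j → qn θ (Sb b j) x ≤ 2 * qn θ (Sb b j) y := by
      intro y hy hyS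
      have := csInf_le hTb ⟨y, hy, hyS, rfl⟩
      linarith
    -- size reduction
    obtain ⟨z, hz, hzx⟩ := exists_qn hθ (Sb b j) x hxpos
    obtain ⟨cc, hcc⟩ := mem_Sb_sum hz
    choose rr hrr using hround
    set x' : ι → F := x - ∑ i ∈ range j, (rr (cc i)) • b i with hx'
    have hx'M : x' ∈ M := M.sub_mem hx (M.sum_mem fun i hi =>
      M.smul_mem _ (hG i (mem_range.1 hi)).1)
    have hx'2 : x' = x - ∑ i ∈ range j, ((rr (cc i) : 𝓞 F) : F) • b i := by
      rw [hx', sum_congr rfl fun i _ => smulO _ _]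
    have hsub : x - x' ∈ Sb b j := by
      rw [hx'2, sub_sub_cancel]
      exact sum_mem_Sb b j _
    have hsub' : x' - x ∈ Sb b j := by
      have := neg_mem hsub
      rwa [neg_sub] at this
    have hqeq : qn θ (Sb b j) x' = qn θ (Sb b j) x :=
      le_antisymm (qn_congr hθ _ hsub') (qn_congr hθ _ hsub)
    have hnrm : nrm θ x' ≤ (2 + C₀ * (j * (C * K ^ j))) * qn θ (Sb b j) x := by
      have h1 : x' = (x - z) + ∑ i ∈ range j, (cc i - ((rr (cc i) : 𝓞 F) : F)) • b i := by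
        rw [hx'2, hcc]
        simp only [sub_smul, sum_sub_distrib]
        abel
      rw [h1]
      have h2 : ∀ i ∈ range j, nrm θ ((cc i - ((rr (cc i) : 𝓞 F) : F)) • b i) ≤
          C₀ * (C * K ^ j * qn θ (Sb b j) x) := by
        intro i hi
        rw [mem_range] at hi
        refine (nrm_smul hθ _ _ (hrr (cc i))).trans (mul_le_mul_of_nonneg_left ?_ hC₀.le)
        refine (hb i hi).trans ?_
        rw [mul_assoc]
        refine mul_le_mul_of_nonneg_left ?_ (by linarith)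
        obtain ⟨m, rfl⟩ : ∃ m, j = i + m + 1 := ⟨j - i - 1, by omega⟩
        refine (chain_le hK hθ (hstep ι θ hθ M b) m i hG x hx hxS).trans ?_
        exact mul_le_mul_of_nonneg_right (pow_le_pow_right₀ hK (by omega)) hxpos.le
      have h3 := nrm_sum_le hθ (range j) fun i => (cc i - ((rr (cc i) : 𝓞 F) : F)) • b i
      have h4 := sum_le_sum h2
      rw [sum_const, card_range, nsmul_eq_mul] at h4
      have h5 := nrm_add hθ (x - z) (∑ i ∈ range j, (cc i - ((rr (cc i) : 𝓞 F) : F)) • b i)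
      have h6 : (2 + C₀ * (j * (C * K ^ j))) * qn θ (Sb b j) x =
          2 * qn θ (Sb b j) x + j * (C₀ * (C * K ^ j * qn θ (Sb b j) x)) := by ring
      rw [h6]
      linarith
    refine ⟨Function.update b j x', ?_, ?_⟩
    · intro i hi
      have hS : ∀ i ≤ j, Sb (Function.update b j x') i = Sb b i := fun i hi =>
        Sb_congr fun l hl => Function.update_of_ne (by omega) _ _
      rw [hS i (by omega)]
      rcases Nat.lt_succ_iff_lt_or_eq.1 hi with h | h
      · rw [Function.update_of_ne (by omega)]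
        exact hG i h
      · subst h
        rw [Function.update_self, hqeq]
        exact ⟨hx'M, hxpos, hxmin⟩
    · intro i hi
      have hS : ∀ i ≤ j, Sb (Function.update b j x') i = Sb b i := fun i hi =>
        Sb_congr fun l hl => Function.update_of_ne (by omega) _ _
      rw [hS i (by omega)]
      rcases Nat.lt_succ_iff_lt_or_eq.1 hi with h | h
      · rw [Function.update_of_ne (by omega)]
        refine (hb i h).trans (mul_le_mul_of_nonneg_right ?_ (qn_nonneg hθ _ _))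
        have : 0 ≤ C₀ * (j * (C * K ^ j)) := by positivity
        linarith
      · subst h
        rw [Function.update_self, hqeq]
        refine hnrm.trans (mul_le_mul_of_nonneg_right ?_ hxpos.le)
        linarith

/-- a reduced sequence nearly generates -/
theorem near_gen (F : Type) [Field F] [NumberField F] (j : ℕ) : ∃ D : ℕ, 0 < D ∧
    ∀ (ι : Type) [Fintype ι] [Nonempty ι] (θ : ι → ℝ), (∀ i, 0 < θ i) →
    ∀ (M : Submodule (𝓞 F) (ι → F)) (b : ℕ → ι → F), Good θ M b j →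
    ∀ x ∈ M, x ∈ Sb b j → ∃ a : ℕ → 𝓞 F, (D : F) • x = ∑ i ∈ range j, (a i : F) • b i := by
  obtain ⟨Q, hQ, hD⟩ := dirichlet F (show (0 : ℝ) < 1 / 8 by norm_num)
  induction j with
  | zero =>
    refine ⟨1, one_pos, fun ι _ _ θ hθ M b hG x hx hxS => ⟨0, ?_⟩⟩
    rw [Sb_zero, mem_bot] at hxS
    simp [hxS]
  | succ j ih =>
    obtain ⟨D, hD0, hD1⟩ := ih
    refine ⟨D * Q.factorial, by positivity, fun ι _ _ θ hθ M b hG x hx hxS => ?_⟩
    obtain ⟨hb, hρ, hmin⟩ := hG j (Nat.lt_succ_self j)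
    obtain ⟨c, z, hz, rfl⟩ := mem_Sb_succ hxS
    obtain ⟨q, hq0, hqQ, a, ha⟩ := hD c
    obtain ⟨z2, hz2, hz2'⟩ := exists_qn hθ (Sb b j) (b j) hρ
    have hqF : (q : F) ≠ 0 := by exact_mod_cast hq0.ne'
    set y : ι → F := (q : 𝓞 F) • (c • b j + z) - a • b j with hy
    have hyM : y ∈ M := M.sub_mem (M.smul_mem _ hx) (M.smul_mem _ hb)
    have hy' : y = ((q : F) * c - a) • b j + (q : F) • z := by
      rw [hy, smulO, smulO]
      simp only [smul_add, sub_smul, mul_smul, map_natCast]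
      abel
    have hyS : y ∈ Sb b j := by
      by_contra hcon
      have h1 := hmin y hyM hcon
      have h2 := qn_le hθ (Sb b j) y (z := (q : F) • z + ((q : F) * c - a) • z2)
        (add_mem (smul_mem _ _ hz) (smul_mem _ _ hz2))
      have h3 : y - ((q : F) • z + ((q : F) * c - a) • z2) = ((q : F) * c - a) • (b j - z2) := by
        rw [hy', smul_sub]
        abel
      rw [h3] at h2
      have h4 : nrm θ (((q : F) * c - a) • (b j - z2)) ≤ (1 / 8) * nrm θ (b j - z2) :=
        nrm_smul hθ _ _ ha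
      linarith
    obtain ⟨a', ha'⟩ := hD1 ι θ hθ M b (hG.mono (Nat.le_succ j)) y hyM hyS
    obtain ⟨m, hm⟩ : q ∣ Q.factorial := Nat.dvd_factorial hq0 hqQ
    refine ⟨fun i => if i = j then (m * D : ℕ) * a else (m : 𝓞 F) * a' i, ?_⟩
    rw [sum_range_succ]
    dsimp only
    rw [if_pos rfl]
    have h1 : ∑ i ∈ range j, (((if i = j then ((m * D : ℕ) : 𝓞 F) * a else (m : 𝓞 F) * a' i :
        𝓞 F)) : F) • b i = (m : F) • ((D : F) • y) := by
      rw [ha', smul_sum]
      refine sum_congr rfl fun i hi => ?_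
      rw [if_neg (by rw [mem_range] at hi; omega), smul_smul]
      simp
    rw [h1, hy', hm]
    simp only [smul_add, sub_smul, mul_smul, map_mul, map_natCast, smul_sub, Nat.cast_mul]
    have e1 : (D : F) • (q : F) • (m : F) • c • b j = (m : F) • (D : F) • (q : F) • c • b j := by
      simp only [smul_smul]
      congr 1
      ring
    have e2 : (D : F) • (q : F) • (m : F) • z = (m : F) • (D : F) • (q : F) • z := by
      simp only [smul_smul]
      congr 1
      ring
    rw [e1, e2]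
    abel

end

end Run7.h3.GT
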